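import Pool.Agent.Lib.MP_ed4bd1_lc.Exist

set_option autoImplicit false

/-!
# MP_ed4bd1_lc, module N8: the algorithm as a route rule
-/

namespace Pool.Agent.Lib.MP_ed4bd1_lc

/-! ## Weight functions that agree on the explored set -/

theorem WP.algTransfer {w w' : ℕ → ℕ → ℝ} {R R' : ℕ → ℕ → Prop}
    (h : ∀ a b, R a b → w a b = w' a b ∧ R' a b) {L : ℝ} {x y : ℕ} (hp : WP w R L x y) :
    WP w' R' L x y := by
  induction hp with
  | nil u => exact WP.nil u
  | cons h1 _ ih => rw [(h _ _ h1).1]; exact WP.cons (h _ _ h1).2 ih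

def Agree (w w' : ℕ → ℕ → ℝ) (E : Finset ℕ) : Prop := ∀ a ∈ E, ∀ b, w a b = w' a b

section agree

variable {w w' : ℕ → ℕ → ℝ} {E : Finset ℕ}

theorem Agree.symm (h : Agree w w' E) : Agree w' w E := fun a ha b => (h a ha b).symm

theorem Agree.conIn (h : Agree w w' E) {b L : ℝ} {u v : ℕ} (hc : ConIn w E b L u v) :
    ConIn w' E b L u v := by
  obtain ⟨L', hL', hp⟩ := hc
  refine ⟨L', hL', hp.algTransfer ?_⟩
  rintro a b ⟨ha, hb, h1, h2⟩
  have e := h a ha b
  refine ⟨e, ha, hb, ?_, ?_⟩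
  · rw [← e]; exact h1
  · rw [← e]; exact h2

theorem Agree.conE (h : Agree w w' E) {L : ℝ} {u v : ℕ} (hc : ConE w E L u v) :
    ConE w' E L u v := by
  obtain ⟨L', hL', hp⟩ := hc
  refine ⟨L', hL', hp.algTransfer ?_⟩
  rintro a b ⟨ha, hb, h1⟩
  have e := h a ha b
  refine ⟨e, ha, hb, ?_⟩
  rw [← e]; exact h1

theorem Agree.pend (h : Agree w w' E) {y z : ℕ} (hp : Pend w E y z) : Pend w' E y z := by
  have e := h y hp.1 z
  refine ⟨hp.1, hp.2.1, ?_⟩
  rw [← e]; exact hp.2.2

theorem Agree.elig (h : Agree w w' E) {y z : ℕ} (hp : Elig w E y z) : Elig w' E y z := by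
  obtain ⟨h1, h2⟩ := hp
  refine ⟨h.pend h1, ?_⟩
  intro y' z' h3 h4 h5
  have e1 := h y h1.1 z
  have e2 := h y' h3.1 z'
  rw [← e1, ← e2] at h4
  rw [← e1] at h5
  exact h2 y' z' (h.symm.pend h3) h4 (h.symm.conIn h5)

theorem Agree.pendAt (h : Agree w w' E) {i : ℤ} {x y z : ℕ} (hp : PendAt w E i x y z) :
    PendAt w' E i x y z := by
  obtain ⟨h1, h2, h3⟩ := hp
  have e1 := h y h1.1.1 z
  refine ⟨h.elig h1, ?_, ?_⟩
  · rw [← e1]; exact h2
  · rw [← e1]; exact h.conIn h3

end agree

theorem alg_mask_of_mem (w : ℕ → ℕ → ℝ) {X : List ℕ} {a : ℕ} (h : a ∈ X) (b : ℕ) :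
    mask w X a b = w a b := by
  unfold mask; simp [h]

theorem alg_mask_mask (w : ℕ → ℕ → ℝ) {X Y : List ℕ} (h : ∀ a ∈ Y, a ∈ X) :
    mask (mask w X) Y = mask w Y := by
  funext a b
  unfold mask
  by_cases ha : a ∈ Y
  · simp [ha, h a ha]
  · simp [ha]

theorem alg_pos_of_mask (w : ℕ → ℕ → ℝ) {X : List ℕ} {a b : ℕ} (h : 0 < mask w X a b) :
    a ∈ X ∧ 0 < w a b := by
  unfold mask at h
  by_cases ha : a ∈ X
  · simp only [ha, if_true] at h
    exact ⟨ha, h⟩
  · simp [ha] at h

theorem alg_agree_mask (w : ℕ → ℕ → ℝ) {X : List ℕ} {E : Finset ℕ} (h : ∀ a ∈ E, a ∈ X) :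
    Agree w (mask w X) E := fun a ha b => (alg_mask_of_mem w (h a ha) b).symm

/-! ## Choice of the next edge -/

def AlgGoodC (w : ℕ → ℕ → ℝ) (E : Finset ℕ) (x : ℤ → ℕ) (a : ℤ × ℕ × ℕ) : Prop :=
  PendAt w E a.1 (x a.1) a.2.1 a.2.2 ∧ ∀ i, i < a.1 → ∀ y z, ¬ PendAt w E i (x i) y z

theorem Agree.goodC {w w' : ℕ → ℕ → ℝ} {E : Finset ℕ} (h : Agree w w' E) {x : ℤ → ℕ}
    {a : ℤ × ℕ × ℕ} (ha : AlgGoodC w E x a) : AlgGoodC w' E x a :=
  ⟨h.pendAt ha.1, fun i hi y z hp => ha.2 i hi y z (h.symm.pendAt hp)⟩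

open Classical in
noncomputable def algPick (w : ℕ → ℕ → ℝ) (E : Finset ℕ) (x : ℤ → ℕ) : ℤ × ℕ × ℕ :=
  if h : ∃ a, AlgGoodC w E x a then h.choose else (0, 0, 0)

theorem algPick_spec {w : ℕ → ℕ → ℝ} {E : Finset ℕ} {x : ℤ → ℕ} (h : ∃ a, AlgGoodC w E x a) :
    AlgGoodC w E x (algPick w E x) := by
  unfold algPick
  rw [dif_pos h]
  exact h.choose_spec

/-! ## Lists -/

theorem alg_plen_cons_cons (w : ℕ → ℕ → ℝ) (a b : ℕ) (l : List ℕ) :
    plen w (a :: b :: l) = w a b + plen w (b :: l) := by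
  simp [plen]

theorem alg_plen_single (w : ℕ → ℕ → ℝ) (a : ℕ) : plen w [a] = 0 := by simp [plen]

theorem alg_plen_concat (w : ℕ → ℕ → ℝ) (z : ℕ) : ∀ (l : List ℕ) (a : ℕ),
    plen w ((a :: l) ++ [z]) = plen w (a :: l) + w ((a :: l).getLastD 0) z := by
  intro l
  induction l with
  | nil => intro a; simp [plen]
  | cons b l ih =>
    intro a
    have h1 : (a :: b :: l) ++ [z] = a :: b :: (l ++ [z]) := by simp
    have h2 : b :: (l ++ [z]) = (b :: l) ++ [z] := by simp
    rw [h1, alg_plen_cons_cons, h2, ih b, alg_plen_cons_cons]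
    have h3 : (a :: b :: l).getLastD 0 = (b :: l).getLastD 0 := by simp
    rw [h3]; ring

theorem alg_plen_congr {w w' : ℕ → ℕ → ℝ} : ∀ (l : List ℕ) (a : ℕ),
    (a :: l).IsChain (fun x y => w x y = w' x y) → plen w (a :: l) = plen w' (a :: l) := by
  intro l
  induction l with
  | nil => intro a _; simp [plen]
  | cons b l ih =>
    intro a h
    rw [List.isChain_cons_cons] at h
    rw [alg_plen_cons_cons, alg_plen_cons_cons, h.1, ih b h.2]

/-- a walk as a list -/
theorem WP.algList {w : ℕ → ℕ → ℝ} {R : ℕ → ℕ → Prop} {L : ℝ} {x y : ℕ} (h : WP w R L x y) :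
    ∃ p : List ℕ, (x :: p).IsChain R ∧ (x :: p).getLastD 0 = y ∧ plen w (x :: p) = L := by
  induction h with
  | nil u => exact ⟨[], by simp, by simp, by simp [plen]⟩
  | @cons L u v z h1 _ ih =>
    obtain ⟨p, hp1, hp2, hp3⟩ := ih
    refine ⟨v :: p, ?_, ?_, ?_⟩
    · rw [List.isChain_cons_cons]; exact ⟨h1, hp1⟩
    · rw [← hp2]; simp
    · rw [alg_plen_cons_cons, hp3]

/-! ## Nearly shortest known paths -/

def AlgGoodP (w : ℕ → ℕ → ℝ) (E : Finset ℕ) (x y : ℕ) (p : List ℕ) : Prop :=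
  (x :: p).IsChain (fun a b => 0 < w a b) ∧ (∀ a ∈ p, a ∈ E) ∧
    (x :: p).getLastD 0 = y ∧ ∀ c, ConE w E c x y → plen w (x :: p) ≤ 2 * c

theorem alg_exists_pos_lower {w : ℕ → ℕ → ℝ} (E : Finset ℕ) (x : ℕ) :
    ∃ δ : ℝ, 0 < δ ∧ ∀ b ∈ E, 0 < w x b → δ ≤ w x b := by
  classical
  induction E using Finset.induction_on with
  | empty => exact ⟨1, one_pos, by simp⟩
  | @insert a E _ ih =>
    obtain ⟨δ, h0, h1⟩ := ih
    by_cases ha : 0 < w x a
    · refine ⟨min δ (w x a), lt_min h0 ha, ?_⟩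
      intro b hb hb0
      rcases Finset.mem_insert.1 hb with rfl | hb
      · exact min_le_right _ _
      · exact (min_le_left _ _).trans (h1 b hb hb0)
    · refine ⟨δ, h0, ?_⟩
      intro b hb hb0
      rcases Finset.mem_insert.1 hb with rfl | hb
      · exact absurd hb0 ha
      · exact h1 b hb hb0

theorem exists_goodP {w : ℕ → ℕ → ℝ} {E : Finset ℕ} {x y : ℕ} (h : ∃ c, ConE w E c x y) :
    ∃ p, AlgGoodP w E x y p := by
  by_cases hxy : x = y
  · subst hxy
    refine ⟨[], by simp, by simp, by simp, ?_⟩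
    intro c hc
    rw [alg_plen_single]
    have := ConR.nonneg (fun _ _ h => h.2.2.le) hc
    linarith
  obtain ⟨δ, hδ, hδ'⟩ := alg_exists_pos_lower (w := w) E x
  set S : Set ℝ := {L | WP w (fun a b => a ∈ E ∧ b ∈ E ∧ 0 < w a b) L x y} with hS
  have hSne : S.Nonempty := by
    obtain ⟨c, L, _, hL⟩ := h
    exact ⟨L, hL⟩
  have hSδ : ∀ L ∈ S, δ ≤ L := by
    intro L hL
    rw [hS] at hL
    have hL' : WP w (fun a b => a ∈ E ∧ b ∈ E ∧ 0 < w a b) L x y := hL
    cases hL' with
    | nil => exact absurd rfl hxy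
    | @cons L u v z h1 h2 =>
      have h3 : 0 ≤ L := h2.nonneg (fun _ _ h => h.2.2.le)
      have h4 := hδ' v h1.2.1 h1.2.2
      linarith
  have hI : δ ≤ sInf S := le_csInf hSne hSδ
  obtain ⟨L, hL, hlt⟩ := exists_lt_of_csInf_lt hSne (show sInf S < 2 * sInf S by linarith)
  have hL' : WP w (fun a b => a ∈ E ∧ b ∈ E ∧ 0 < w a b) L x y := hL
  obtain ⟨p, hp1, hp2, hp3⟩ := hL'.algList
  refine ⟨p, ?_, ?_, hp2, ?_⟩
  · exact hp1.imp (fun a b h => h.2.2)
  · have key : ∀ (q : List ℕ) (a : ℕ), (a :: q).IsChain (fun a b => a ∈ E ∧ b ∈ E ∧ 0 < w a b) →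
        ∀ c ∈ q, c ∈ E := by
      intro q
      induction q with
      | nil => intro a _ c hc; simp at hc
      | cons b q ih =>
        intro a hq c hc
        rw [List.isChain_cons_cons] at hq
        rcases List.mem_cons.1 hc with rfl | hc
        · exact hq.1.2.1
        · exact ih b hq.2 c hc
    exact key p x hp1
  · rintro c ⟨L', hL1, hL2⟩
    have h1 : sInf S ≤ L' := csInf_le ⟨δ, hSδ⟩ hL2
    rw [hp3]
    linarith

open Classical in
noncomputable def algPath (w : ℕ → ℕ → ℝ) (E : Finset ℕ) (x y : ℕ) : List ℕ :=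
  if h : ∃ p, AlgGoodP w E x y p then h.choose else []

theorem algPath_spec {w : ℕ → ℕ → ℝ} {E : Finset ℕ} {x y : ℕ} (h : ∃ p, AlgGoodP w E x y p) :
    AlgGoodP w E x y (algPath w E x y) := by
  unfold algPath
  rw [dif_pos h]
  exact h.choose_spec

/-! ## The rule -/

/-- centres (as times), reconstructed from the known weights and the list of explored vertices -/
noncomputable def algCenF (w : ℕ → ℕ → ℝ) (X : List ℕ) : ℕ → ℤ → ℕ
  | 0 => fun _ => 0
  | k + 1 => fun i =>
      if i < (algPick (mask w (X.take (k + 1))) (X.take (k + 1)).toFinset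
        (fun i => X.getD (algCenF w X k i) 0)).1 then k + 1 else algCenF w X k i

noncomputable def algRule (w : ℕ → ℕ → ℝ) (X : List ℕ) : List ℕ :=
  algPath (mask w X) X.toFinset (X.getLastD 0)
    (algPick (mask w X) X.toFinset (fun i => X.getD (algCenF w X (X.length - 1) i) 0)).2.1 ++
  [(algPick (mask w X) X.toFinset (fun i => X.getD (algCenF w X (X.length - 1) i) 0)).2.2]

theorem algRule_def (w : ℕ → ℕ → ℝ) (X : List ℕ) : algRule w X =
    algPath (mask w X) X.toFinset (X.getLastD 0)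
      (algPick (mask w X) X.toFinset (fun i => X.getD (algCenF w X (X.length - 1) i) 0)).2.1 ++
    [(algPick (mask w X) X.toFinset (fun i => X.getD (algCenF w X (X.length - 1) i) 0)).2.2] := rfl

/-! ## The run of the rule -/

section run

variable (w : ℕ → ℕ → ℝ) (s : ℕ)

noncomputable def algV (t : ℕ) : ℕ := (XS algRule w s t).getLastD 0

theorem algV_zero : algV w s 0 = s := by simp [algV, XS]

theorem algV_succ (t : ℕ) :
    algV w s (t + 1) = (algRule (mask w (XS algRule w s t)) (XS algRule w s t)).getLastD 0 := by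
  simp [algV, XS]

theorem alg_XS_eq (t : ℕ) : XS algRule w s t = (List.range (t + 1)).map (algV w s) := by
  induction t with
  | zero => simp [XS, algV]
  | succ t ih =>
    have h1 : XS algRule w s (t + 1) = XS algRule w s t ++ [algV w s (t + 1)] := by
      rw [algV_succ]; rfl
    rw [h1, ih, List.range_succ (n := t + 1), List.map_append]
    rfl

theorem alg_XS_length (t : ℕ) : (XS algRule w s t).length = t + 1 := by simp [alg_XS_eq]

theorem alg_XS_take {k t : ℕ} (h : k ≤ t) : (XS algRule w s t).take (k + 1) = XS algRule w s k := by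
  rw [alg_XS_eq, alg_XS_eq, ← List.map_take, List.take_range, min_eq_left (by omega)]

theorem alg_XS_getD {k t : ℕ} (h : k ≤ t) : (XS algRule w s t).getD k 0 = algV w s k := by
  rw [alg_XS_eq, List.getD_eq_getElem?_getD, List.getElem?_map, List.getElem?_range (by omega)]
  rfl

theorem alg_XS_toFinset (t : ℕ) : (XS algRule w s t).toFinset = ES (algV w s) t := by
  ext a
  rw [alg_XS_eq]
  simp [ES]

theorem alg_mem_XS {a t : ℕ} : a ∈ XS algRule w s t ↔ a ∈ ES (algV w s) t := by
  rw [← alg_XS_toFinset, List.mem_toFinset]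

theorem alg_ES_mono {v : ℕ → ℕ} {k t : ℕ} (h : k ≤ t) : ES v k ⊆ ES v t := by
  unfold ES
  exact Finset.image_subset_image (Finset.range_subset_range.2 (by omega))

/-- centres of the run -/
noncomputable def algCn : ℕ → ℤ → ℕ
  | 0 => fun _ => 0
  | k + 1 => fun i =>
      if i < (algPick (mask w (XS algRule w s k)) (ES (algV w s) k)
        (fun i => algV w s (algCn k i))).1 then k + 1 else algCn k i

theorem algCn_le (k : ℕ) (i : ℤ) : algCn w s k i ≤ k := by
  induction k with
  | zero => simp [algCn]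
  | succ k ih =>
    simp only [algCn]
    split_ifs
    · exact le_rfl
    · omega

theorem algCenF_eq {t : ℕ} : ∀ k, k ≤ t →
    algCenF (mask w (XS algRule w s t)) (XS algRule w s t) k = algCn w s k := by
  intro k
  induction k with
  | zero => intro _; rfl
  | succ k ih =>
    intro hk
    have ih' := ih (by omega)
    funext i
    simp only [algCenF, algCn]
    rw [ih', alg_XS_take w s (show k ≤ t by omega), alg_XS_toFinset, alg_mask_mask]
    · have h1 : (fun i => (XS algRule w s t).getD (algCn w s k i) 0) = fun i => algV w s (algCn w s k i) := by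
        funext j
        exact alg_XS_getD w s ((algCn_le w s k j).trans (by omega))
      rw [h1]
    · intro a ha
      rw [alg_mem_XS] at *
      exact alg_ES_mono (by omega) ha

/-- the choice made in round `t` -/
noncomputable def algA (t : ℕ) : ℤ × ℕ × ℕ :=
  algPick (mask w (XS algRule w s t)) (ES (algV w s) t) (fun i => algV w s (algCn w s t i))

theorem algRule_eq (t : ℕ) : algRule (mask w (XS algRule w s t)) (XS algRule w s t) =
    algPath (mask w (XS algRule w s t)) (ES (algV w s) t) (algV w s t) (algA w s t).2.1 ++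
      [(algA w s t).2.2] := by
  have h1 : (fun i => (XS algRule w s t).getD
      (algCenF (mask w (XS algRule w s t)) (XS algRule w s t) ((XS algRule w s t).length - 1) i) 0) =
      fun i => algV w s (algCn w s t i) := by
    funext j
    rw [alg_XS_length, Nat.add_sub_cancel, algCenF_eq w s t le_rfl]
    exact alg_XS_getD w s (algCn_le w s t j)
  have h2 : mask (mask w (XS algRule w s t)) (XS algRule w s t) = mask w (XS algRule w s t) :=
    alg_mask_mask w (fun a ha => ha)
  rw [algRule_def, h1, h2, alg_XS_toFinset]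
  rfl

theorem algV_succ' (t : ℕ) : algV w s (t + 1) = (algA w s t).2.2 := by
  rw [algV_succ, algRule_eq]
  simp

theorem algCn_large (t : ℕ) : ∃ i0 : ℤ, ∀ i, i0 ≤ i → algCn w s t i = 0 := by
  induction t with
  | zero => exact ⟨0, fun i _ => rfl⟩
  | succ t ih =>
    obtain ⟨i0, h0⟩ := ih
    refine ⟨max i0 (algA w s t).1, fun i hi => ?_⟩
    have h1 : i0 ≤ i := (le_max_left _ _).trans hi
    have h2 : (algA w s t).1 ≤ i := (le_max_right _ _).trans hi
    have h3 : ¬ i < (algPick (mask w (XS algRule w s t)) (ES (algV w s) t)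
        (fun i => algV w s (algCn w s t i))).1 := not_lt.2 h2
    simp only [algCn]
    rw [if_neg h3]
    exact h0 i h1

variable {w s} {V : Finset ℕ}

theorem alg_agree_run (t : ℕ) : Agree w (mask w (XS algRule w s t)) (ES (algV w s) t) :=
  alg_agree_mask w (fun a ha => (alg_mem_XS w s).2 ha)

theorem alg_good_run (hG : Gr w V)
    (hconn : ∀ u ∈ V, ∀ v ∈ V, Relation.ReflTransGen (fun x y => 0 < w x y) u v) (t : ℕ)
    (h1 : ∀ k, k ≤ t → algV w s k ∈ V)
    (h2 : ∀ u ∈ ES (algV w s) t, ∃ L, ConE w (ES (algV w s) t) L s u)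
    (hNA : ¬ ∀ v ∈ V, v ∈ XS algRule w s t) :
    AlgGoodC w (ES (algV w s) t) (fun i => algV w s (algCn w s t i)) (algA w s t) := by
  have hex : ∃ a, AlgGoodC w (ES (algV w s) t) (fun i => algV w s (algCn w s t i)) a := by
    push Not at hNA
    obtain ⟨v, hv, hv'⟩ := hNA
    obtain ⟨m, y, z, h3, h4⟩ := exists_least_level hG hconn (ES (algV w s) t)
      (by
        intro _ ha
        unfold ES at ha
        obtain ⟨k, hk, rfl⟩ := Finset.mem_image.1 ha
        exact h1 k (by rw [Finset.mem_range] at hk; omega))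
      ⟨v, hv, fun h => hv' ((alg_mem_XS w s).2 h)⟩
      (s := s)
      (by
        unfold ES
        refine Finset.mem_image.2 ⟨0, by simp, algV_zero w s⟩)
      h2 (fun i => algV w s (algCn w s t i))
      (by
        obtain ⟨i0, h0⟩ := algCn_large w s t
        refine ⟨i0, fun i hi => ?_⟩
        rw [h0 i hi, algV_zero])
    exact ⟨(m, y, z), h3, h4⟩
  obtain ⟨a, ha⟩ := hex
  have h5 := algPick_spec ⟨a, (alg_agree_run (w := w) (s := s) t).goodC ha⟩
  exact (alg_agree_run (w := w) (s := s) t).symm.goodC h5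

theorem alg_inv_run (hG : Gr w V)
    (hconn : ∀ u ∈ V, ∀ v ∈ V, Relation.ReflTransGen (fun x y => 0 < w x y) u v) (hs : s ∈ V)
    (t : ℕ) : (∀ t', t' < t → ¬ ∀ v ∈ V, v ∈ XS algRule w s t') →
    (∀ k, k ≤ t → algV w s k ∈ V) ∧
    (∀ u ∈ ES (algV w s) t, ∃ L, ConE w (ES (algV w s) t) L s u) := by
  induction t with
  | zero =>
    intro _
    refine ⟨?_, ?_⟩
    · intro k hk
      have : k = 0 := by omega
      subst this
      rw [algV_zero]; exact hs
    · intro u hu
      have : u = s := by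
        unfold ES at hu
        simp only [zero_add, Finset.range_one, Finset.image_singleton, Finset.mem_singleton] at hu
        rw [hu, algV_zero]
      subst this
      exact ⟨0, ConR.refl le_rfl u⟩
  | succ t ih =>
    intro h
    obtain ⟨i1, i2⟩ := ih (fun t' ht' => h t' (by omega))
    have hg := alg_good_run hG hconn t i1 i2 (h t (by omega))
    have hpos : 0 < w (algA w s t).2.1 (algA w s t).2.2 := hg.1.1.1.2.2
    have hyE : (algA w s t).2.1 ∈ ES (algV w s) t := hg.1.1.1.1
    have hnew : (algA w s t).2.2 ∈ ES (algV w s) (t + 1) := by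
      rw [← algV_succ' w s t]
      unfold ES
      exact Finset.mem_image.2 ⟨t + 1, by simp, rfl⟩
    refine ⟨?_, ?_⟩
    · intro k hk
      rcases Nat.lt_or_ge t k with hk' | hk'
      · have : k = t + 1 := by omega
        subst this
        rw [algV_succ']
        exact (hG.supp _ _ hpos).2
      · exact i1 k hk'
    · intro u hu
      have hmono : ∀ {u : ℕ} {L : ℝ}, ConE w (ES (algV w s) t) L s u →
          ConE w (ES (algV w s) (t + 1)) L s u := by
        intro u L hL
        exact ConR.monoR (fun a b hab => ⟨alg_ES_mono (by omega) hab.1, alg_ES_mono (by omega) hab.2.1,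
          hab.2.2⟩) hL
      unfold ES at hu
      obtain ⟨k, hk, rfl⟩ := Finset.mem_image.1 hu
      rw [Finset.mem_range] at hk
      rcases Nat.lt_or_ge t k with hk' | hk'
      · have : k = t + 1 := by omega
        subst this
        rw [algV_succ']
        obtain ⟨L, hL⟩ := i2 _ hyE
        refine ⟨L + w (algA w s t).2.1 (algA w s t).2.2, (hmono hL).trans ?_⟩
        exact ConR.single ⟨alg_ES_mono (by omega) hyE, hnew, hpos⟩
      · obtain ⟨L, hL⟩ := i2 (algV w s k) (by
          unfold ES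
          exact Finset.mem_image.2 ⟨k, by rw [Finset.mem_range]; omega, rfl⟩)
        exact ⟨L, hmono hL⟩

theorem alg_notAll_mono {t t' : ℕ} (h : t' ≤ t) (hN : ¬ ∀ v ∈ V, v ∈ XS algRule w s t) :
    ¬ ∀ v ∈ V, v ∈ XS algRule w s t' := by
  intro h'
  apply hN
  intro v hv
  have := h' v hv
  rw [alg_mem_XS] at *
  exact alg_ES_mono h this

/-- everything about round `t` -/
theorem algRound (hG : Gr w V)
    (hconn : ∀ u ∈ V, ∀ v ∈ V, Relation.ReflTransGen (fun x y => 0 < w x y) u v) (hs : s ∈ V)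
    (t : ℕ) (hN : ¬ ∀ v ∈ V, v ∈ XS algRule w s t) :
    AlgGoodC w (ES (algV w s) t) (fun i => algV w s (algCn w s t i)) (algA w s t) ∧
    ∃ p, AlgGoodP w (ES (algV w s) t) (algV w s t) (algA w s t).2.1 p ∧
      algRule (mask w (XS algRule w s t)) (XS algRule w s t) = p ++ [(algA w s t).2.2] := by
  obtain ⟨i1, i2⟩ := alg_inv_run hG hconn hs t (fun t' ht' => alg_notAll_mono ht'.le hN)
  have hg := alg_good_run hG hconn t i1 i2 hN
  refine ⟨hg, _, ?_, algRule_eq w s t⟩
  have hyE : (algA w s t).2.1 ∈ ES (algV w s) t := hg.1.1.1.1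
  have hvE : algV w s t ∈ ES (algV w s) t := by
    unfold ES
    exact Finset.mem_image.2 ⟨t, by simp, rfl⟩
  obtain ⟨L1, hL1⟩ := i2 _ hyE
  obtain ⟨L2, hL2⟩ := i2 _ hvE
  have hL2' : ConE w (ES (algV w s) t) L2 (algV w s t) s :=
    ConR.symm hG.symm (fun a b h => ⟨h.2.1, h.1, by rw [hG.symm b a]; exact h.2.2⟩) hL2
  have hc : ConE w (ES (algV w s) t) (L2 + L1) (algV w s t) (algA w s t).2.1 := hL2'.trans hL1
  have ha := alg_agree_run (w := w) (s := s) t
  obtain ⟨p1, p2, p3, p4⟩ := algPath_spec (exists_goodP ⟨_, ha.conE hc⟩)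
  have hch : (algV w s t :: algPath (mask w (XS algRule w s t)) (ES (algV w s) t) (algV w s t)
      (algA w s t).2.1).IsChain (fun a b => 0 < w a b) :=
    p1.imp (fun a b h => (alg_pos_of_mask w h).2)
  refine ⟨hch, p2, p3, ?_⟩
  intro c hc'
  have h1 := p4 c (ha.conE hc')
  rw [alg_plen_congr (w' := w) _ _ (p1.imp (fun a b h => alg_mask_of_mem w (alg_pos_of_mask w h).1 b))] at h1
  exact h1

end run

theorem exists_rule : ∃ rt : (ℕ → ℕ → ℝ) → List ℕ → List ℕ,
    ∀ {w : ℕ → ℕ → ℝ} {V : Finset ℕ} {s : ℕ}, Gr w V →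
      (∀ u ∈ V, ∀ v ∈ V, Relation.ReflTransGen (fun x y => 0 < w x y) u v) → s ∈ V →
      (∀ t, ¬ (∀ v ∈ V, v ∈ XS rt w s t) →
        Route w (XS rt w s t) (rt (mask w (XS rt w s t)) (XS rt w s t))) ∧
      ∀ T, (∀ t, t < T → ¬ (∀ v ∈ V, v ∈ XS rt w s t)) →
        ∃ (v src : ℕ → ℕ) (m : ℕ → ℤ) (cen : ℕ → ℤ → ℕ), Trace w T v src m cen ∧ v 0 = s ∧
          (∀ t, t ≤ T → v t ∈ V) ∧
          ∀ t, t < T → ∀ c, ConE w (ES v t) c (v t) (v (src (t + 1))) →
            plen w ((XS rt w s t).getLastD 0 :: rt (mask w (XS rt w s t)) (XS rt w s t)) ≤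
              2 * c + w (v (src (t + 1))) (v (t + 1)) := by
  refine ⟨algRule, ?_⟩
  intro w V s hG hconn hs
  refine ⟨?_, ?_⟩
  · intro t hN
    obtain ⟨hg, p, ⟨p1, p2, p3, _⟩, hr⟩ := algRound hG hconn hs t hN
    have hl : (XS algRule w s t).getLastD 0 = algV w s t := rfl
    have hz : (algA w s t).2.2 ∉ XS algRule w s t := fun h => hg.1.1.1.2.1 ((alg_mem_XS w s).1 h)
    rw [hr]
    refine ⟨by simp, ?_, ?_, ?_⟩
    · rw [hl, ← List.cons_append, List.isChain_append]
      refine ⟨p1, by simp, ?_⟩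
      intro a ha b hb
      have hb' : b = (algA w s t).2.2 := by simpa using hb.symm
      have ha' : a = (algA w s t).2.1 := by
        rw [← p3, List.getLastD_eq_getLast?, ha]
        rfl
      rw [ha', hb']
      exact hg.1.1.1.2.2
    · intro a ha
      rw [List.dropLast_concat] at ha
      exact (alg_mem_XS w s).2 (p2 a ha)
    · rw [List.getLastD_concat]
      exact hz
  · intro T hT
    have hg : ∀ t, t < T → AlgGoodC w (ES (algV w s) t) (fun i => algV w s (algCn w s t i)) (algA w s t) :=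
      fun t ht => (algRound hG hconn hs t (hT t ht)).1
    have hsrc : ∀ t, t < T → (XS algRule w s t).idxOf (algA w s t).2.1 ≤ t ∧
        algV w s ((XS algRule w s t).idxOf (algA w s t).2.1) = (algA w s t).2.1 := by
      intro t ht
      have hy : (algA w s t).2.1 ∈ XS algRule w s t := (alg_mem_XS w s).2 (hg t ht).1.1.1.1
      have h1 := List.idxOf_lt_length_of_mem hy
      have h2 : (XS algRule w s t).idxOf (algA w s t).2.1 ≤ t := by
        rw [alg_XS_length] at h1; omega
      refine ⟨h2, ?_⟩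
      rw [← alg_XS_getD w s h2, List.getD_eq_getElem _ _ h1]
      exact List.getElem_idxOf h1
    refine ⟨algV w s, fun t => (XS algRule w s (t - 1)).idxOf (algA w s (t - 1)).2.1,
      fun t => (algA w s (t - 1)).1, algCn w s, ⟨?_, ?_, ?_, ?_, ?_⟩, algV_zero w s, ?_, ?_⟩
    · intro i; rfl
    · intro t ht
      simp only [Nat.add_sub_cancel]
      exact (hsrc t ht).1
    · intro t ht
      simp only [Nat.add_sub_cancel]
      rw [(hsrc t ht).2, algV_succ']
      exact (hg t ht).1
    · intro t ht i hi y z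
      simp only [Nat.add_sub_cancel] at hi
      exact (hg t ht).2 i hi y z
    · intro t _ i
      simp only [Nat.add_sub_cancel]
      rfl
    · intro t ht
      exact (alg_inv_run hG hconn hs T hT).1 t ht
    · intro t ht c hc
      simp only [Nat.add_sub_cancel] at hc ⊢
      rw [(hsrc t ht).2] at hc ⊢
      obtain ⟨_, p, ⟨p1, p2, p3, p4⟩, hr⟩ := algRound hG hconn hs t (hT t ht)
      have hl : (XS algRule w s t).getLastD 0 = algV w s t := rfl
      rw [hr, hl, ← List.cons_append, alg_plen_concat, p3, algV_succ']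
      have := p4 c hc
      linarith

end Pool.Agent.Lib.MP_ed4bd1_lc
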