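import Pool.Agent.Lib.MP_ed4bd1_lc.Defs

set_option autoImplicit false

/-! # MP_ed4bd1_lc, module M11: a minimum spanning edge set and its cut property -/

namespace Pool.Agent.Lib.MP_ed4bd1_lc

/-- adjacency by the edges of `M`, both directions -/
private def MAdj (M : Finset (ℕ × ℕ)) (x y : ℕ) : Prop := (x, y) ∈ M ∨ (y, x) ∈ M

private lemma MAdj.symm {M : Finset (ℕ × ℕ)} {x y : ℕ} (h : MAdj M x y) : MAdj M y x := Or.symm h

private lemma rtg_symm {α : Type*} {R : α → α → Prop} (hR : ∀ x y, R x y → R y x) {x y : α}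
    (h : Relation.ReflTransGen R x y) : Relation.ReflTransGen R y x := by
  induction h with
  | refl => exact Relation.ReflTransGen.refl
  | tail _ h2 ih => exact Relation.ReflTransGen.head (hR _ _ h2) ih

/-- the last edge of a walk leaving `A` -/
private lemma last_exit {R : ℕ → ℕ → Prop} (A : Set ℕ) {v : ℕ} (hv : v ∉ A) {z : ℕ}
    (h : Relation.ReflTransGen R z v) :
    (z ∉ A ∧ Relation.ReflTransGen (fun p q => R p q ∧ p ∉ A ∧ q ∉ A) z v) ∨
      ∃ x y, x ∈ A ∧ y ∉ A ∧ R x y ∧
        Relation.ReflTransGen (fun p q => R p q ∧ p ∉ A ∧ q ∉ A) y v := by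
  induction h using Relation.ReflTransGen.head_induction_on with
  | refl => exact Or.inl ⟨hv, Relation.ReflTransGen.refl⟩
  | @head a c hac _ ih =>
    rcases ih with ⟨hc, hcv⟩ | h
    · by_cases ha : a ∈ A
      · exact Or.inr ⟨a, c, ha, hc, hac, hcv⟩
      · exact Or.inl ⟨ha, Relation.ReflTransGen.head ⟨hac, ha, hc⟩ hcv⟩
    · exact Or.inr h

/-- all members of a list are joined by its consecutive pairs -/
private lemma zip_connected (l : List ℕ) : ∀ u ∈ l, ∀ v ∈ l,
    Relation.ReflTransGen (MAdj (l.zip l.tail).toFinset) u v := by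
  induction l with
  | nil => intro u hu; simp at hu
  | cons a l ih =>
    cases l with
    | nil =>
      intro u hu v hv
      simp only [List.mem_singleton] at hu hv
      subst hu; subst hv
      exact Relation.ReflTransGen.refl
    | cons c l =>
      have hmono : ∀ x y, MAdj ((c :: l).zip (c :: l).tail).toFinset x y →
          MAdj ((a :: c :: l).zip (a :: c :: l).tail).toFinset x y := by
        intro x y h
        unfold MAdj at h ⊢
        simp only [List.tail_cons, List.mem_toFinset] at h ⊢
        rw [List.zip_cons_cons]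
        rcases h with h | h
        · exact Or.inl (List.mem_cons_of_mem _ h)
        · exact Or.inr (List.mem_cons_of_mem _ h)
      have hac : MAdj ((a :: c :: l).zip (a :: c :: l).tail).toFinset a c := by
        unfold MAdj
        simp
      have hall : ∀ v ∈ a :: c :: l,
          Relation.ReflTransGen (MAdj ((a :: c :: l).zip (a :: c :: l).tail).toFinset) c v := by
        intro v hv
        rcases List.mem_cons.1 hv with rfl | hv
        · exact Relation.ReflTransGen.single hac.symm
        · exact Relation.ReflTransGen.mono hmono _ _ (ih c (List.mem_cons_self ..) v hv)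
      intro u hu v hv
      exact (rtg_symm (fun x y h => MAdj.symm h) (hall u hu)).trans (hall v hv)

private lemma zip_pos {w : ℕ → ℕ → ℝ} (l : List ℕ) (hl : l.IsChain (fun a b => 0 < w a b)) :
    ∀ e ∈ l.zip l.tail, 0 < w e.1 e.2 := by
  induction l with
  | nil => intro e he; simp at he
  | cons a l ih =>
    cases l with
    | nil => intro e he; simp at he
    | cons c l =>
      rw [List.isChain_cons_cons] at hl
      intro e he
      rw [List.tail_cons, List.zip_cons_cons] at he
      rcases List.mem_cons.1 he with rfl | he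
      · exact hl.1
      · exact ih hl.2 e he

private lemma toFinset_sum_le {α : Type*} [DecidableEq α] (f : α → ℝ) (l : List α)
    (h : ∀ e ∈ l, 0 ≤ f e) : ∑ e ∈ l.toFinset, f e ≤ (l.map f).sum := by
  induction l with
  | nil => simp
  | cons a l ih =>
    have h1 := ih (fun e he => h e (List.mem_cons_of_mem _ he))
    rw [List.toFinset_cons, List.map_cons, List.sum_cons]
    by_cases ha : a ∈ l.toFinset
    · rw [Finset.insert_eq_of_mem ha]
      have := h a (List.mem_cons_self ..)
      linarith
    · rw [Finset.sum_insert ha]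
      linarith

theorem exists_mst {w : ℕ → ℕ → ℝ} {V : Finset ℕ} (hG : Gr w V)
    (hconn : ∀ u ∈ V, ∀ v ∈ V, Relation.ReflTransGen (fun x y => 0 < w x y) u v) :
    ∃ M : Finset (ℕ × ℕ), (∀ e ∈ M, 0 < w e.1 e.2) ∧
      (∀ b u v, Edge w b u v →
        Relation.ReflTransGen (fun x y => ((x, y) ∈ M ∨ (y, x) ∈ M) ∧ w x y ≤ b) u v) ∧
      (∀ l : List ℕ, l.IsChain (fun a b => 0 < w a b) → (∀ v ∈ V, v ∈ l) →
        ∑ e ∈ M, w e.1 e.2 ≤ ((l.zip l.tail).map (fun e => w e.1 e.2)).sum) := by
  classical
  set S : Finset (Finset (ℕ × ℕ)) := (V ×ˢ V).powerset.filter (fun M =>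
    (∀ e ∈ M, 0 < w e.1 e.2) ∧ ∀ u ∈ V, ∀ v ∈ V, Relation.ReflTransGen (MAdj M) u v) with hS
  have hmemS : ∀ M : Finset (ℕ × ℕ), (∀ e ∈ M, 0 < w e.1 e.2) →
      (∀ u ∈ V, ∀ v ∈ V, Relation.ReflTransGen (MAdj M) u v) → M ∈ S := by
    intro M h1 h2
    rw [hS, Finset.mem_filter, Finset.mem_powerset]
    refine ⟨?_, h1, h2⟩
    intro e he
    rw [Finset.mem_product]
    exact hG.supp _ _ (h1 e he)
  have hne : S.Nonempty := by
    refine ⟨(V ×ˢ V).filter (fun e => 0 < w e.1 e.2), hmemS _ ?_ ?_⟩
    · intro e he
      exact (Finset.mem_filter.1 he).2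
    · intro u hu v hv
      refine Relation.ReflTransGen.mono ?_ _ _ (hconn u hu v hv)
      intro x y hxy
      refine Or.inl (Finset.mem_filter.2 ⟨Finset.mem_product.2 (hG.supp _ _ hxy), hxy⟩)
  obtain ⟨M, hM, hmin⟩ := Finset.exists_min_image S (fun M => ∑ e ∈ M, w e.1 e.2) hne
  obtain ⟨_, hpos, hMconn⟩ := Finset.mem_filter.1 hM
  refine ⟨M, hpos, ?_, ?_⟩
  · intro b u v huv
    by_contra hnot
    set Rb : ℕ → ℕ → Prop := fun x y => ((x, y) ∈ M ∨ (y, x) ∈ M) ∧ w x y ≤ b with hRb
    have hRbsymm : ∀ x y, Rb x y → Rb y x := by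
      intro x y h
      refine ⟨h.1.symm, ?_⟩
      rw [hG.symm]
      exact h.2
    set A : Set ℕ := {x | Relation.ReflTransGen Rb u x} with hA
    have huA : u ∈ A := Relation.ReflTransGen.refl
    have hvA : v ∉ A := hnot
    have huV := (hG.supp _ _ huv.1).1
    have hvV := (hG.supp _ _ huv.1).2
    rcases last_exit A hvA (hMconn u huV v hvV) with ⟨h, _⟩ | ⟨x, y, hx, hy, hxy, hyv⟩
    · exact h huA
    have hwxy : b < w x y := by
      by_contra hle
      rw [not_lt] at hle
      exact hy (Relation.ReflTransGen.tail hx ⟨hxy, hle⟩)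
    -- the new edge set
    set M' : Finset (ℕ × ℕ) := insert (u, v) ((M.erase (x, y)).erase (y, x)) with hM'
    have hsub : ∀ e ∈ M, e ≠ (x, y) → e ≠ (y, x) → e ∈ M' := by
      intro e he h1 h2
      rw [hM']
      exact Finset.mem_insert_of_mem (Finset.mem_erase.2 ⟨h2, Finset.mem_erase.2 ⟨h1, he⟩⟩)
    have hadj : ∀ p q, MAdj M p q → ¬ (p = x ∧ q = y) → ¬ (p = y ∧ q = x) → MAdj M' p q := by
      intro p q h h1 h2
      rcases h with h | h
      · refine Or.inl (hsub _ h ?_ ?_)
        · intro hh
          rw [Prod.mk.injEq] at hh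
          exact h1 hh
        · intro hh
          rw [Prod.mk.injEq] at hh
          exact h2 hh
      · refine Or.inr (hsub _ h ?_ ?_)
        · intro hh
          rw [Prod.mk.injEq] at hh
          exact h2 ⟨hh.2, hh.1⟩
        · intro hh
          rw [Prod.mk.injEq] at hh
          exact h1 ⟨hh.2, hh.1⟩
    have hux : Relation.ReflTransGen (MAdj M') u x := by
      refine Relation.ReflTransGen.mono ?_ _ _ hx
      intro p q hpq
      refine hadj p q hpq.1 ?_ ?_
      · rintro ⟨rfl, rfl⟩
        exact absurd hpq.2 (not_le.2 hwxy)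
      · rintro ⟨rfl, rfl⟩
        have := hpq.2
        rw [hG.symm] at this
        exact absurd this (not_le.2 hwxy)
    have hyv' : Relation.ReflTransGen (MAdj M') y v := by
      refine Relation.ReflTransGen.mono ?_ _ _ hyv
      rintro p q ⟨hpq, hp, hq⟩
      refine hadj p q hpq ?_ ?_
      · rintro ⟨rfl, rfl⟩
        exact hp hx
      · rintro ⟨rfl, rfl⟩
        exact hq hx
    have huv' : MAdj M' u v := Or.inl (Finset.mem_insert_self _ _)
    have hxy' : Relation.ReflTransGen (MAdj M') x y :=
      ((rtg_symm (fun _ _ h => MAdj.symm h) hux).tail huv').trans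
        (rtg_symm (fun _ _ h => MAdj.symm h) hyv')
    have hM'S : M' ∈ S := by
      refine hmemS M' ?_ ?_
      · intro e he
        rcases Finset.mem_insert.1 he with rfl | he
        · exact huv.1
        · exact hpos e (Finset.mem_of_mem_erase (Finset.mem_of_mem_erase he))
      · intro p hp q hq
        have h := hMconn p hp q hq
        induction h with
        | refl => exact Relation.ReflTransGen.refl
        | @tail c d _ hcd ih =>
          have hc : c ∈ V := by
            rcases hcd with h | h
            · exact (hG.supp _ _ (hpos _ h)).1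
            · exact (hG.supp _ _ (hpos _ h)).2
          refine (ih hc).trans ?_
          by_cases h1 : c = x ∧ d = y
          · rw [h1.1, h1.2]
            exact hxy'
          by_cases h2 : c = y ∧ d = x
          · rw [h2.1, h2.2]
            exact rtg_symm (fun _ _ h => MAdj.symm h) hxy'
          exact Relation.ReflTransGen.single (hadj c d hcd h1 h2)
    have hle := hmin M' hM'S
    have hnn : ∀ e ∈ M, 0 ≤ w e.1 e.2 := fun e _ => hG.nonneg _ _
    have h1 : ∑ e ∈ M', w e.1 e.2 ≤ w u v + ∑ e ∈ (M.erase (x, y)).erase (y, x), w e.1 e.2 := by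
      rw [hM']
      by_cases hmem : (u, v) ∈ (M.erase (x, y)).erase (y, x)
      · rw [Finset.insert_eq_of_mem hmem]
        have := hG.nonneg u v
        linarith
      · rw [Finset.sum_insert hmem]
    have h2 : ∑ e ∈ (M.erase (x, y)).erase (y, x), w e.1 e.2 + w x y ≤ ∑ e ∈ M, w e.1 e.2 := by
      rcases hxy with h | h
      · have h3 : ∑ e ∈ (M.erase (x, y)).erase (y, x), w e.1 e.2 ≤
            ∑ e ∈ M.erase (x, y), w e.1 e.2 :=
          Finset.sum_le_sum_of_subset_of_nonneg (Finset.erase_subset _ _)
            (fun e _ _ => hG.nonneg _ _)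
        have h4 := Finset.sum_erase_add M (fun e : ℕ × ℕ => w e.1 e.2) h
        simp only at h4
        linarith
      · rw [Finset.erase_right_comm]
        have h3 : ∑ e ∈ (M.erase (y, x)).erase (x, y), w e.1 e.2 ≤
            ∑ e ∈ M.erase (y, x), w e.1 e.2 :=
          Finset.sum_le_sum_of_subset_of_nonneg (Finset.erase_subset _ _)
            (fun e _ _ => hG.nonneg _ _)
        have h4 := Finset.sum_erase_add M (fun e : ℕ × ℕ => w e.1 e.2) h
        simp only at h4
        have h5 := hG.symm x y
        linarith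
    have h3 := huv.2
    linarith
  · intro l hl hcov
    have hmem : (l.zip l.tail).toFinset ∈ S := by
      refine hmemS _ ?_ ?_
      · intro e he
        exact zip_pos l hl e (List.mem_toFinset.1 he)
      · intro u hu v hv
        exact zip_connected l u (hcov u hu) v (hcov v hv)
    refine (hmin _ hmem).trans ?_
    exact toFinset_sum_le (fun e : ℕ × ℕ => w e.1 e.2) _
      (fun e _ => hG.nonneg _ _)

end Pool.Agent.Lib.MP_ed4bd1_lc
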