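import Pool.Agent.Lib.MP_ed4bd1_lc.TDefs

set_option autoImplicit false

/-! # MP_ed4bd1_lc, module N4: the final summation -/

namespace Pool.Agent.Lib.MP_ed4bd1_lc

private lemma geom_sum_rr (J : Finset ℤ) : ∀ m, (∀ j ∈ J, j ≤ m) → ∑ j ∈ J, rr j ≤ 2 * rr m := by
  induction J using Finset.induction_on_max with
  | empty =>
    intro m _
    have := rr_pos m
    simp only [Finset.sum_empty]
    linarith
  | insert a s hs ih =>
    intro m hm
    rw [Finset.sum_insert (fun h => lt_irrefl _ (hs a h))]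
    have h1 := ih (a - 1) (fun j hj => by have := hs j hj; omega)
    rw [rr_pred] at h1
    have h2 := rr_mono (hm a (Finset.mem_insert_self _ _))
    have h3 := rr_pos a
    linarith

private lemma sum_subset_le {N : ℤ → ℝ} (hN : ∀ j, 0 ≤ N j) {Y : ℝ}
    (hY : ∀ lo hi, ∑ j ∈ Finset.Ico lo hi, rr j * N j ≤ Y) (J : Finset ℤ) :
    ∑ j ∈ J, rr j * N j ≤ Y := by
  obtain ⟨lo, hlo⟩ := J.bddBelow
  obtain ⟨hi, hhi⟩ := J.bddAbove
  refine le_trans ?_ (hY lo (hi + 1))
  refine Finset.sum_le_sum_of_subset_of_nonneg ?_ ?_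
  · intro j hj
    rw [Finset.mem_Ico]
    have h1 := hlo (Finset.mem_coe.2 hj)
    have h2 := hhi (Finset.mem_coe.2 hj)
    omega
  · intro j _ _
    exact mul_nonneg (rr_pos j).le (hN j)

open Classical in
theorem sum_bound (n : ℕ) (κ : ℕ → ℤ) (jump : ℕ → Prop) (jl : ℕ → ℤ) (cost : ℕ → ℝ)
    (N : ℤ → ℝ) (hN : ∀ j, 0 ≤ N j) {A X Y : ℝ} (hA : 0 ≤ A) (hX0 : 0 ≤ X) (hY0 : 0 ≤ Y)
    (h1 : ∀ t, t < n → ¬ jump t → cost t ≤ 4 * rr (κ t + 1))
    (h2 : ∀ t, t < n → jump t → cost t ≤ 4 * rr (jl t + 1))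
    (hκ : ∀ k, (((Finset.range n).filter (fun t => κ t = k)).card : ℝ) ≤ N k)
    (hj : ∀ j, (((Finset.range n).filter (fun t => jump t ∧ jl t = j)).card : ℝ) ≤
      A * (1 + N j + ((Finset.range n).filter (fun t => j ≤ κ t)).card))
    (hX : ∀ t, t < n → jump t → rr (jl t) ≤ X)
    (hY : ∀ lo hi, ∑ j ∈ Finset.Ico lo hi, rr j * N j ≤ Y) :
    ∑ t ∈ Finset.range n, cost t ≤ 4 * 10000000 * (Y + A * (2 * X + 3 * Y)) := by
  -- first sum
  have hS1 : ∑ t ∈ Finset.range n, rr (κ t) ≤ Y := by
    rw [Finset.sum_comp rr κ]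
    refine le_trans ?_ (sum_subset_le hN hY ((Finset.range n).image κ))
    refine Finset.sum_le_sum ?_
    intro k _
    rw [nsmul_eq_mul, mul_comm]
    exact mul_le_mul_of_nonneg_left (hκ k) (rr_pos k).le
  -- the third sum: swap
  have hS3 : ∀ J : Finset ℤ, ∑ j ∈ J, rr j *
      (((Finset.range n).filter (fun t => j ≤ κ t)).card : ℝ) ≤ 2 * Y := by
    intro J
    have e1 : ∑ j ∈ J, rr j * (((Finset.range n).filter (fun t => j ≤ κ t)).card : ℝ) =
        ∑ t ∈ Finset.range n, ∑ j ∈ J.filter (fun j => j ≤ κ t), rr j := by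
      have e2 : ∀ j ∈ J, rr j * (((Finset.range n).filter (fun t => j ≤ κ t)).card : ℝ) =
          ∑ t ∈ Finset.range n, if j ≤ κ t then rr j else 0 := by
        intro j _
        rw [← Finset.sum_filter, Finset.sum_const, nsmul_eq_mul, mul_comm]
      rw [Finset.sum_congr rfl e2, Finset.sum_comm]
      refine Finset.sum_congr rfl ?_
      intro t _
      rw [Finset.sum_filter]
    rw [e1]
    calc ∑ t ∈ Finset.range n, ∑ j ∈ J.filter (fun j => j ≤ κ t), rr j
        ≤ ∑ t ∈ Finset.range n, 2 * rr (κ t) := by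
          refine Finset.sum_le_sum ?_
          intro t _
          refine geom_sum_rr _ _ ?_
          intro j hj'
          exact (Finset.mem_filter.1 hj').2
      _ = 2 * ∑ t ∈ Finset.range n, rr (κ t) := by rw [Finset.mul_sum]
      _ ≤ 2 * Y := by linarith
  -- second sum
  set J : Finset ℤ := ((Finset.range n).filter jump).image jl with hJ
  have hgeo : ∑ j ∈ J, rr j ≤ 2 * X := by
    by_cases hne : J.Nonempty
    · obtain ⟨m, hm, hmax⟩ := Finset.exists_max_image J id hne
      refine (geom_sum_rr J m hmax).trans ?_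
      obtain ⟨t, ht, rfl⟩ := Finset.mem_image.1 hm
      obtain ⟨ht1, ht2⟩ := Finset.mem_filter.1 ht
      have := hX t (Finset.mem_range.1 ht1) ht2
      linarith
    · rw [Finset.not_nonempty_iff_eq_empty.1 hne, Finset.sum_empty]
      linarith
  have hS2 : ∑ t ∈ (Finset.range n).filter jump, rr (jl t) ≤ A * (2 * X + 3 * Y) := by
    rw [Finset.sum_comp rr jl]
    calc ∑ b ∈ ((Finset.range n).filter jump).image jl,
          (((Finset.range n).filter jump).filter (fun a => jl a = b)).card • rr b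
        ≤ ∑ j ∈ J, A * (rr j + rr j * N j + rr j *
            (((Finset.range n).filter (fun t => j ≤ κ t)).card : ℝ)) := by
          refine Finset.sum_le_sum ?_
          intro j _
          rw [nsmul_eq_mul, Finset.filter_filter]
          have h3 := mul_le_mul_of_nonneg_right (hj j) (rr_pos j).le
          refine h3.trans (le_of_eq ?_)
          ring
      _ = A * (∑ j ∈ J, rr j + ∑ j ∈ J, rr j * N j + ∑ j ∈ J, rr j *
            (((Finset.range n).filter (fun t => j ≤ κ t)).card : ℝ)) := by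
          rw [← Finset.mul_sum, Finset.sum_add_distrib, Finset.sum_add_distrib]
      _ ≤ A * (2 * X + 3 * Y) := by
          refine mul_le_mul_of_nonneg_left ?_ hA
          have h4 := sum_subset_le hN hY J
          have h5 := hS3 J
          linarith
  have hcost : ∀ t ∈ Finset.range n, cost t ≤ 4 * 10000000 * rr (κ t) +
      (if jump t then 4 * 10000000 * rr (jl t) else 0) := by
    intro t ht
    rw [Finset.mem_range] at ht
    have h3 := rr_pos (κ t)
    have h4 := rr_pos (jl t)
    by_cases hjt : jump t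
    · rw [if_pos hjt]
      have := h2 t ht hjt
      rw [rr_succ] at this
      linarith
    · rw [if_neg hjt]
      have := h1 t ht hjt
      rw [rr_succ] at this
      linarith
  refine (Finset.sum_le_sum hcost).trans ?_
  rw [Finset.sum_add_distrib, ← Finset.sum_filter, ← Finset.mul_sum, ← Finset.mul_sum]
  linarith

end Pool.Agent.Lib.MP_ed4bd1_lc
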