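import Pool.Agent.Lib.MP_ed4bd1_lc.TDefs

set_option autoImplicit false

namespace Pool.Agent.Lib.MP_ed4bd1_lc

/-- the statement of `T1` (packing lemma) -/
def T1Prop : Prop :=
  ∀ {w : ℕ → ℕ → ℝ} {V : Finset ℕ} {r B : ℝ} (_hG : Gr w V) (_hr : 0 < r)
    (_hB : 10 ^ 7 ≤ B) {T : Finset ℕ} {F : Finset (ℕ × ℕ × ℝ)}
    (_hS : Skel w V (r / (10000 * B)) (7 * r / B) T F)
    (M : Finset (ℕ × ℕ)) (_hM : ∀ e ∈ M, Edge w (r / 10000) e.1 e.2)
    (_hM2 : ∀ u v, Edge w (r / 10000) u v →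
      Relation.ReflTransGen (fun x y => Edge w (r / (10000 * B)) x y ∨ (x, y) ∈ M ∨ (y, x) ∈ M) u v)
    (Z : Finset ℕ) (_hZV : Z ⊆ V)
    (_hsep : ∀ z ∈ Z, ∀ z' ∈ Z, z ≠ z' → ¬ Con w (r / (10000 * B)) (9 / 10 * r) z z')
    (_hbad : ∀ z ∈ Z, ¬ GZ w (r / (10000 * B)) (r / 10000) r (5 * B * r) z),
    ∃ T' F', Skel w V (r / 10000) (7 * r) T' F' ∧
      wt F' + r / (10 ^ 6 * B) * (Z.card : ℝ) ≤ wt F + 2 * r * (M.card : ℝ)

namespace SumN

theorem exists_low {w : ℕ → ℕ → ℝ} {V : Finset ℕ} (hG : Gr w V) (lo : ℤ) :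
    ∃ j0 : ℤ, j0 < lo ∧ ∀ u v, 0 < w u v → j0 < cls (w u v) := by
  classical
  obtain ⟨c, hc⟩ := ((V ×ˢ V).image (fun e => cls (w e.1 e.2))).bddBelow
  refine ⟨min (c - 1) (lo - 1), by omega, ?_⟩
  intro u v huv
  have h1 := hG.supp u v huv
  have h2 : c ≤ cls (w u v) := hc (by
    rw [Finset.mem_coe, Finset.mem_image]
    exact ⟨(u, v), Finset.mem_product.2 ⟨h1.1, h1.2⟩, rfl⟩)
  omega

theorem wp_eq {w : ℕ → ℕ → ℝ} {b : ℝ} (hno : ∀ u v, ¬ Edge w b u v) {L : ℝ} {u v : ℕ}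
    (h : WP w (Edge w b) L u v) : u = v := by
  cases h with
  | nil => rfl
  | cons h1 _ => exact absurd h1 (hno _ _)

theorem base {w : ℕ → ℕ → ℝ} {V : Finset ℕ} (j0 : ℤ)
    (h0 : ∀ u v, 0 < w u v → j0 < cls (w u v)) : Skel w V (bb j0) (7 * rr j0) V ∅ := by
  have hno : ∀ u v, ¬ Edge w (bb j0) u v := by
    intro u v h
    have h1 := (le_bb_iff h.1 _).1 h.2
    have h2 := h0 u v h.1
    omega
  refine ⟨le_rfl, by simp, by simp, ?_, ?_⟩
  · intro u _ v _ L hL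
    obtain ⟨L', _, hL'⟩ := hL
    rw [wp_eq hno hL']
    exact Relation.ReflTransGen.refl
  · intro v hv
    exact ⟨v, hv, Con.refl (by have := rr_pos j0; positivity) v⟩

theorem rr_cls_le {x : ℝ} (hx : 0 < x) : rr (cls x) ≤ 10 ^ 11 * x := by
  have h1 := bb_cls_pred_lt hx
  rw [bb_pred] at h1
  unfold bb at h1
  linarith

open Classical in
theorem step (hT1 : T1Prop) {w : ℕ → ℕ → ℝ} {V : Finset ℕ} (hG : Gr w V) (M : Finset (ℕ × ℕ))
    (hM1 : ∀ e ∈ M, 0 < w e.1 e.2)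
    (hM2 : ∀ b u v, Edge w b u v →
        Relation.ReflTransGen (fun x y => ((x, y) ∈ M ∨ (y, x) ∈ M) ∧ w x y ≤ b) u v)
    (Cs : ℤ → Finset ℕ) (hCs : ∀ j, Cs j ⊆ V)
    (hsep : ∀ j, ∀ z ∈ Cs j, ∀ z' ∈ Cs j, z ≠ z' → ¬ Con w (bb (j - 1)) (99 / 100 * rr j) z z')
    (j : ℤ) {T : Finset ℕ} {F : Finset (ℕ × ℕ × ℝ)} (hS : Skel w V (bb (j - 1)) (7 * rr (j - 1)) T F) :
    ∃ T' F', Skel w V (bb j) (7 * rr j) T' F' ∧
      wt F' + rr j / 10 ^ 13 * (((Cs j).filter (BadZ w j)).card : ℝ) ≤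
        wt F + 2 * rr j * ((M.filter (fun e => cls (w e.1 e.2) = j)).card : ℝ) := by
  have hr := rr_pos j
  have e1 : rr j / (10000 * (10 ^ 7 : ℝ)) = bb (j - 1) := by
    rw [bb_pred, bb]; ring
  have e2 : 7 * rr j / (10 ^ 7 : ℝ) = 7 * rr (j - 1) := by
    rw [rr_pred]; ring
  have e3 : rr j / 10000 = bb j := rfl
  have key := @hT1 w V (rr j) (10 ^ 7) hG hr le_rfl T F
  rw [e1, e2, e3] at key
  obtain ⟨T', F', hS', hw⟩ := key hS (M.filter (fun e => cls (w e.1 e.2) = j))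
    (by
      intro e he
      rw [Finset.mem_filter] at he
      exact ⟨hM1 e he.1, (le_bb_iff (hM1 e he.1) _).2 he.2.le⟩)
    (by
      intro u v huv
      refine Relation.ReflTransGen.mono ?_ _ _ (hM2 _ u v huv)
      intro x y hxy
      have hpos : 0 < w x y := by
        rcases hxy.1 with h | h
        · exact hM1 _ h
        · rw [hG.symm]; exact hM1 _ h
      have hle := (le_bb_iff hpos _).1 hxy.2
      by_cases hj : cls (w x y) = j
      · right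
        rcases hxy.1 with h | h
        · left; rw [Finset.mem_filter]; exact ⟨h, hj⟩
        · right; rw [Finset.mem_filter]; exact ⟨h, by rw [hG.symm]; exact hj⟩
      · left
        exact ⟨hpos, (le_bb_iff hpos _).2 (by omega)⟩)
    ((Cs j).filter (BadZ w j)) ((Finset.filter_subset _ _).trans (hCs j))
    (by
      intro z hz z' hz' hne hcon
      rw [Finset.mem_filter] at hz hz'
      exact hsep j z hz.1 z' hz'.1 hne (hcon.mono (by linarith)))
    (by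
      intro z hz
      rw [Finset.mem_filter] at hz
      have h5 : (5 * 10 ^ 7 * rr j : ℝ) = 5 * 10000000 * rr j := by norm_num
      rw [h5]
      exact hz.2)
  refine ⟨T', F', hS', ?_⟩
  have e4 : rr j / (10 ^ 6 * 10 ^ 7 : ℝ) = rr j / 10 ^ 13 := by norm_num
  rw [e4] at hw
  exact hw

end SumN

open Classical in
theorem sumN_of_T1 (hT1 : T1Prop) {w : ℕ → ℕ → ℝ} {V : Finset ℕ} (hG : Gr w V)
    (M : Finset (ℕ × ℕ))
    (hM1 : ∀ e ∈ M, 0 < w e.1 e.2)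
    (hM2 : ∀ b u v, Edge w b u v →
        Relation.ReflTransGen (fun x y => ((x, y) ∈ M ∨ (y, x) ∈ M) ∧ w x y ≤ b) u v)
    (Cs : ℤ → Finset ℕ) (hCs : ∀ j, Cs j ⊆ V)
    (hsep : ∀ j, ∀ z ∈ Cs j, ∀ z' ∈ Cs j, z ≠ z' → ¬ Con w (bb (j - 1)) (99 / 100 * rr j) z z')
    (lo hi : ℤ) :
    ∑ j ∈ Finset.Ico lo hi, rr j * (((Cs j).filter (BadZ w j)).card : ℝ) ≤
      2 * 10 ^ 24 * ∑ e ∈ M, w e.1 e.2 := by
  obtain ⟨j0, hj0, hlow⟩ := SumN.exists_low hG lo
  -- skeletons at all levels above j0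
  have hind : ∀ n : ℕ, ∃ T F, Skel w V (bb (j0 + n)) (7 * rr (j0 + n)) T F ∧
      wt F + ∑ k ∈ Finset.range n, rr (j0 + 1 + k) / 10 ^ 13 *
        (((Cs (j0 + 1 + k)).filter (BadZ w (j0 + 1 + k))).card : ℝ) ≤
      ∑ k ∈ Finset.range n, 2 * rr (j0 + 1 + k) *
        ((M.filter (fun e => cls (w e.1 e.2) = j0 + 1 + k)).card : ℝ) := by
    intro n
    induction n with
    | zero =>
      refine ⟨V, ∅, ?_, ?_⟩
      · simpa using SumN.base (V := V) j0 hlow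
      · simp [wt]
    | succ n ih =>
      obtain ⟨T, F, hS, hw⟩ := ih
      have hS2 : Skel w V (bb (j0 + 1 + n - 1)) (7 * rr (j0 + 1 + n - 1)) T F := by
        have : j0 + 1 + (n : ℤ) - 1 = j0 + n := by ring
        rw [this]; exact hS
      obtain ⟨T', F', hS', hw'⟩ := SumN.step hT1 hG M hM1 hM2 Cs hCs hsep (j0 + 1 + n) hS2
      refine ⟨T', F', ?_, ?_⟩
      · have : j0 + ((n + 1 : ℕ) : ℤ) = j0 + 1 + n := by push_cast; ring
        rw [this]; exact hS'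
      · rw [Finset.sum_range_succ, Finset.sum_range_succ]
        linarith
  -- reduce to a range starting at j0+1
  have hwM : 0 ≤ ∑ e ∈ M, w e.1 e.2 := Finset.sum_nonneg fun e he => (hM1 e he).le
  obtain ⟨T, F, hS, hw⟩ := hind (hi - (j0 + 1)).toNat
  have hwF : 0 ≤ wt F := Finset.sum_nonneg fun e he => (hS.val e he).1
  set n := (hi - (j0 + 1)).toNat with hn
  have hreidx : ∀ f : ℤ → ℝ, (∀ j, 0 ≤ f j) →
      ∑ j ∈ Finset.Ico lo hi, f j ≤ ∑ k ∈ Finset.range n, f (j0 + 1 + k) := by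
    intro f hf
    have h1 : ∑ k ∈ Finset.range n, f (j0 + 1 + k) =
        ∑ j ∈ (Finset.range n).image (fun k : ℕ => j0 + 1 + (k : ℤ)), f j := by
      rw [Finset.sum_image]
      intro a _ c _ hac
      simp only at hac
      omega
    rw [h1]
    refine Finset.sum_le_sum_of_subset_of_nonneg ?_ (fun j _ _ => hf j)
    intro j hj
    rw [Finset.mem_Ico] at hj
    rw [Finset.mem_image]
    refine ⟨(j - (j0 + 1)).toNat, ?_, ?_⟩
    · rw [Finset.mem_range]; omega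
    · omega
  have h1 := hreidx (fun j => rr j / 10 ^ 13 * (((Cs j).filter (BadZ w j)).card : ℝ))
    (fun j => by have := rr_pos j; positivity)
  have h2 : ∑ k ∈ Finset.range n, 2 * rr (j0 + 1 + k) *
        ((M.filter (fun e => cls (w e.1 e.2) = j0 + 1 + k)).card : ℝ) ≤
      2 * 10 ^ 11 * ∑ e ∈ M, w e.1 e.2 := by
    have h3 : ∀ k ∈ Finset.range n, 2 * rr (j0 + 1 + k) *
        ((M.filter (fun e => cls (w e.1 e.2) = j0 + 1 + k)).card : ℝ) ≤
        ∑ e ∈ M.filter (fun e => cls (w e.1 e.2) = j0 + 1 + k), 2 * 10 ^ 11 * w e.1 e.2 := by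
      intro k _
      rw [mul_comm, ← nsmul_eq_mul, ← Finset.sum_const]
      refine Finset.sum_le_sum ?_
      intro e he
      rw [Finset.mem_filter] at he
      have := SumN.rr_cls_le (hM1 e he.1)
      rw [he.2] at this
      linarith
    refine (Finset.sum_le_sum h3).trans ?_
    have h4 : ∑ k ∈ Finset.range n, ∑ e ∈ M.filter (fun e => cls (w e.1 e.2) = j0 + 1 + k),
        2 * 10 ^ 11 * w e.1 e.2 =
        ∑ j ∈ (Finset.range n).image (fun k : ℕ => j0 + 1 + (k : ℤ)),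
          ∑ e ∈ M.filter (fun e => cls (w e.1 e.2) = j), 2 * 10 ^ 11 * w e.1 e.2 := by
      rw [Finset.sum_image]
      intro a _ c _ hac
      simp only at hac
      omega
    rw [h4, Finset.sum_fiberwise_eq_sum_filter, Finset.mul_sum]
    refine Finset.sum_le_sum_of_subset_of_nonneg (Finset.filter_subset _ _) ?_
    intro e he _
    have := hM1 e he
    positivity
  have h5 : ∑ j ∈ Finset.Ico lo hi, rr j * (((Cs j).filter (BadZ w j)).card : ℝ) =
      10 ^ 13 * ∑ j ∈ Finset.Ico lo hi, rr j / 10 ^ 13 *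
        (((Cs j).filter (BadZ w j)).card : ℝ) := by
    rw [Finset.mul_sum]
    refine Finset.sum_congr rfl ?_
    intro j _
    ring
  rw [h5]
  have h6 : (10 : ℝ) ^ 24 = 10 ^ 13 * 10 ^ 11 := by norm_num
  nlinarith [h1, h2, hw, hwF]

end Pool.Agent.Lib.MP_ed4bd1_lc
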