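import Pool.Agent.Lib.MP_ed4bd1_lc.Defs

set_option autoImplicit false

/-!
# MP_ed4bd1_lc, module M9: the base graph (trimmed tree and links for the new edges)
-/

namespace Pool.Agent.Lib.MP_ed4bd1_lc

theorem baseG_adj_symm {F : Finset (ℕ × ℕ × ℝ)} {a b : ℕ} (h : Adj F a b) : Adj F b a := by
  obtain ⟨L, h⟩ := h
  exact ⟨L, h.symm⟩

theorem baseG_link_symm {F : Finset (ℕ × ℕ × ℝ)} {a b : ℕ} (h : Link F a b) : Link F b a := by
  unfold Link at *
  induction h with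
  | refl => exact Relation.ReflTransGen.refl
  | tail _ h1 ih => exact Relation.ReflTransGen.head (baseG_adj_symm h1) ih

theorem baseG_link_parent {w : ℕ → ℕ → ℝ} {V : Finset ℕ} {b ts ℓ : ℝ} {T : Finset ℕ}
    {π : ℕ → ℕ} {len : ℕ → ℝ} {h : ℕ → ℕ} (hR : RF w V b ts ℓ T π len h) (a : ℕ → ℕ)
    (M : Finset (ℕ × ℕ)) (lam : ℝ) {x : ℕ} (hx : x ∈ T) (n : ℕ) :
    π^[n] x ∈ T ∧ Link (baseF T π len a M lam) x (π^[n] x) := by
  classical
  induction n with
  | zero => exact ⟨hx, Relation.ReflTransGen.refl⟩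
  | succ n ih =>
    rw [Function.iterate_succ_apply']
    refine ⟨hR.mem _ ih.1, ?_⟩
    by_cases hp : π (π^[n] x) = π^[n] x
    · rw [hp]
      exact ih.2
    · refine Relation.ReflTransGen.tail ih.2 ⟨len (π^[n] x), Or.inl ?_⟩
      refine Finset.mem_union_left _ (Finset.mem_image.2 ⟨π^[n] x, ?_, rfl⟩)
      exact Finset.mem_filter.2 ⟨ih.1, hp⟩

theorem baseG_link_b {w : ℕ → ℕ → ℝ} {V : Finset ℕ} {b ts ℓ : ℝ} {T : Finset ℕ}
    {π : ℕ → ℕ} {len : ℕ → ℝ} {h : ℕ → ℕ} (hR : RF w V b ts ℓ T π len h) (a : ℕ → ℕ)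
    (M : Finset (ℕ × ℕ)) (lam : ℝ) {x y : ℕ} (hx : x ∈ T) (hy : y ∈ T) {L : ℝ}
    (hc : Con w b L x y) : Link (baseF T π len a M lam) x y := by
  have h1 := (baseG_link_parent hR a M lam hx (h x)).2
  have h2 := (baseG_link_parent hR a M lam hy (h y)).2
  rw [hR.conn x hx y hy L hc] at h1
  exact Relation.ReflTransGen.trans h1 (baseG_link_symm h2)

theorem baseG_con {w : ℕ → ℕ → ℝ} {V : Finset ℕ} {b c ts : ℝ} (hG : Gr w V)
    {T : Finset ℕ} (a : ℕ → ℕ) (hbc : b ≤ c)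
    (ha : ∀ v ∈ V, a v ∈ T ∧ Con w b ts v (a v)) {x y : ℕ} (hE : Edge w c x y) :
    Con w c (c + 2 * ts) (a x) (a y) := by
  have hV := hG.supp _ _ hE.1
  have h1 : Con w c ts (a x) x := (Con.symm hG.symm (ha x hV.1).2).monob hbc
  have h2 : Con w c c x y := (Con.single hE).mono hE.2
  have h3 : Con w c ts y (a y) := (ha y hV.2).2.monob hbc
  exact ((h1.trans h2).trans h3).mono (by linarith)

theorem baseG_link_gen {w : ℕ → ℕ → ℝ} {V : Finset ℕ} {b ts ℓ : ℝ} {T : Finset ℕ}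
    {π : ℕ → ℕ} {len : ℕ → ℝ} {h : ℕ → ℕ} (hG : Gr w V)
    (hR : RF w V b ts ℓ T π len h)
    (a : ℕ → ℕ) (ha : ∀ v ∈ V, a v ∈ T ∧ Con w b ts v (a v))
    (M : Finset (ℕ × ℕ)) (lam : ℝ) {u v : ℕ}
    (hg : Relation.ReflTransGen (fun x y => Edge w b x y ∨ (x, y) ∈ M ∨ (y, x) ∈ M) u v) :
    Link (baseF T π len a M lam) (a u) (a v) := by
  classical
  induction hg with
  | refl => exact Relation.ReflTransGen.refl
  | @tail x y _ h1 ih =>
    refine Relation.ReflTransGen.trans ih ?_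
    rcases h1 with h1 | h1 | h1
    · have hV := hG.supp _ _ h1.1
      exact baseG_link_b hR a M lam (ha x hV.1).1 (ha y hV.2).1 (baseG_con hG a le_rfl ha h1)
    · refine Relation.ReflTransGen.single ⟨lam, Or.inl ?_⟩
      exact Finset.mem_union_right _ (Finset.mem_image.2 ⟨(x, y), h1, rfl⟩)
    · refine Relation.ReflTransGen.single ⟨lam, Or.inr ?_⟩
      exact Finset.mem_union_right _ (Finset.mem_image.2 ⟨(y, x), h1, rfl⟩)

theorem base_graph {w : ℕ → ℕ → ℝ} {V : Finset ℕ} {b b' ts ℓ : ℝ} {T : Finset ℕ} {π : ℕ → ℕ}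
    {len : ℕ → ℝ} {h : ℕ → ℕ} (hG : Gr w V) (hb : 0 ≤ b) (hbb : b ≤ b') (hts : 0 ≤ ts)
    (hR : RF w V b ts ℓ T π len h)
    (a : ℕ → ℕ) (ha : ∀ v ∈ V, a v ∈ T ∧ Con w b ts v (a v))
    (M : Finset (ℕ × ℕ)) (hM : ∀ e ∈ M, Edge w b' e.1 e.2)
    (hM2 : ∀ u v, Edge w b' u v →
      Relation.ReflTransGen (fun x y => Edge w b x y ∨ (x, y) ∈ M ∨ (y, x) ∈ M) u v) :
    (∀ e ∈ baseF T π len a M (b' + 2 * ts), e.1 ∈ T ∧ e.2.1 ∈ T) ∧
    (∀ e ∈ baseF T π len a M (b' + 2 * ts), 0 ≤ e.2.2 ∧ Con w b' e.2.2 e.1 e.2.1) ∧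
    (∀ u ∈ T, ∀ v ∈ T, ∀ L, Con w b' L u v → Link (baseF T π len a M (b' + 2 * ts)) u v) ∧
    wt (baseF T π len a M (b' + 2 * ts)) ≤ ∑ x ∈ T, len x + (b' + 2 * ts) * (M.card : ℝ) := by
  classical
  have hlam : 0 ≤ b' + 2 * ts := by linarith
  have hval : ∀ e ∈ baseF T π len a M (b' + 2 * ts), 0 ≤ e.2.2 ∧ Con w b' e.2.2 e.1 e.2.1 := by
    intro e he
    rcases Finset.mem_union.1 he with he | he
    · obtain ⟨x, hx, rfl⟩ := Finset.mem_image.1 he
      have hx := (Finset.mem_filter.1 hx).1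
      exact ⟨(hR.lenb x hx).1, (hR.lenb x hx).2.2.monob hbb⟩
    · obtain ⟨e, hx, rfl⟩ := Finset.mem_image.1 he
      exact ⟨hlam, baseG_con hG a hbb ha (hM e hx)⟩
  refine ⟨?_, hval, ?_, ?_⟩
  · intro e he
    rcases Finset.mem_union.1 he with he | he
    · obtain ⟨x, hx, rfl⟩ := Finset.mem_image.1 he
      have hx := (Finset.mem_filter.1 hx).1
      exact ⟨hx, hR.mem x hx⟩
    · obtain ⟨e, hx, rfl⟩ := Finset.mem_image.1 he
      have hV := hG.supp _ _ (hM e hx).1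
      exact ⟨(ha _ hV.1).1, (ha _ hV.2).1⟩
  · intro u hu v hv L hL
    have h1 : Link (baseF T π len a M (b' + 2 * ts)) (a u) (a v) := by
      obtain ⟨L', -, hW⟩ := hL
      clear hu hv
      induction hW with
      | nil u => exact Relation.ReflTransGen.refl
      | cons hE _ ih =>
        exact Relation.ReflTransGen.trans (baseG_link_gen hG hR a ha M _ (hM2 _ _ hE)) ih
    have h2 : ∀ x ∈ T, Link (baseF T π len a M (b' + 2 * ts)) x (a x) := by
      intro x hx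
      have hV := hR.sub hx
      exact baseG_link_b hR a M _ hx (ha x hV).1 (ha x hV).2
    exact ((h2 u hu).trans h1).trans (baseG_link_symm (h2 v hv))
  · have h1 := Finset.sum_union_inter
      (s₁ := (T.filter (fun x => π x ≠ x)).image (fun x => (x, π x, len x)))
      (s₂ := M.image (fun e => (a e.1, a e.2, b' + 2 * ts)))
      (f := fun e : ℕ × ℕ × ℝ => e.2.2)
    have h2 : 0 ≤ ∑ e ∈ (T.filter (fun x => π x ≠ x)).image (fun x => (x, π x, len x)) ∩
        M.image (fun e => (a e.1, a e.2, b' + 2 * ts)), e.2.2 := by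
      refine Finset.sum_nonneg fun e he => ?_
      exact (hval e (Finset.mem_union_left _ (Finset.mem_inter.1 he).1)).1
    have h3 : ∑ e ∈ (T.filter (fun x => π x ≠ x)).image (fun x => (x, π x, len x)), e.2.2 ≤
        ∑ x ∈ T, len x := by
      rw [Finset.sum_image (by
        intro x _ y _ hxy
        simp only [Prod.mk.injEq] at hxy
        exact hxy.1)]
      refine Finset.sum_le_sum_of_subset_of_nonneg (Finset.filter_subset _ _) fun x hx _ => ?_
      exact (hR.lenb x hx).1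
    have h4 : ∑ e ∈ M.image (fun e => (a e.1, a e.2, b' + 2 * ts)), e.2.2 ≤
        (b' + 2 * ts) * (M.card : ℝ) := by
      have h5 : ∑ e ∈ M.image (fun e => (a e.1, a e.2, b' + 2 * ts)), e.2.2 =
          ∑ e ∈ M.image (fun e => (a e.1, a e.2, b' + 2 * ts)), (b' + 2 * ts) := by
        refine Finset.sum_congr rfl fun e he => ?_
        obtain ⟨e', -, rfl⟩ := Finset.mem_image.1 he
        rfl
      rw [h5, Finset.sum_const, nsmul_eq_mul, mul_comm]
      refine mul_le_mul_of_nonneg_left ?_ hlam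
      exact_mod_cast Finset.card_image_le
    unfold wt baseF
    linarith

end Pool.Agent.Lib.MP_ed4bd1_lc
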