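import Pool.Agent.Lib.MP_ed4bd1_lc.Defs

set_option autoImplicit false

namespace Pool.Agent.Lib.MP_ed4bd1_lc

/-! ## M4: counting branchings (sum over `x ∈ T` of `#kids x` = number of non-roots) -/

theorem branch_sum_kids {w : ℕ → ℕ → ℝ} {V : Finset ℕ} {b t ℓ : ℝ} {T : Finset ℕ} {π : ℕ → ℕ}
    {len : ℕ → ℝ} {h : ℕ → ℕ} (hR : RF w V b t ℓ T π len h) :
    ∑ x ∈ T, (kids T π x).card = (T.filter (fun x => π x ≠ x)).card := by
  classical
  have h1 : T.filter (fun x => π x ≠ x) = T.biUnion (fun x => kids T π x) := by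
    ext y
    simp only [Finset.mem_filter, Finset.mem_biUnion, kids]
    constructor
    · rintro ⟨hy, hne⟩
      exact ⟨π y, hR.mem y hy, hy, rfl, fun h => hne h.symm⟩
    · rintro ⟨x, hx, hy, hyx, hne⟩
      refine ⟨hy, fun h => hne ?_⟩
      rw [← hyx, h]
  rw [h1, Finset.card_biUnion]
  intro x _ x' _ hne
  rw [Function.onFun, Finset.disjoint_left]
  intro y hy hy'
  simp only [kids, Finset.mem_filter] at hy hy'
  exact hne (hy.2.1.symm.trans hy'.2.1)

theorem branch_count {w : ℕ → ℕ → ℝ} {V : Finset ℕ} {b t ℓ : ℝ} {T : Finset ℕ} {π : ℕ → ℕ}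
    {len : ℕ → ℝ} {h : ℕ → ℕ} (hR : RF w V b t ℓ T π len h) :
    (T.filter (fun x => (π x = x ∧ (kids T π x).Nonempty) ∨ 2 ≤ (kids T π x).card)).card ≤
      (leaves T π).card := by
  classical
  have h1 := branch_sum_kids hR
  rw [Finset.card_filter] at h1
  rw [leaves, Finset.card_filter, Finset.card_filter]
  have h2 : ∑ x ∈ T, ((if (π x = x ∧ (kids T π x).Nonempty) ∨ 2 ≤ (kids T π x).card then 1 else 0)
      + (if π x ≠ x then 1 else 0)) ≤
      ∑ x ∈ T, ((if π x ≠ x ∧ kids T π x = ∅ then 1 else 0) + (kids T π x).card) := by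
    apply Finset.sum_le_sum
    intro x _
    by_cases hx : π x = x
    · by_cases hk : (kids T π x).Nonempty
      · have h3 : 1 ≤ (kids T π x).card := hk.card_pos
        simp only [hx, hk, ne_eq, not_true_eq_false, and_self, true_or, if_true, if_false,
          false_and]
        omega
      · rw [Finset.not_nonempty_iff_eq_empty] at hk
        simp [hx, hk]
    · by_cases hk : kids T π x = ∅
      · simp [hx, hk]
      · have h3 : 1 ≤ (kids T π x).card := (Finset.nonempty_iff_ne_empty.2 hk).card_pos
        by_cases h4 : 2 ≤ (kids T π x).card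
        · simp only [hx, hk, h4, ne_eq, not_false_eq_true, false_and, or_true, if_true, and_false,
            if_false]
          omega
        · simp only [hx, hk, h4, ne_eq, not_false_eq_true, false_and, or_false, if_true, and_false,
            if_false]
          omega
  rw [Finset.sum_add_distrib, Finset.sum_add_distrib, h1] at h2
  omega

end Pool.Agent.Lib.MP_ed4bd1_lc
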