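import Pool.Agent.Lib.MP_ed4bd1_lc.Defs

set_option autoImplicit false

/-!
# MP_ed4bd1_lc, module M5: chains of a rooted forest
-/

namespace Pool.Agent.Lib.MP_ed4bd1_lc

theorem Chains_iter_mem {w : ℕ → ℕ → ℝ} {V : Finset ℕ} {b t ℓ : ℝ} {T : Finset ℕ} {π : ℕ → ℕ}
    {len : ℕ → ℝ} {h : ℕ → ℕ} (hR : RF w V b t ℓ T π len h) {x : ℕ} (hx : x ∈ T) (n : ℕ) :
    π^[n] x ∈ T := by
  induction n with
  | zero => exact hx
  | succ n ih =>
    rw [Function.iterate_succ_apply']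
    exact hR.mem _ ih

theorem Chains_dep_step {w : ℕ → ℕ → ℝ} {V : Finset ℕ} {b t ℓ : ℝ} {T : Finset ℕ} {π : ℕ → ℕ}
    {len : ℕ → ℝ} {h : ℕ → ℕ} (hR : RF w V b t ℓ T π len h) {x : ℕ} (hx : x ∈ T) :
    dep π len h x - dep π len h (π x) = len x := by
  by_cases h1 : π x = x
  · rw [h1, hR.len0 x hx h1, sub_self]
  · unfold dep
    rw [hR.hop x hx h1, Finset.sum_range_succ']
    simp only [Function.iterate_succ_apply, Function.iterate_zero, id_eq]
    ring

/-- depth along a chain -/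
theorem dep_iter {w : ℕ → ℕ → ℝ} {V : Finset ℕ} {b t ℓ : ℝ} {T : Finset ℕ} {π : ℕ → ℕ}
    {len : ℕ → ℝ} {h : ℕ → ℕ} (hR : RF w V b t ℓ T π len h) {x : ℕ} (hx : x ∈ T) {m n : ℕ}
    (hmn : m ≤ n) :
    dep π len h (π^[m] x) - dep π len h (π^[n] x) = ∑ k ∈ Finset.Ico m n, len (π^[k] x) := by
  induction n, hmn using Nat.le_induction with
  | base => simp
  | succ n hmn ih =>
    rw [Finset.sum_Ico_succ_top hmn, ← ih, ← Chains_dep_step hR (Chains_iter_mem hR hx n),
      Function.iterate_succ_apply']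
    ring

/-- the root above `x` is a fixed point -/
theorem Chains_root {w : ℕ → ℕ → ℝ} {V : Finset ℕ} {b t ℓ : ℝ} {T : Finset ℕ} {π : ℕ → ℕ}
    {len : ℕ → ℝ} {h : ℕ → ℕ} (hR : RF w V b t ℓ T π len h) (n : ℕ) :
    ∀ x ∈ T, h x = n → π (π^[n] x) = π^[n] x := by
  induction n with
  | zero =>
    intro x hx hn
    by_contra h1
    have := hR.hop x hx h1
    omega
  | succ n ih =>
    intro x hx hn
    have h1 : π x ≠ x := by
      intro h1
      have := hR.root x hx h1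
      omega
    have h2 := hR.hop x hx h1
    rw [Function.iterate_succ_apply]
    exact ih (π x) (hR.mem x hx) (by omega)

theorem exists_chains {w : ℕ → ℕ → ℝ} {V : Finset ℕ} {b t ℓ : ℝ} {T : Finset ℕ} {π : ℕ → ℕ}
    {len : ℕ → ℝ} {h : ℕ → ℕ} (hR : RF w V b t ℓ T π len h) (Q : Finset ℕ) (hQ : Q ⊆ T)
    (hQ1 : ∀ x ∈ T, x ∉ Q → π x ≠ x ∧ (kids T π x).card = 1) :
    ∃ q i N, Chains T π Q q i N := by
  classical
  -- the length of the chain of `p`
  have hN : ∀ p, ∃ n, p ∈ Q → 0 < n ∧ π^[n] p ∈ Q ∧ ∀ m, 0 < m → m < n → π^[m] p ∉ Q := by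
    intro p
    by_cases hp : p ∈ Q
    · have h1 : ∃ n, 0 < n ∧ π^[n] p ∈ Q := by
        refine ⟨h p + 1, Nat.succ_pos _, ?_⟩
        have h2 := Chains_root hR (h p) p (hQ hp) rfl
        rw [Function.iterate_succ_apply', h2]
        by_contra h3
        exact (hQ1 _ (Chains_iter_mem hR (hQ hp) _) h3).1 h2
      refine ⟨Nat.find h1, fun _ => ⟨(Nat.find_spec h1).1, (Nat.find_spec h1).2, ?_⟩⟩
      intro m hm hmn h3
      exact Nat.find_min h1 hmn ⟨hm, h3⟩
    · exact ⟨0, fun h1 => absurd h1 hp⟩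
  choose N hN using hN
  -- existence
  obtain ⟨B, hB⟩ : ∃ B, ∀ x ∈ T, h x ≤ B := ⟨T.sup h, fun x hx => Finset.le_sup hx⟩
  have hex : ∀ k, ∀ x ∈ T, B - h x ≤ k → ∃ p n, p ∈ Q ∧ n < N p ∧ π^[n] p = x := by
    intro k
    induction k with
    | zero =>
      intro x hx hk
      by_cases hxQ : x ∈ Q
      · exact ⟨x, 0, hxQ, (hN x hxQ).1, rfl⟩
      · exfalso
        obtain ⟨h1, h2⟩ := hQ1 x hx hxQ
        obtain ⟨y, hy⟩ := Finset.card_eq_one.1 h2
        have h3 : y ∈ kids T π x := by rw [hy]; exact Finset.mem_singleton_self y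
        rw [kids, Finset.mem_filter] at h3
        have h4 := hR.hop y h3.1 (by rw [h3.2.1]; exact fun h => h3.2.2 h.symm)
        rw [h3.2.1] at h4
        have := hB y h3.1
        have := hB x hx
        omega
    | succ k ih =>
      intro x hx hk
      by_cases hxQ : x ∈ Q
      · exact ⟨x, 0, hxQ, (hN x hxQ).1, rfl⟩
      · obtain ⟨h1, h2⟩ := hQ1 x hx hxQ
        obtain ⟨y, hy⟩ := Finset.card_eq_one.1 h2
        have h3 : y ∈ kids T π x := by rw [hy]; exact Finset.mem_singleton_self y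
        rw [kids, Finset.mem_filter] at h3
        have h4 := hR.hop y h3.1 (by rw [h3.2.1]; exact fun h => h3.2.2 h.symm)
        rw [h3.2.1] at h4
        have h5 := hB y h3.1
        obtain ⟨p, n, hp, hn, hpn⟩ := ih y h3.1 (by omega)
        have h6 : π^[n + 1] p = x := by
          rw [Function.iterate_succ_apply', hpn, h3.2.1]
        refine ⟨p, n + 1, hp, ?_, h6⟩
        rcases Nat.lt_or_ge (n + 1) (N p) with h7 | h7
        · exact h7
        · have h8 : n + 1 = N p := by omega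
          exfalso
          apply hxQ
          rw [← h6, h8]
          exact (hN p hp).2.1
  have huniq : ∀ n p p' n', p ∈ Q → p' ∈ Q → n < N p → n' < N p' → π^[n] p = π^[n'] p' →
      p = p' ∧ n = n' := by
    intro n
    induction n with
    | zero =>
      intro p p' n' hp hp' hn hn' he
      rcases Nat.eq_zero_or_pos n' with h1 | h1
      · subst h1
        exact ⟨he, rfl⟩
      · exact absurd (he ▸ hp : π^[n'] p' ∈ Q) ((hN p' hp').2.2 n' h1 hn')
    | succ n ih =>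
      intro p p' n' hp hp' hn hn' he
      have hxQ : π^[n + 1] p ∉ Q := (hN p hp).2.2 (n + 1) (Nat.succ_pos _) hn
      have hxT : π^[n + 1] p ∈ T := Chains_iter_mem hR (hQ hp) _
      obtain ⟨h1, h2⟩ := hQ1 _ hxT hxQ
      rcases Nat.eq_zero_or_pos n' with h3 | h3
      · subst h3
        exact absurd (he ▸ hp' : π^[n + 1] p ∈ Q) hxQ
      · obtain ⟨m', rfl⟩ : ∃ m', n' = m' + 1 := ⟨n' - 1, by omega⟩
        have h4 : π^[n] p ∈ kids T π (π^[n + 1] p) := by
          rw [kids, Finset.mem_filter]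
          refine ⟨Chains_iter_mem hR (hQ hp) _, (Function.iterate_succ_apply' _ _ _).symm, ?_⟩
          intro h5
          apply h1
          conv_rhs => rw [Function.iterate_succ_apply', h5]
        have h5 : π^[m'] p' ∈ kids T π (π^[n + 1] p) := by
          rw [kids, Finset.mem_filter]
          refine ⟨Chains_iter_mem hR (hQ hp') _,
            (Function.iterate_succ_apply' _ _ _).symm.trans he.symm, ?_⟩
          intro h5
          apply h1
          conv_rhs => rw [he, Function.iterate_succ_apply', h5]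
        obtain ⟨y, hy⟩ := Finset.card_eq_one.1 h2
        rw [hy, Finset.mem_singleton] at h4 h5
        obtain ⟨h6, h7⟩ := ih p p' m' hp hp' (by omega) (by omega) (h4.trans h5.symm)
        exact ⟨h6, by omega⟩
  have hch : ∀ x, ∃ p n, x ∈ T → p ∈ Q ∧ n < N p ∧ π^[n] p = x := by
    intro x
    by_cases hx : x ∈ T
    · obtain ⟨p, n, h1⟩ := hex B x hx (Nat.sub_le _ _)
      exact ⟨p, n, fun _ => h1⟩
    · exact ⟨0, 0, fun h1 => absurd h1 hx⟩
  choose q i hqi using hch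
  refine ⟨q, i, N, ⟨fun x hx => (hqi x hx).1, fun x hx => (hqi x hx).2.2,
    fun x hx => (hqi x hx).2.1, fun p hp => (hN p hp).1, fun p hp => (hN p hp).2.1,
    fun p hp => (hN p hp).2.2, ?_⟩⟩
  intro p hp n hn
  have h1 := hqi (π^[n] p) (Chains_iter_mem hR (hQ hp) n)
  exact huniq _ _ _ _ h1.1 hp h1.2.1 hn h1.2.2

/-- joining along a chain -/
theorem Chains_con_iter {w : ℕ → ℕ → ℝ} {V : Finset ℕ} {b t ℓ : ℝ} {T : Finset ℕ} {π : ℕ → ℕ}
    {len : ℕ → ℝ} {h : ℕ → ℕ} (hR : RF w V b t ℓ T π len h) {x : ℕ} (hx : x ∈ T) {m n : ℕ}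
    (hmn : m ≤ n) :
    Con w b (∑ k ∈ Finset.Ico m n, len (π^[k] x)) (π^[m] x) (π^[n] x) := by
  induction n, hmn using Nat.le_induction with
  | base => simpa using Con.refl (w := w) (b := b) le_rfl (π^[m] x)
  | succ n hmn ih =>
    rw [Finset.sum_Ico_succ_top hmn, Function.iterate_succ_apply']
    exact ih.trans (hR.lenb _ (Chains_iter_mem hR hx n)).2.2

/-- points of the same chain are joined along the chain -/
theorem chain_con {w : ℕ → ℕ → ℝ} {V : Finset ℕ} {b t ℓ : ℝ} {T : Finset ℕ} {π : ℕ → ℕ}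
    {len : ℕ → ℝ} {h : ℕ → ℕ} (hG : Gr w V) (hR : RF w V b t ℓ T π len h) {Q : Finset ℕ}
    (hQ : Q ⊆ T) {q i N : ℕ → ℕ} (hC : Chains T π Q q i N) {x y : ℕ} (hx : x ∈ T) (hy : y ∈ T)
    (hxy : q x = q y) :
    Con w b |dep π len h x - dep π len h y| x y := by
  -- one direction
  have key : ∀ x y, x ∈ T → y ∈ T → q x = q y → i x ≤ i y →
      Con w b |dep π len h x - dep π len h y| x y := by
    intro x y hx hy hxy hi
    have hp : q x ∈ T := hQ (hC.mem x hx)
    have h1 := dep_iter hR hp hi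
    have h2 := Chains_con_iter hR hp hi
    have ex : π^[i x] (q x) = x := hC.iter x hx
    have ey : π^[i y] (q x) = y := by rw [hxy]; exact hC.iter y hy
    rw [← h1, ex, ey] at h2
    exact h2.mono (le_abs_self _)
  rcases le_total (i x) (i y) with h1 | h1
  · exact key x y hx hy hxy h1
  · have h2 := key y x hy hx hxy.symm h1
    rw [abs_sub_comm]
    exact h2.symm hG.symm

theorem Chains_window_aux (g : ℕ → ℝ) {r : ℝ} (hg : ∀ n, g n ≤ r) (hr : 0 < r) (m : ℕ)
    (h : 6 * r < ∑ k ∈ Finset.Ico 0 m, g k) :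
    ∃ d, d < m ∧ 5 * r ≤ ∑ n ∈ Finset.Ico d m, g n ∧ ∑ n ∈ Finset.Ico d m, g n ≤ 6 * r := by
  classical
  -- the largest `d ≤ m` with sum at least `5 r`
  have hex : ∃ d', d' ≤ m ∧ 5 * r ≤ ∑ n ∈ Finset.Ico (m - d') m, g n :=
    ⟨m, le_rfl, by rw [Nat.sub_self]; linarith⟩
  obtain ⟨h1, h2⟩ := Nat.find_spec hex
  set e := Nat.find hex with he
  have h3 : e ≠ 0 := by
    intro h3
    rw [h3] at h2
    simp at h2
    linarith
  have h4 : ¬ (e - 1 ≤ m ∧ 5 * r ≤ ∑ n ∈ Finset.Ico (m - (e - 1)) m, g n) :=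
    Nat.find_min hex (by omega)
  have h5 : ∑ n ∈ Finset.Ico (m - (e - 1)) m, g n < 5 * r := by
    by_contra h6
    exact h4 ⟨by omega, not_lt.1 h6⟩
  refine ⟨m - e, by omega, h2, ?_⟩
  rw [Finset.sum_eq_sum_Ico_succ_bot (by omega : m - e < m)]
  rw [show m - (e - 1) = m - e + 1 by omega] at h5
  have := hg (m - e)
  linarith

/-- windows around deep chain points -/
theorem window {w : ℕ → ℕ → ℝ} {V : Finset ℕ} {b t ℓ r : ℝ} {T : Finset ℕ} {π : ℕ → ℕ}
    {len : ℕ → ℝ} {h : ℕ → ℕ} (hR : RF w V b t ℓ T π len h) {Q : Finset ℕ}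
    (hQ : Q ⊆ T) {q i N : ℕ → ℕ} (hC : Chains T π Q q i N) (hℓ : ℓ ≤ r) (hr : 0 < r)
    {x : ℕ} (hx : x ∈ T)
    (h1 : 6 * r < dep π len h (q x) - dep π len h x)
    (h2 : 6 * r < dep π len h x - dep π len h (π^[N (q x)] (q x))) :
    ∃ d u, d < i x ∧ i x < u ∧ u < N (q x) ∧
      5 * r ≤ ∑ n ∈ Finset.Ico d (i x), len (π^[n] (q x)) ∧
      ∑ n ∈ Finset.Ico d (i x), len (π^[n] (q x)) ≤ 6 * r ∧
      5 * r ≤ ∑ n ∈ Finset.Ico (i x) u, len (π^[n] (q x)) ∧
      ∑ n ∈ Finset.Ico (i x) u, len (π^[n] (q x)) ≤ 6 * r := by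
  classical
  have hp : q x ∈ T := hQ (hC.mem x hx)
  have hg : ∀ n, len (π^[n] (q x)) ≤ r := fun n =>
    ((hR.lenb _ (Chains_iter_mem hR hp n)).2.1).trans hℓ
  have ex : π^[i x] (q x) = x := hC.iter x hx
  have hi : i x < N (q x) := hC.lt x hx
  have h3 : 6 * r < ∑ k ∈ Finset.Ico 0 (i x), len (π^[k] (q x)) := by
    rw [← dep_iter hR hp (Nat.zero_le (i x)), ex]
    simpa using h1
  obtain ⟨d, hd1, hd2, hd3⟩ := Chains_window_aux (fun n => len (π^[n] (q x))) hg hr (i x) h3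
  have h4 : 6 * r < ∑ k ∈ Finset.Ico (i x) (N (q x)), len (π^[k] (q x)) := by
    rw [← dep_iter hR hp hi.le, ex]
    exact h2
  have hex : ∃ u, i x ≤ u ∧ 5 * r ≤ ∑ k ∈ Finset.Ico (i x) u, len (π^[k] (q x)) :=
    ⟨N (q x), hi.le, by linarith⟩
  obtain ⟨h5, h6⟩ := Nat.find_spec hex
  set u := Nat.find hex with hu
  have h7 : u ≠ i x := by
    intro h7
    rw [h7, Finset.Ico_self, Finset.sum_empty] at h6
    linarith
  have h8 : ∑ k ∈ Finset.Ico (i x) (u - 1), len (π^[k] (q x)) < 5 * r := by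
    by_contra h9
    exact Nat.find_min hex (by omega : u - 1 < u) ⟨by omega, not_lt.1 h9⟩
  have h9 : ∑ k ∈ Finset.Ico (i x) u, len (π^[k] (q x)) ≤ 6 * r := by
    rw [show u = (u - 1) + 1 by omega, Finset.sum_Ico_succ_top (by omega)]
    have := hg (u - 1)
    linarith
  have h10 : u ≤ N (q x) := Nat.find_min' hex ⟨hi.le, by linarith⟩
  have h11 : u ≠ N (q x) := by
    intro h11
    rw [h11] at h9
    linarith
  exact ⟨d, u, hd1, by omega, by omega, hd2, hd3, h6, h9⟩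

end Pool.Agent.Lib.MP_ed4bd1_lc
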