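import Pool.Agent.Lib.MP_ed4bd1_lc.Defs

set_option autoImplicit false

/-!
# MP_ed4bd1_lc, module M7: packing and selection lemmas (helper9)
-/

namespace Pool.Agent.Lib.MP_ed4bd1_lc

theorem pack_line {ι : Type*} [DecidableEq ι] (S : Finset ι) (f : ι → ℝ) {d α lam : ℝ}
    (hd : 0 < d) (hlam : 0 ≤ lam)
    (hf : ∀ x ∈ S, α ≤ f x ∧ f x ≤ α + lam)
    (hsep : ∀ x ∈ S, ∀ y ∈ S, x ≠ y → d ≤ |f x - f y|) :
    (S.card : ℝ) ≤ lam / d + 1 := by
  have h1 : S.card ≤ (Finset.range (⌊lam / d⌋₊ + 1)).card := by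
    apply Finset.card_le_card_of_injOn (fun x => ⌊(f x - α) / d⌋₊)
    · intro x hx
      have h2 := hf x hx
      simp only [Finset.coe_range, Set.mem_Iio]
      apply Nat.lt_succ_of_le
      apply Nat.floor_le_floor
      apply div_le_div_of_nonneg_right _ hd.le
      linarith [h2.2]
    · intro x hx y hy hxy
      by_contra hne
      have h2 := hsep x hx y hy hne
      have h3 := hf x hx
      have h4 := hf y hy
      have hx0 : 0 ≤ (f x - α) / d := div_nonneg (by linarith [h3.1]) hd.le
      have hy0 : 0 ≤ (f y - α) / d := div_nonneg (by linarith [h4.1]) hd.le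
      have e1 := Nat.floor_le hx0
      have e2 := Nat.lt_floor_add_one ((f x - α) / d)
      have e3 := Nat.floor_le hy0
      have e4 := Nat.lt_floor_add_one ((f y - α) / d)
      simp only at hxy
      rw [hxy] at e1 e2
      have e5 : |(f x - α) / d - (f y - α) / d| < 1 := by
        rw [abs_lt]; constructor <;> linarith
      have e6 : (f x - α) / d - (f y - α) / d = (f x - f y) / d := by ring
      rw [e6, abs_div, abs_of_pos hd, div_lt_one hd] at e5
      linarith
  rw [Finset.card_range] at h1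
  have h2 : (S.card : ℝ) ≤ (⌊lam / d⌋₊ : ℝ) + 1 := by exact_mod_cast h1
  have h3 := Nat.floor_le (div_nonneg hlam hd.le)
  linarith

theorem chain_pack {w : ℕ → ℕ → ℝ} {V : Finset ℕ} {b r ts : ℝ} (hG : Gr w V)
    (hr : 0 < r) (hts : ts ≤ r / 5000)
    {T : Finset ℕ} (a : ℕ → ℕ) (ha : ∀ v ∈ V, a v ∈ T ∧ Con w b ts v (a v))
    (q : ℕ → ℕ) (D : ℕ → ℝ)
    (hchain : ∀ x ∈ T, ∀ y ∈ T, q x = q y → Con w b |D x - D y| x y)
    (Z : Finset ℕ) (hZV : Z ⊆ V)
    (hsep : ∀ z ∈ Z, ∀ z' ∈ Z, z ≠ z' → ¬ Con w b (9 / 10 * r) z z')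
    {p : ℕ} {α lam : ℝ} (hlam : 0 ≤ lam)
    (hZ : ∀ z ∈ Z, q (a z) = p ∧ α ≤ D (a z) ∧ D (a z) ≤ α + lam) :
    (Z.card : ℝ) ≤ lam / (4 / 5 * r) + 1 := by
  apply pack_line Z (fun z => D (a z)) (α := α) (by linarith) hlam
  · intro z hz
    exact (hZ z hz).2
  · intro z hz z' hz' hne
    by_contra hlt
    rw [not_le] at hlt
    apply hsep z hz z' hz' hne
    have h1 := ha z (hZV hz)
    have h2 := ha z' (hZV hz')
    have h3 := hchain _ h1.1 _ h2.1 ((hZ z hz).1.trans (hZ z' hz').1.symm)
    have h4 := (h1.2.trans h3).trans (h2.2.symm hG.symm)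
    apply h4.mono
    linarith

/-- maximal separated subset -/
theorem exists_maximal_sep (S : Finset ℕ) (rel : ℕ → ℕ → Prop) (hsymm : ∀ x y, rel x y → rel y x)
    (hrefl : ∀ x ∈ S, rel x x) :
    ∃ B ⊆ S, (∀ x ∈ B, ∀ y ∈ B, x ≠ y → ¬ rel x y) ∧ ∀ x ∈ S, ∃ y ∈ B, rel x y := by
  classical
  obtain ⟨P, hP⟩ : ∃ P : Finset ℕ → Prop,
      ∀ B, P B ↔ ∀ x ∈ B, ∀ y ∈ B, x ≠ y → ¬ rel x y := ⟨_, fun _ => Iff.rfl⟩
  have hne : (S.powerset.filter P).Nonempty :=
    ⟨∅, by rw [Finset.mem_filter, hP]; simp⟩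
  obtain ⟨B, hB, hmax⟩ := Finset.exists_max_image _ (fun B => B.card) hne
  rw [Finset.mem_filter, Finset.mem_powerset, hP] at hB
  refine ⟨B, hB.1, hB.2, ?_⟩
  intro x hx
  by_contra hno
  push Not at hno
  have hxB : x ∉ B := fun h => hno x h (hrefl x hx)
  have h1 := hmax (insert x B) (by
    rw [Finset.mem_filter, Finset.mem_powerset, hP]
    refine ⟨Finset.insert_subset hx hB.1, ?_⟩
    intro y hy z hz hyz
    rw [Finset.mem_insert] at hy hz
    rcases hy with rfl | hy
    · rcases hz with rfl | hz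
      · exact absurd rfl hyz
      · exact hno z hz
    · rcases hz with rfl | hz
      · exact fun h => hno y hy (hsymm _ _ h)
      · exact hB.2 y hy z hz hyz)
  simp only [Finset.card_insert_of_notMem hxB] at h1
  omega

/-- a digraph with out-degree at most one has an independent set of size at least `n/3` -/
theorem exists_independent (S : Finset ℕ) (rel : ℕ → ℕ → Prop)
    (hout : ∀ x ∈ S, ∀ y ∈ S, ∀ y' ∈ S, y ≠ x → y' ≠ x → rel x y → rel x y' → y = y') :
    ∃ K ⊆ S, S.card ≤ 3 * K.card ∧ ∀ x ∈ K, ∀ y ∈ K, x ≠ y → ¬ rel x y := by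
  classical
  induction S using Finset.strongInduction with
  | H S ih =>
    rcases S.eq_empty_or_nonempty with rfl | hS
    · exact ⟨∅, by simp, by simp, by simp⟩
    · -- a vertex of small in-degree
      have hex : ∃ x ∈ S, (S.filter (fun y => y ≠ x ∧ rel y x)).card ≤ 1 := by
        by_contra hno
        push Not at hno
        have h1 : ∑ x ∈ S, 2 ≤ ∑ x ∈ S, (S.filter (fun y => y ≠ x ∧ rel y x)).card :=
          Finset.sum_le_sum (fun x hx => hno x hx)
        have h2 : ∑ x ∈ S, (S.filter (fun y => y ≠ x ∧ rel y x)).card =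
            ∑ y ∈ S, (S.filter (fun x => y ≠ x ∧ rel y x)).card :=
          (Finset.sum_card_bipartiteAbove_eq_sum_card_bipartiteBelow
            (s := S) (t := S) (fun y x => y ≠ x ∧ rel y x)).symm
        have h3 : ∑ y ∈ S, (S.filter (fun x => y ≠ x ∧ rel y x)).card ≤ ∑ y ∈ S, 1 := by
          apply Finset.sum_le_sum
          intro y hy
          rw [Finset.card_le_one]
          intro x hx x' hx'
          rw [Finset.mem_filter] at hx hx'
          exact hout y hy x hx.1 x' hx'.1 hx.2.1.symm hx'.2.1.symm hx.2.2 hx'.2.2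
        simp only [Finset.sum_const, smul_eq_mul, mul_one] at h1 h2 h3
        have h4 : 0 < S.card := hS.card_pos
        omega
      obtain ⟨x, hx, hin⟩ := hex
      have hout1 : (S.filter (fun y => y ≠ x ∧ rel x y)).card ≤ 1 := by
        rw [Finset.card_le_one]
        intro y hy y' hy'
        rw [Finset.mem_filter] at hy hy'
        exact hout x hx y hy.1 y' hy'.1 hy.2.1 hy'.2.1 hy.2.2 hy'.2.2
      obtain ⟨K, hK, hc, hind⟩ := ih (S.filter (fun y => y ≠ x ∧ ¬ rel x y ∧ ¬ rel y x))
        (by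
          rw [Finset.filter_ssubset]
          exact ⟨x, hx, by simp⟩)
        (by
          intro z hz y hy y' hy'
          exact hout z (Finset.mem_filter.mp hz).1 y (Finset.mem_filter.mp hy).1 y'
            (Finset.mem_filter.mp hy').1)
      have hxK : x ∉ K := fun h => (Finset.mem_filter.mp (hK h)).2.1 rfl
      refine ⟨insert x K, ?_, ?_, ?_⟩
      · apply Finset.insert_subset hx
        exact hK.trans (Finset.filter_subset _ _)
      · rw [Finset.card_insert_of_notMem hxK]
        have hsub : S ⊆ ({x} ∪ S.filter (fun y => y ≠ x ∧ rel y x)) ∪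
            (S.filter (fun y => y ≠ x ∧ rel x y) ∪
              S.filter (fun y => y ≠ x ∧ ¬ rel x y ∧ ¬ rel y x)) := by
          intro y hy
          simp only [Finset.mem_union, Finset.mem_singleton, Finset.mem_filter]
          tauto
        have h1 := Finset.card_le_card hsub
        have h2 := Finset.card_union_le ({x} ∪ S.filter (fun y => y ≠ x ∧ rel y x))
          (S.filter (fun y => y ≠ x ∧ rel x y) ∪
              S.filter (fun y => y ≠ x ∧ ¬ rel x y ∧ ¬ rel y x))
        have h3 := Finset.card_union_le {x} (S.filter (fun y => y ≠ x ∧ rel y x))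
        have h4 := Finset.card_union_le (S.filter (fun y => y ≠ x ∧ rel x y))
          (S.filter (fun y => y ≠ x ∧ ¬ rel x y ∧ ¬ rel y x))
        rw [Finset.card_singleton] at h3
        omega
      · intro y hy z hz hyz
        rw [Finset.mem_insert] at hy hz
        rcases hy with rfl | hy
        · rcases hz with rfl | hz
          · exact absurd rfl hyz
          · exact (Finset.mem_filter.mp (hK hz)).2.2.1
        · rcases hz with rfl | hz
          · exact (Finset.mem_filter.mp (hK hy)).2.2.2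
          · exact hind y hy z hz hyz

end Pool.Agent.Lib.MP_ed4bd1_lc
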