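import Pool.Agent.Lib.MP_ed4bd1_lc.Defs

set_option autoImplicit false

/-!
# MP_ed4bd1_lc, module M2: rooting a skeleton by breadth first search
-/

namespace Pool.Agent.Lib.MP_ed4bd1_lc

theorem rootingAdj_symm {F : Finset (ℕ × ℕ × ℝ)} {a b : ℕ} (h : Adj F a b) : Adj F b a := by
  obtain ⟨L, h⟩ := h
  exact ⟨L, h.symm⟩

theorem rootingLink_symm {F : Finset (ℕ × ℕ × ℝ)} {a b : ℕ} (h : Link F a b) : Link F b a := by
  unfold Link at *
  induction h with
  | refl => exact Relation.ReflTransGen.refl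
  | tail _ h' ih => exact Relation.ReflTransGen.head (rootingAdj_symm h') ih

/-- there is a walk of `n` links from `x` to `y` -/
def RootingSteps (F : Finset (ℕ × ℕ × ℝ)) : ℕ → ℕ → ℕ → Prop
  | 0, x, y => x = y
  | n + 1, x, y => ∃ z, Adj F x z ∧ RootingSteps F n z y

theorem rootingSteps_of_link {F : Finset (ℕ × ℕ × ℝ)} {x y : ℕ} (h : Link F x y) :
    ∃ n, RootingSteps F n x y := by
  induction h using Relation.ReflTransGen.head_induction_on with
  | refl => exact ⟨0, rfl⟩
  | head h' _ ih =>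
    obtain ⟨n, hn⟩ := ih
    exact ⟨n + 1, _, h', hn⟩

theorem rootingLink_of_steps {F : Finset (ℕ × ℕ × ℝ)} {n : ℕ} : ∀ {x y : ℕ},
    RootingSteps F n x y → Link F x y := by
  induction n with
  | zero => intro x y h; rw [show x = y from h]; exact Relation.ReflTransGen.refl
  | succ n ih =>
    intro x y h
    obtain ⟨z, hz, h⟩ := h
    exact Relation.ReflTransGen.head hz (ih h)

/-- least vertex of the component of `x` -/
noncomputable def rootingRoot (F : Finset (ℕ × ℕ × ℝ)) (x : ℕ) : ℕ := sInf {y | Link F x y}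

theorem rootingRoot_link (F : Finset (ℕ × ℕ × ℝ)) (x : ℕ) : Link F x (rootingRoot F x) :=
  Nat.sInf_mem (s := {y | Link F x y}) ⟨x, Relation.ReflTransGen.refl⟩

theorem rootingRoot_eq {F : Finset (ℕ × ℕ × ℝ)} {x y : ℕ} (h : Link F x y) :
    rootingRoot F x = rootingRoot F y := by
  unfold rootingRoot
  congr 1
  ext z
  constructor
  · intro hz; exact (rootingLink_symm h).trans hz
  · intro hz; exact h.trans hz

/-- least number of links to the root -/
noncomputable def rootingH (F : Finset (ℕ × ℕ × ℝ)) (x : ℕ) : ℕ :=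
  sInf {n | RootingSteps F n x (rootingRoot F x)}

theorem rootingH_spec (F : Finset (ℕ × ℕ × ℝ)) (x : ℕ) :
    RootingSteps F (rootingH F x) x (rootingRoot F x) :=
  Nat.sInf_mem (s := {n | RootingSteps F n x (rootingRoot F x)})
    (rootingSteps_of_link (rootingRoot_link F x))

theorem rootingH_le {F : Finset (ℕ × ℕ × ℝ)} {x n : ℕ}
    (h : RootingSteps F n x (rootingRoot F x)) : rootingH F x ≤ n :=
  Nat.sInf_le (s := {n | RootingSteps F n x (rootingRoot F x)}) h

theorem rootingH_zero {F : Finset (ℕ × ℕ × ℝ)} {x : ℕ} (h : rootingH F x = 0) :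
    x = rootingRoot F x := by
  have := rootingH_spec F x
  rw [h] at this
  exact this

theorem rooting_parent {F : Finset (ℕ × ℕ × ℝ)} {x : ℕ} (h : rootingH F x ≠ 0) :
    ∃ z L, ((x, z, L) ∈ F ∨ (z, x, L) ∈ F) ∧ rootingH F x = rootingH F z + 1 ∧
      rootingRoot F z = rootingRoot F x := by
  obtain ⟨n, hn⟩ := Nat.exists_eq_succ_of_ne_zero h
  have hs := rootingH_spec F x
  rw [hn] at hs
  obtain ⟨z, hz, hs⟩ := hs
  have hroot : rootingRoot F x = rootingRoot F z :=
    rootingRoot_eq (Relation.ReflTransGen.single hz)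
  obtain ⟨L, hL⟩ := id hz
  refine ⟨z, L, hL, ?_, hroot.symm⟩
  rw [hroot] at hs
  have h1 : rootingH F z ≤ n := rootingH_le hs
  have h2 : rootingH F x ≤ rootingH F z + 1 := by
    apply rootingH_le
    refine ⟨z, hz, ?_⟩
    rw [hroot]
    exact rootingH_spec F z
  omega

open Classical in
theorem rooting {w : ℕ → ℕ → ℝ} {V : Finset ℕ} {b t ℓ : ℝ} {T : Finset ℕ}
    {F : Finset (ℕ × ℕ × ℝ)} (hG : Gr w V) (hℓ : 0 ≤ ℓ) (hS : Skel w V b t T F)
    (hF : ∀ e ∈ F, e.2.2 ≤ ℓ) :
    ∃ π len h, RF w V b t ℓ T π len h ∧ ∑ x ∈ T, len x ≤ wt F := by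
  choose! par lenp hpar hhop hrt using fun x => rooting_parent (F := F) (x := x)
  set h : ℕ → ℕ := rootingH F with hh
  set π : ℕ → ℕ := fun x => if h x = 0 then x else par x with hπ
  set len : ℕ → ℝ := fun x => if h x = 0 then 0 else lenp x with hlen
  have hπ0 : ∀ x, h x = 0 → π x = x := fun x hx => by simp [hπ, hx]
  have hπ1 : ∀ x, h x ≠ 0 → π x = par x := fun x hx => by simp [hπ, hx]
  have hl0 : ∀ x, h x = 0 → len x = 0 := fun x hx => by simp [hlen, hx]
  have hl1 : ∀ x, h x ≠ 0 → len x = lenp x := fun x hx => by simp [hlen, hx]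
  have hhopπ : ∀ x, h x ≠ 0 → h x = h (π x) + 1 := by
    intro x hx
    rw [hπ1 x hx]
    exact hhop x hx
  have hne : ∀ x, h x ≠ 0 → π x ≠ x := by
    intro x hx he
    have := hhopπ x hx
    rw [he] at this
    omega
  have hfix : ∀ x, π x = x → h x = 0 := by
    intro x hx
    by_contra h0
    exact hne x h0 hx
  have hF' : ∀ x, h x ≠ 0 → (x, π x, len x) ∈ F ∨ (π x, x, len x) ∈ F := by
    intro x hx
    rw [hπ1 x hx, hl1 x hx]
    exact hpar x hx
  have hiter : ∀ n x, h x = n → π^[n] x = rootingRoot F x := by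
    intro n
    induction n with
    | zero =>
      intro x hx
      simpa using rootingH_zero hx
    | succ n ih =>
      intro x hx
      have hx0 : h x ≠ 0 := by omega
      have h1 := hhopπ x hx0
      rw [Function.iterate_succ_apply, ih (π x) (by omega), hπ1 x hx0]
      exact hrt x hx0
  refine ⟨π, len, h, ?_, ?_⟩
  · refine ⟨hS.sub, ?_, ?_, ?_, ?_, ?_, ?_, hS.dense⟩
    · intro x hx
      by_cases h0 : h x = 0
      · rw [hπ0 x h0]; exact hx
      · rcases hF' x h0 with h1 | h1
        · exact (hS.endp _ h1).2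
        · exact (hS.endp _ h1).1
    · intro x _ hx
      apply hhopπ
      intro h0
      exact hx (hπ0 x h0)
    · intro x _ hx
      exact hfix x hx
    · intro x _ hx
      exact hl0 x (hfix x hx)
    · intro x _
      by_cases h0 : h x = 0
      · rw [hl0 x h0, hπ0 x h0]
        exact ⟨le_rfl, hℓ, Con.refl le_rfl x⟩
      · rcases hF' x h0 with h1 | h1
        · exact ⟨(hS.val _ h1).1, hF _ h1, (hS.val _ h1).2⟩
        · exact ⟨(hS.val _ h1).1, hF _ h1, Con.symm hG.symm (hS.val _ h1).2⟩
    · intro x hx y hy L hL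
      rw [hiter _ x rfl, hiter _ y rfl]
      exact rootingRoot_eq (hS.conn x hx y hy L hL)
  · set φ : ℕ → ℕ × ℕ × ℝ := fun x =>
      if (x, π x, len x) ∈ F then (x, π x, len x) else (π x, x, len x) with hφ
    have hφl : ∀ x, (φ x).2.2 = len x := by
      intro x
      simp only [hφ]
      split_ifs <;> rfl
    have hφF : ∀ x, h x ≠ 0 → φ x ∈ F := by
      intro x hx
      simp only [hφ]
      split_ifs with h1
      · exact h1
      · exact (hF' x hx).resolve_left h1
    have hφc : ∀ x, ((φ x).1 = x ∧ (φ x).2.1 = π x) ∨ ((φ x).1 = π x ∧ (φ x).2.1 = x) := by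
      intro x
      simp only [hφ]
      split_ifs
      · left; exact ⟨rfl, rfl⟩
      · right; exact ⟨rfl, rfl⟩
    have hinj : Set.InjOn φ (T.filter (fun x => h x ≠ 0) : Finset ℕ) := by
      intro x hx y hy hxy
      rw [Finset.mem_coe, Finset.mem_filter] at hx hy
      by_contra hne'
      have hx1 := hhopπ x hx.2
      have hy1 := hhopπ y hy.2
      have key : x = π y ∧ y = π x := by
        rcases hφc x with ⟨a1, a2⟩ | ⟨a1, a2⟩ <;> rcases hφc y with ⟨b1, b2⟩ | ⟨b1, b2⟩
        · exact absurd (a1.symm.trans (by rw [hxy]; exact b1)) hne'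
        · exact ⟨a1.symm.trans (by rw [hxy]; exact b1), (a2.symm.trans (by rw [hxy]; exact b2)).symm⟩
        · exact ⟨a2.symm.trans (by rw [hxy]; exact b2), (a1.symm.trans (by rw [hxy]; exact b1)).symm⟩
        · exact absurd (a2.symm.trans (by rw [hxy]; exact b2)) hne'
      rw [← key.2] at hx1
      rw [← key.1] at hy1
      omega
    calc ∑ x ∈ T, len x = ∑ x ∈ T.filter (fun x => h x ≠ 0), len x := by
          symm
          apply Finset.sum_filter_of_ne
          intro x _ hx h0
          exact hx (hl0 x h0)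
      _ = ∑ x ∈ T.filter (fun x => h x ≠ 0), (φ x).2.2 :=
          Finset.sum_congr rfl (fun x _ => (hφl x).symm)
      _ = ∑ e ∈ (T.filter (fun x => h x ≠ 0)).image φ, e.2.2 := by
          rw [Finset.sum_image hinj]
      _ ≤ ∑ e ∈ F, e.2.2 := by
          apply Finset.sum_le_sum_of_subset_of_nonneg
          · intro e he
            obtain ⟨x, hx, rfl⟩ := Finset.mem_image.1 he
            exact hφF x (Finset.mem_filter.1 hx).2
          · intro e he _
            exact (hS.val e he).1
      _ = wt F := rfl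

end Pool.Agent.Lib.MP_ed4bd1_lc
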