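import Pool.Agent.Lib.MP_ed4bd1_lc.Cut

set_option autoImplicit false

/-!
# Surgeries (module M8b)
-/

namespace Pool.Agent.Lib.MP_ed4bd1_lc

open Classical in
/-- the links left after cutting the chain between `lo` and `hi` -/
noncomputable def cutF (F : Finset (ℕ × ℕ × ℝ)) (c : ℕ → ℕ) (l : ℕ → ℝ) (lo hi : ℕ) :
    Finset (ℕ × ℕ × ℝ) :=
  F.filter (fun e => ∀ n, lo ≤ n → n < hi → e ≠ (c n, c (n + 1), l n))

open Classical in
/-- the vertices left after cutting the chain between `lo` and `hi` -/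
noncomputable def cutT (T : Finset ℕ) (c : ℕ → ℕ) (lo hi : ℕ) : Finset ℕ :=
  T.filter (fun x => ∀ n, lo < n → n < hi → x ≠ c n)

theorem mem_cutF {F : Finset (ℕ × ℕ × ℝ)} {c : ℕ → ℕ} {l : ℕ → ℝ} {lo hi : ℕ} {e : ℕ × ℕ × ℝ} :
    e ∈ cutF F c l lo hi ↔ e ∈ F ∧ ∀ n, lo ≤ n → n < hi → e ≠ (c n, c (n + 1), l n) := by
  simp only [cutF, Finset.mem_filter]

theorem mem_cutT {T : Finset ℕ} {c : ℕ → ℕ} {lo hi : ℕ} {x : ℕ} :
    x ∈ cutT T c lo hi ↔ x ∈ T ∧ ∀ n, lo < n → n < hi → x ≠ c n := by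
  simp only [cutT, Finset.mem_filter]

theorem wt_cutF {F : Finset (ℕ × ℕ × ℝ)} {c : ℕ → ℕ} {l : ℕ → ℝ} {lo hi : ℕ}
    (hinj : ∀ n n', lo ≤ n → n ≤ hi → lo ≤ n' → n' ≤ hi → c n = c n' → n = n')
    (hlink : ∀ n, lo ≤ n → n < hi → (c n, c (n + 1), l n) ∈ F) :
    wt (cutF F c l lo hi) + ∑ n ∈ Finset.Ico lo hi, l n = wt F := by
  classical
  unfold wt cutF
  rw [← Finset.sum_filter_add_sum_filter_not F
    (fun e => ∀ n, lo ≤ n → n < hi → e ≠ (c n, c (n + 1), l n))]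
  congr 1
  symm
  have : F.filter (fun e => ¬ ∀ n, lo ≤ n → n < hi → e ≠ (c n, c (n + 1), l n)) =
      (Finset.Ico lo hi).image (fun n => (c n, c (n + 1), l n)) := by
    ext e
    simp only [Finset.mem_filter, Finset.mem_image, Finset.mem_Ico]
    constructor
    · rintro ⟨-, h⟩
      push Not at h
      obtain ⟨n, h1, h2, h3⟩ := h
      exact ⟨n, ⟨h1, h2⟩, h3.symm⟩
    · rintro ⟨n, ⟨h1, h2⟩, rfl⟩
      refine ⟨hlink n h1 h2, fun h => h n h1 h2 rfl⟩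
  rw [this, Finset.sum_image]
  intro n hn n' hn' h
  simp only [Finset.coe_Ico, Set.mem_Ico] at hn hn'
  simp only [Prod.mk.injEq] at h
  exact hinj n n' hn.1 hn.2.le hn'.1 hn'.2.le h.1

section

variable {w : ℕ → ℕ → ℝ} {V : Finset ℕ} {b b' r : ℝ} {T : Finset ℕ} {F : Finset (ℕ × ℕ × ℝ)}
  {a y : ℕ} {L : ℝ} {c : ℕ → ℕ} {l : ℕ → ℝ} {d m u : ℕ}

/-- choice of the part of the chain to be cut -/
theorem Site.choose (hr : 0 < r)
    (hconn : ∀ u ∈ T, ∀ v ∈ T, ∀ L, Con w b' L u v → Link F u v)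
    (hS : Site w b b' r T F a y L c l d m u) :
    ∃ lo hi, d ≤ lo ∧ lo < hi ∧ hi ≤ u ∧ (m ≤ lo ∨ hi ≤ m) ∧ (∀ n, lo < n → n < hi → y ≠ c n) ∧
      L + r / 1000 ≤ ∑ n ∈ Finset.Ico lo hi, l n ∧
      ∀ F', (∀ e ∈ cutF F c l lo hi, e ∈ F') → (a, y, L) ∈ F' → Link F' (c lo) (c hi) := by
  have hL : 0 ≤ L := hS.ycon.nonneg
  have haT : a ∈ T := by
    rw [← hS.hm]
    exact hS.mem m hS.hdm.le hS.hmu.le
  rcases hS.partner with ⟨n, h1, h2, h3, h4⟩ | ⟨n, h1, h2, h3, h4⟩ | ⟨h1, h2, h3, h4⟩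
  · have hnm : n < m := by
      rcases h2.eq_or_lt with h | h
      · rw [h, Finset.Ico_self, Finset.sum_empty] at h4
        linarith
      · exact h
    refine ⟨n, m, h1, hnm, hS.hmu.le, Or.inr le_rfl, ?_, h4, ?_⟩
    · intro k hk1 hk2 hk
      rw [h3] at hk
      have := hS.inj n k h1 (hnm.le.trans hS.hmu.le) (h1.trans hk1.le) (hk2.le.trans hS.hmu.le) hk
      omega
    · intro F' _ hF
      rw [← h3, hS.hm]
      exact Relation.ReflTransGen.single ⟨L, Or.inr hF⟩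
  · have hnm : m < n := by
      rcases h1.eq_or_lt with h | h
      · rw [h, Finset.Ico_self, Finset.sum_empty] at h4
        linarith
      · exact h
    refine ⟨m, n, hS.hdm.le, hnm, h2, Or.inl le_rfl, ?_, h4, ?_⟩
    · intro k hk1 hk2 hk
      rw [h3] at hk
      have := hS.inj n k (hS.hdm.le.trans h1) h2 (hS.hdm.le.trans hk1.le) (hk2.le.trans h2) hk
      omega
    · intro F' _ hF
      rw [← h3, hS.hm]
      exact Relation.ReflTransGen.single ⟨L, Or.inl hF⟩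
  · have hya : Link F y (c m) := by
      rw [hS.hm]
      exact (hconn a haT y hS.ymem L hS.ycon).symm
    have h5 := first_entrance F c l hS.hdm hS.hmu hS.inj hS.inner (cutF F c l d u)
      (fun e he h => mem_cutF.mpr ⟨he, h⟩) (fun n hn1 hn2 => h1 n hn1.le hn2.le) hya
    rcases h5 with h5 | h5
    · refine ⟨d, m, le_rfl, hS.hdm, hS.hmu.le, Or.inr le_rfl,
        fun n hn1 hn2 => h1 n hn1.le (hn2.le.trans hS.hmu.le), by linarith, ?_⟩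
      intro F' hF' hF
      have h6 : Link F' y (c d) := h5.mono fun e he => by
        apply hF'
        rw [mem_cutF] at he ⊢
        exact ⟨he.1, fun n hn1 hn2 => he.2 n hn1 (hn2.trans hS.hmu)⟩
      rw [hS.hm]
      exact h6.symm.trans (Relation.ReflTransGen.single ⟨L, Or.inr hF⟩)
    · refine ⟨m, u, hS.hdm.le, hS.hmu, le_rfl, Or.inl le_rfl,
        fun n hn1 hn2 => h1 n (hS.hdm.le.trans hn1.le) hn2.le, by linarith, ?_⟩
      intro F' hF' hF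
      have h6 : Link F' y (c u) := h5.mono fun e he => by
        apply hF'
        rw [mem_cutF] at he ⊢
        exact ⟨he.1, fun n hn1 hn2 => he.2 n (hS.hdm.le.trans hn1) hn2⟩
      rw [hS.hm]
      exact (show Link F' a y from Relation.ReflTransGen.single ⟨L, Or.inl hF⟩).trans h6

open Classical in
/-- one surgery -/
theorem Site.cut (hr : 0 < r)
    (hend : ∀ e ∈ F, e.1 ∈ T ∧ e.2.1 ∈ T)
    (hval : ∀ e ∈ F, 0 ≤ e.2.2 ∧ Con w b' e.2.2 e.1 e.2.1)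
    (hconn : ∀ u ∈ T, ∀ v ∈ T, ∀ L, Con w b' L u v → Link F u v)
    (hS : Site w b b' r T F a y L c l d m u) :
    ∃ T' F', T' ⊆ T ∧ (∀ e ∈ F', e.1 ∈ T' ∧ e.2.1 ∈ T') ∧
      (∀ e ∈ F', 0 ≤ e.2.2 ∧ Con w b' e.2.2 e.1 e.2.1) ∧
      (∀ u ∈ T', ∀ v ∈ T', ∀ L, Con w b' L u v → Link F' u v) ∧
      a ∈ T' ∧ (∀ x ∈ T, (∀ n, d ≤ n → n ≤ u → x ≠ c n) → x ∈ T') ∧
      (∀ e ∈ F', e ∈ F ∨ e = (a, y, L)) ∧
      (∀ e ∈ F, (∀ n, d ≤ n → n ≤ u → e.1 ≠ c n) → e ∈ F') ∧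
      wt F' + r / 1000 ≤ wt F := by
  obtain ⟨lo, hi, h1, h2, h3, h4, h5, h6, h7⟩ := hS.choose hr hconn
  have hL : 0 ≤ L := hS.ycon.nonneg
  have haT : a ∈ T := by
    rw [← hS.hm]
    exact hS.mem m hS.hdm.le hS.hmu.le
  have hinj : ∀ n n', lo ≤ n → n ≤ hi → lo ≤ n' → n' ≤ hi → c n = c n' → n = n' :=
    fun n n' k1 k2 k3 k4 k5 => hS.inj n n' (h1.trans k1) (k2.trans h3) (h1.trans k3)
      (k4.trans h3) k5
  have haT' : a ∈ cutT T c lo hi := by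
    rw [mem_cutT]
    refine ⟨haT, fun n k1 k2 k3 => ?_⟩
    rw [← hS.hm] at k3
    have := hS.inj m n hS.hdm.le hS.hmu.le (h1.trans k1.le) (k2.le.trans h3) k3
    omega
  refine ⟨cutT T c lo hi, insert (a, y, L) (cutF F c l lo hi), ?_, ?_, ?_, ?_, haT', ?_, ?_, ?_, ?_⟩
  · intro x hx
    exact (mem_cutT.mp hx).1
  · intro e he
    rcases Finset.mem_insert.mp he with rfl | he
    · exact ⟨haT', mem_cutT.mpr ⟨hS.ymem, h5⟩⟩
    · rw [mem_cutF] at he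
      have h8 : ∀ n, lo < n → n < hi → ¬ (e.1 = c n ∨ e.2.1 = c n) := by
        intro n k1 k2 k3
        rcases hS.inner n (h1.trans_lt k1) (k2.trans_le h3) e he.1 k3 with k4 | k4
        · refine he.2 (n - 1) (by omega) (by omega) ?_
          rw [k4]
          have : n - 1 + 1 = n := by omega
          rw [this]
        · exact he.2 n k1.le k2 k4
      exact ⟨mem_cutT.mpr ⟨(hend e he.1).1, fun n k1 k2 k3 => h8 n k1 k2 (Or.inl k3)⟩,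
        mem_cutT.mpr ⟨(hend e he.1).2, fun n k1 k2 k3 => h8 n k1 k2 (Or.inr k3)⟩⟩
  · intro e he
    rcases Finset.mem_insert.mp he with rfl | he
    · exact ⟨hL, hS.ycon⟩
    · exact hval e (mem_cutF.mp he).1
  · intro x hx z hz L' hL'
    rw [mem_cutT] at hx hz
    apply cut_chain F c l h2 hinj
      (fun n k1 k2 => hS.inner n (h1.trans_lt k1) (k2.trans_le h3)) _ _ _ hx.2 hz.2
      (hconn x hx.1 z hz.1 L' hL')
    · intro e he k
      exact Finset.mem_insert_of_mem (mem_cutF.mpr ⟨he, k⟩)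
    · exact h7 _ (fun e he => Finset.mem_insert_of_mem he) (Finset.mem_insert_self _ _)
  · intro x hx k
    exact mem_cutT.mpr ⟨hx, fun n k1 k2 => k n (h1.trans k1.le) (k2.le.trans h3)⟩
  · intro e he
    rcases Finset.mem_insert.mp he with rfl | he
    · exact Or.inr rfl
    · exact Or.inl (mem_cutF.mp he).1
  · intro e he k
    refine Finset.mem_insert_of_mem (mem_cutF.mpr ⟨he, fun n k1 k2 k3 => ?_⟩)
    refine k n (h1.trans k1) (k2.le.trans h3) ?_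
    rw [k3]
  · have e1 := wt_cutF (F := F) (c := c) (l := l) hinj
      (fun n k1 k2 => hS.link n (h1.trans k1) (k2.trans_le h3))
    have e2 : wt (insert (a, y, L) (cutF F c l lo hi)) ≤ L + wt (cutF F c l lo hi) := by
      unfold wt
      by_cases k : (a, y, L) ∈ cutF F c l lo hi
      · rw [Finset.insert_eq_of_mem k]
        linarith
      · rw [Finset.sum_insert k]
    linarith

/-- other sites are preserved -/
theorem Site.preserve {a₂ y₂ : ℕ} {L₂ : ℝ} {c₂ : ℕ → ℕ} {l₂ : ℕ → ℝ} {d₂ m₂ u₂ : ℕ}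
    (hS : Site w b b' r T F a y L c l d m u)
    (hS₂ : Site w b b' r T F a₂ y₂ L₂ c₂ l₂ d₂ m₂ u₂)
    (hdisj : ∀ n n', d ≤ n → n ≤ u → d₂ ≤ n' → n' ≤ u₂ → c n ≠ c₂ n')
    (hc1 : ∀ n', d₂ ≤ n' → n' ≤ u₂ → y ≠ c₂ n')
    (hc2 : ∀ n, d ≤ n → n ≤ u → y₂ ≠ c n)
    {T' : Finset ℕ} {F' : Finset (ℕ × ℕ × ℝ)}
    (h1 : ∀ x ∈ T, (∀ n, d ≤ n → n ≤ u → x ≠ c n) → x ∈ T')
    (h2 : ∀ e ∈ F', e ∈ F ∨ e = (a, y, L))
    (h3 : ∀ e ∈ F, (∀ n, d ≤ n → n ≤ u → e.1 ≠ c n) → e ∈ F') :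
    Site w b b' r T' F' a₂ y₂ L₂ c₂ l₂ d₂ m₂ u₂ where
  hdm := hS₂.hdm
  hmu := hS₂.hmu
  hm := hS₂.hm
  inj := hS₂.inj
  mem := fun n k1 k2 => h1 _ (hS₂.mem n k1 k2) fun n' k3 k4 k5 => hdisj n' n k3 k4 k1 k2 k5.symm
  link := fun n k1 k2 => h3 _ (hS₂.link n k1 k2)
    fun n' k3 k4 k5 => hdisj n' n k3 k4 k1 k2.le k5.symm
  inner := fun n k1 k2 e he k3 => by
    rcases h2 e he with h | rfl
    · exact hS₂.inner n k1 k2 e h k3
    · exfalso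
      rcases k3 with k3 | k3
      · simp only at k3
        rw [← hS.hm] at k3
        exact hdisj m n hS.hdm.le hS.hmu.le k1.le k2.le k3
      · exact hc1 n k1.le k2.le k3
  near := hS₂.near
  ymem := h1 _ hS₂.ymem hc2
  ycon := hS₂.ycon
  partner := hS₂.partner

end

/-- all surgeries, stronger form -/
theorem surgeries_aux {w : ℕ → ℕ → ℝ} {b b' r : ℝ} (hr : 0 < r)
    (y : ℕ → ℕ) (L : ℕ → ℝ) (c : ℕ → ℕ → ℕ) (l : ℕ → ℕ → ℝ) (d m u : ℕ → ℕ) (K : Finset ℕ) :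
    ∀ (T : Finset ℕ) (F : Finset (ℕ × ℕ × ℝ)),
    (∀ e ∈ F, e.1 ∈ T ∧ e.2.1 ∈ T) →
    (∀ e ∈ F, 0 ≤ e.2.2 ∧ Con w b' e.2.2 e.1 e.2.1) →
    (∀ u ∈ T, ∀ v ∈ T, ∀ L, Con w b' L u v → Link F u v) →
    (∀ a ∈ K, Site w b b' r T F a (y a) (L a) (c a) (l a) (d a) (m a) (u a)) →
    (∀ a ∈ K, ∀ a' ∈ K, a ≠ a' → ∀ n n', d a ≤ n → n ≤ u a → d a' ≤ n' → n' ≤ u a' →
      c a n ≠ c a' n') →
    (∀ a ∈ K, ∀ a' ∈ K, a ≠ a' → ∀ n', d a' ≤ n' → n' ≤ u a' → y a ≠ c a' n') →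
    ∃ T' F', T' ⊆ T ∧ (∀ e ∈ F', e.1 ∈ T' ∧ e.2.1 ∈ T') ∧
      (∀ e ∈ F', 0 ≤ e.2.2 ∧ Con w b' e.2.2 e.1 e.2.1) ∧
      (∀ u ∈ T', ∀ v ∈ T', ∀ L, Con w b' L u v → Link F' u v) ∧
      (∀ a ∈ K, a ∈ T') ∧
      (∀ x ∈ T, (∀ a ∈ K, ∀ n, d a ≤ n → n ≤ u a → x ≠ c a n) → x ∈ T') ∧
      wt F' + (r / 1000) * (K.card : ℝ) ≤ wt F := by
  classical
  induction K using Finset.induction_on with
  | empty =>
    intro T F hend hval hconn _ _ _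
    exact ⟨T, F, subset_rfl, hend, hval, hconn, by simp, fun x hx _ => hx, by simp⟩
  | insert a K haK ih =>
    intro T F hend hval hconn hK hdisj hconf
    have haS := hK a (Finset.mem_insert_self _ _)
    obtain ⟨T₁, F₁, g1, g2, g3, g4, g5, g6, g7, g8, g9⟩ := haS.cut hr hend hval hconn
    obtain ⟨T', F', k1, k2, k3, k4, k5, k6, k7⟩ := ih T₁ F₁ g2 g3 g4
      (fun a₂ ha₂ => by
        have hne : a ≠ a₂ := by rintro rfl; exact haK ha₂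
        exact haS.preserve (hK a₂ (Finset.mem_insert_of_mem ha₂))
          (hdisj a (Finset.mem_insert_self _ _) a₂ (Finset.mem_insert_of_mem ha₂) hne)
          (hconf a (Finset.mem_insert_self _ _) a₂ (Finset.mem_insert_of_mem ha₂) hne)
          (hconf a₂ (Finset.mem_insert_of_mem ha₂) a (Finset.mem_insert_self _ _) hne.symm)
          g6 g7 g8)
      (fun a₁ h₁ a₂ h₂ => hdisj a₁ (Finset.mem_insert_of_mem h₁) a₂ (Finset.mem_insert_of_mem h₂))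
      (fun a₁ h₁ a₂ h₂ => hconf a₁ (Finset.mem_insert_of_mem h₁) a₂ (Finset.mem_insert_of_mem h₂))
    refine ⟨T', F', k1.trans g1, k2, k3, k4, ?_, ?_, ?_⟩
    · intro a₂ h₂
      rcases Finset.mem_insert.mp h₂ with rfl | h₂
      · apply k6 _ g5
        intro a₃ h₃ n n1 n2 n3
        have hne : a₂ ≠ a₃ := by rintro rfl; exact haK h₃
        rw [← haS.hm] at n3
        exact hdisj a₂ (Finset.mem_insert_self _ _) a₃ (Finset.mem_insert_of_mem h₃) hne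
          (m a₂) n haS.hdm.le haS.hmu.le n1 n2 (by rw [haS.hm] at n3 ⊢; exact n3)
      · exact k5 a₂ h₂
    · intro x hx h
      exact k6 x (g6 x hx (h a (Finset.mem_insert_self _ _)))
        fun a₂ h₂ => h a₂ (Finset.mem_insert_of_mem h₂)
    · rw [Finset.card_insert_of_notMem haK]
      push_cast
      linarith

set_option linter.unusedVariables false in
/-- all surgeries, one after the other -/
theorem surgeries {w : ℕ → ℕ → ℝ} {V : Finset ℕ} {b b' r : ℝ} (hG : Gr w V) (hr : 0 < r)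
    (hb : 0 ≤ b) (hbb : b ≤ b') {T : Finset ℕ} {F : Finset (ℕ × ℕ × ℝ)}
    (hend : ∀ e ∈ F, e.1 ∈ T ∧ e.2.1 ∈ T)
    (hval : ∀ e ∈ F, 0 ≤ e.2.2 ∧ Con w b' e.2.2 e.1 e.2.1)
    (hconn : ∀ u ∈ T, ∀ v ∈ T, ∀ L, Con w b' L u v → Link F u v)
    (K : Finset ℕ) (y : ℕ → ℕ) (L : ℕ → ℝ) (c : ℕ → ℕ → ℕ) (l : ℕ → ℕ → ℝ) (d m u : ℕ → ℕ)
    (hK : ∀ a ∈ K, Site w b b' r T F a (y a) (L a) (c a) (l a) (d a) (m a) (u a))
    (hdisj : ∀ a ∈ K, ∀ a' ∈ K, a ≠ a' → ∀ n n', d a ≤ n → n ≤ u a → d a' ≤ n' → n' ≤ u a' →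
      c a n ≠ c a' n')
    (hconf : ∀ a ∈ K, ∀ a' ∈ K, a ≠ a' → ∀ n', d a' ≤ n' → n' ≤ u a' → y a ≠ c a' n') :
    ∃ T' F', T' ⊆ T ∧ (∀ e ∈ F', e.1 ∈ T' ∧ e.2.1 ∈ T') ∧
      (∀ e ∈ F', 0 ≤ e.2.2 ∧ Con w b' e.2.2 e.1 e.2.1) ∧
      (∀ u ∈ T', ∀ v ∈ T', ∀ L, Con w b' L u v → Link F' u v) ∧
      (∀ x ∈ T, ∃ x' ∈ T', Con w b (6 * r) x x') ∧
      wt F' + (r / 1000) * (K.card : ℝ) ≤ wt F := by
  obtain ⟨T', F', k1, k2, k3, k4, k5, k6, k7⟩ :=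
    surgeries_aux hr y L c l d m u K T F hend hval hconn hK hdisj hconf
  refine ⟨T', F', k1, k2, k3, k4, ?_, k7⟩
  intro x hx
  by_cases h : ∀ a ∈ K, ∀ n, d a ≤ n → n ≤ u a → x ≠ c a n
  · exact ⟨x, k6 x hx h, Con.refl (by positivity) x⟩
  · push Not at h
    obtain ⟨a, ha, n, n1, n2, n3⟩ := h
    refine ⟨a, k5 a ha, ?_⟩
    rw [n3]
    exact (hK a ha).near n n1 n2

end Pool.Agent.Lib.MP_ed4bd1_lc
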