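import Pool.Agent.Lib.MP_ed4bd1_lc.Defs

set_option autoImplicit false

namespace Pool.Agent.Lib.MP_ed4bd1_lc

namespace Trim

variable {w : ℕ → ℕ → ℝ} {V : Finset ℕ} {b t ℓ s : ℝ} {T : Finset ℕ} {π : ℕ → ℕ}
    {len : ℕ → ℝ} {h : ℕ → ℕ}

theorem iter_mem (hR : RF w V b t ℓ T π len h) {x : ℕ} (hx : x ∈ T) (n : ℕ) : π^[n] x ∈ T := by
  induction n with
  | zero => simpa using hx
  | succ n ih => rw [Function.iterate_succ_apply']; exact hR.mem _ ih

theorem h_iter (hR : RF w V b t ℓ T π len h) {x : ℕ} (hx : x ∈ T) (n : ℕ) :
    h (π^[n] x) = h x - n := by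
  induction n with
  | zero => simp
  | succ n ih =>
    rw [Function.iterate_succ_apply']
    by_cases hz : π (π^[n] x) = π^[n] x
    · have := hR.root _ (iter_mem hR hx n) hz
      rw [hz]; omega
    · have := hR.hop _ (iter_mem hR hx n) hz
      omega

theorem root_of_h (hR : RF w V b t ℓ T π len h) {x : ℕ} (hx : x ∈ T) (h0 : h x = 0) :
    π x = x := by
  by_contra hne
  have := hR.hop x hx hne
  omega

theorem dep_step (hR : RF w V b t ℓ T π len h) {x : ℕ} (hx : x ∈ T) :
    dep π len h x = len x + dep π len h (π x) := by
  by_cases hz : π x = x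
  · rw [hz, hR.len0 x hx hz]; ring
  · have h1 := hR.hop x hx hz
    unfold dep
    rw [h1, Finset.sum_range_succ', add_comm]
    simp only [Function.iterate_succ_apply, Function.iterate_zero, id_eq]

theorem dep_sum (hR : RF w V b t ℓ T π len h) {x : ℕ} (hx : x ∈ T) (n : ℕ) :
    dep π len h x - dep π len h (π^[n] x) = ∑ k ∈ Finset.range n, len (π^[k] x) := by
  induction n with
  | zero => simp
  | succ n ih =>
    rw [Finset.sum_range_succ, ← ih, Function.iterate_succ_apply']
    have := dep_step hR (iter_mem hR hx n)
    linarith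

theorem con_iter (hR : RF w V b t ℓ T π len h) {x : ℕ} (hx : x ∈ T) (n : ℕ) :
    Con w b (∑ k ∈ Finset.range n, len (π^[k] x)) x (π^[n] x) := by
  induction n with
  | zero => simpa using Con.refl (w := w) (b := b) le_rfl x
  | succ n ih =>
    rw [Finset.sum_range_succ, Function.iterate_succ_apply']
    exact ih.trans (hR.lenb _ (iter_mem hR hx n)).2.2

theorem dep_nonneg_diff (hR : RF w V b t ℓ T π len h) {x : ℕ} (hx : x ∈ T) (n : ℕ) :
    0 ≤ ∑ k ∈ Finset.range n, len (π^[k] x) :=
  Finset.sum_nonneg fun k _ => (hR.lenb _ (iter_mem hR hx k)).1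

open Classical in
theorem main (hs : 0 < s) (hℓ : 0 ≤ ℓ)
    (hR : RF w V b t ℓ T π len h) :
    ∃ T' ⊆ T, RF w V b (t + s + ℓ) ℓ T' π len h ∧
      ∑ x ∈ T', len x + s * ((leaves T' π).card : ℝ) ≤ ∑ x ∈ T, len x := by
  set T' : Finset ℕ := T.filter (fun x => π x = x ∨
    ∃ u ∈ T, ∃ n, π^[n] u = x ∧ s ≤ dep π len h u - dep π len h x) with hT'
  have hsub : T' ⊆ T := Finset.filter_subset _ _
  have hmem : ∀ x ∈ T', π x ∈ T' := by
    intro x hx
    have hxT := hsub hx
    by_cases hz : π x = x
    · rw [hz]; exact hx
    · rw [hT', Finset.mem_filter] at hx ⊢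
      refine ⟨hR.mem x hxT, ?_⟩
      rcases hx.2 with h1 | ⟨u, hu, n, hn, hd⟩
      · exact absurd h1 hz
      · right
        refine ⟨u, hu, n + 1, ?_, ?_⟩
        · rw [Function.iterate_succ_apply', hn]
        · have h1 := dep_step hR hxT
          have h2 := (hR.lenb x hxT).1
          linarith
  have hiter : ∀ x ∈ T', ∀ n, π^[n] x ∈ T' := by
    intro x hx n
    induction n with
    | zero => simpa using hx
    | succ n ih => rw [Function.iterate_succ_apply']; exact hmem _ ih
  have hroot : ∀ x ∈ T, π^[h x] x ∈ T' := by
    intro x hx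
    have h1 := iter_mem hR hx (h x)
    rw [hT', Finset.mem_filter]
    refine ⟨h1, Or.inl (root_of_h hR h1 ?_)⟩
    rw [h_iter hR hx]; omega
  have hex : ∀ x ∈ T, ∃ n, π^[n] x ∈ T' := fun x hx => ⟨_, hroot x hx⟩
  refine ⟨T', hsub, ?_, ?_⟩
  · refine ⟨hsub.trans hR.sub, hmem, fun x hx => hR.hop x (hsub hx), fun x hx => hR.root x (hsub hx),
      fun x hx => hR.len0 x (hsub hx), fun x hx => hR.lenb x (hsub hx),
      fun x hx y hy => hR.conn x (hsub hx) y (hsub hy), ?_⟩
    intro v hv
    obtain ⟨a, ha, hva⟩ := hR.dense v hv
    have hfind := Nat.find_spec (hex a ha)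
    refine ⟨π^[Nat.find (hex a ha)] a, hfind, ?_⟩
    rcases Nat.eq_zero_or_pos (Nat.find (hex a ha)) with h0 | hpos
    · rw [h0]
      exact hva.mono (by linarith)
    · obtain ⟨n, hn⟩ := Nat.exists_eq_succ_of_ne_zero hpos.ne'
      have hnot : π^[n] a ∉ T' := Nat.find_min (hex a ha) (by omega)
      have hlt : dep π len h a - dep π len h (π^[n] a) < s := by
        by_contra hge
        apply hnot
        rw [hT', Finset.mem_filter]
        exact ⟨iter_mem hR ha n, Or.inr ⟨a, ha, n, rfl, not_lt.mp hge⟩⟩
      rw [hn, Nat.succ_eq_add_one, Function.iterate_succ_apply']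
      have hl := hR.lenb _ (iter_mem hR ha n)
      have h1 := (hva.trans (con_iter hR ha n)).trans hl.2.2
      refine h1.mono ?_
      rw [← dep_sum hR ha n]
      linarith [hl.2.1]
  · -- weights
    have hsplit : ∑ x ∈ T, len x = ∑ x ∈ T', len x + ∑ x ∈ T \ T', len x := by
      rw [add_comm, Finset.sum_sdiff hsub]
    rw [hsplit]
    have hgoal : s * ((leaves T' π).card : ℝ) ≤ ∑ x ∈ T \ T', len x := by
      -- first ancestor in T'
      set f : ℕ → ℕ := fun y => if hy : ∃ n, π^[n] y ∈ T' then π^[Nat.find hy] y else 0 with hf
      have hfib : ∀ x ∈ leaves T' π, s ≤ ∑ y ∈ (T \ T').filter (fun y => f y = x), len y := by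
        intro x hx
        unfold leaves at hx
        rw [Finset.mem_filter] at hx
        obtain ⟨hxT', hxr, hxk⟩ := hx
        have hx2 := hxT'
        rw [hT', Finset.mem_filter] at hx2
        rcases hx2.2 with h1 | ⟨u, hu, n, hn, hd⟩
        · exact absurd h1 hxr
        · have hn0 : n ≠ 0 := by
            rintro rfl
            simp only [Function.iterate_zero, id_eq] at hn
            rw [hn] at hd
            linarith
          obtain ⟨m, rfl⟩ := Nat.exists_eq_succ_of_ne_zero hn0
          have hlast : π^[m] u ∉ T' := by
            intro hmem'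
            have : π^[m] u ∈ kids T' π x := by
              unfold kids
              rw [Finset.mem_filter]
              refine ⟨hmem', ?_, ?_⟩
              · rw [← hn, Nat.succ_eq_add_one, Function.iterate_succ_apply']
              · intro he
                apply hxr
                conv_rhs => rw [← hn]
                rw [Nat.succ_eq_add_one, Function.iterate_succ_apply', he]
            rw [hxk] at this
            simp at this
          have hnot : ∀ k, k ≤ m → π^[k] u ∉ T' := by
            intro k hk hmem'
            apply hlast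
            have := hiter _ hmem' (m - k)
            rw [← Function.iterate_add_apply] at this
            rwa [Nat.sub_add_cancel hk] at this
          have hfk : ∀ k, k ≤ m → f (π^[k] u) = x := by
            intro k hk
            have hexk : ∃ n, π^[n] (π^[k] u) ∈ T' := ⟨m + 1 - k, by
              rw [← Function.iterate_add_apply, Nat.sub_add_cancel (by omega)]
              rw [show π^[m+1] u = x from hn]
              exact hxT'⟩
            rw [hf]
            simp only
            rw [dif_pos hexk]
            have hfi : Nat.find hexk = m + 1 - k := by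
              rw [Nat.find_eq_iff]
              refine ⟨?_, ?_⟩
              · rw [← Function.iterate_add_apply, Nat.sub_add_cancel (by omega)]
                rw [show π^[m+1] u = x from hn]
                exact hxT'
              · intro j hj
                rw [← Function.iterate_add_apply]
                exact hnot _ (by omega)
            rw [hfi, ← Function.iterate_add_apply, Nat.sub_add_cancel (by omega)]
            exact hn
          have hhu : ∀ k, k ≤ m → k < h u := by
            intro k hk
            by_contra hge
            apply hnot k hk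
            have h1 : π^[k] u ∈ T := iter_mem hR hu k
            rw [hT', Finset.mem_filter]
            refine ⟨h1, Or.inl (root_of_h hR h1 ?_)⟩
            rw [h_iter hR hu]; omega
          have hinj : Set.InjOn (fun k => π^[k] u) (Finset.range (m + 1) : Set ℕ) := by
            intro k hk k' hk' heq
            simp only [Finset.coe_range, Set.mem_Iio] at hk hk'
            have e1 := h_iter hR hu k
            have e2 := h_iter hR hu k'
            simp only at heq
            rw [heq] at e1
            have := hhu k (by omega)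
            have := hhu k' (by omega)
            omega
          have hsum : ∑ k ∈ Finset.range (m + 1), len (π^[k] u) =
              ∑ y ∈ (Finset.range (m + 1)).image (fun k => π^[k] u), len y := by
            rw [Finset.sum_image hinj]
          have hd' : s ≤ ∑ k ∈ Finset.range (m + 1), len (π^[k] u) := by
            rw [← dep_sum hR hu (m + 1)]
            rw [show π^[m+1] u = x from hn]
            exact hd
          rw [hsum] at hd'
          refine hd'.trans (Finset.sum_le_sum_of_subset_of_nonneg ?_ ?_)
          · intro y hy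
            rw [Finset.mem_image] at hy
            obtain ⟨k, hk, rfl⟩ := hy
            rw [Finset.mem_range] at hk
            rw [Finset.mem_filter, Finset.mem_sdiff]
            exact ⟨⟨iter_mem hR hu k, hnot k (by omega)⟩, hfk k (by omega)⟩
          · intro y hy _
            rw [Finset.mem_filter, Finset.mem_sdiff] at hy
            exact (hR.lenb y hy.1.1).1
      calc s * ((leaves T' π).card : ℝ) = ∑ _x ∈ leaves T' π, s := by
            rw [Finset.sum_const, nsmul_eq_mul, mul_comm]
        _ ≤ ∑ x ∈ leaves T' π, ∑ y ∈ (T \ T').filter (fun y => f y = x), len y :=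
            Finset.sum_le_sum hfib
        _ = ∑ y ∈ (T \ T').filter (fun y => f y ∈ leaves T' π), len y := by
            rw [Finset.sum_fiberwise_eq_sum_filter]
        _ ≤ ∑ y ∈ T \ T', len y := by
            refine Finset.sum_le_sum_of_subset_of_nonneg (Finset.filter_subset _ _) ?_
            intro y hy _
            rw [Finset.mem_sdiff] at hy
            exact (hR.lenb y hy.1).1
    linarith

end Trim

theorem trim {w : ℕ → ℕ → ℝ} {V : Finset ℕ} {b t ℓ s : ℝ} {T : Finset ℕ} {π : ℕ → ℕ}
    {len : ℕ → ℝ} {h : ℕ → ℕ} (hG : Gr w V) (hs : 0 < s) (hℓ : 0 ≤ ℓ)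
    (hR : RF w V b t ℓ T π len h) :
    ∃ T' ⊆ T, RF w V b (t + s + ℓ) ℓ T' π len h ∧
      ∑ x ∈ T', len x + s * ((leaves T' π).card : ℝ) ≤ ∑ x ∈ T, len x :=
  have _ := hG
  Trim.main hs hℓ hR

end Pool.Agent.Lib.MP_ed4bd1_lc
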