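import Pool.Agent.Lib.MP_ed4bd1_lc.Defs

set_option autoImplicit false

/-!
# MP_ed4bd1_lc, module M6: no surgery site nearby gives a good zone (helper9)
-/

namespace Pool.Agent.Lib.MP_ed4bd1_lc

theorem WP.split_aux {w : ℕ → ℕ → ℝ} {b L : ℝ} {u v : ℕ} (h : WP w (Edge w b) L u v) :
    ∀ P : ℝ, 0 ≤ P → P < L →
    ∃ m L1 L2, WP w (Edge w b) L1 u m ∧ WP w (Edge w b) L2 m v ∧ L = L1 + L2 ∧
      P - b < L1 ∧ L1 ≤ P := by
  induction h with
  | nil u =>
    intro P h0 h1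
    exact absurd h1 (not_lt.mpr h0)
  | @cons L u v z hR hW ih =>
    intro P h0 h1
    rcases lt_or_ge P (w u v) with h2 | h2
    · refine ⟨u, 0, w u v + L, WP.nil u, WP.cons hR hW, by ring, ?_, h0⟩
      have := hR.2
      linarith
    · obtain ⟨m, L1, L2, k1, k2, k3, k4, k5⟩ := ih (P - w u v) (by linarith) (by linarith)
      refine ⟨m, w u v + L1, L2, WP.cons hR k1, k2, by rw [k3]; ring, by linarith, by linarith⟩

/-- splitting a walk into short pieces -/
theorem WP.split {w : ℕ → ℕ → ℝ} {b L P : ℝ} {u v : ℕ} (h : WP w (Edge w b) L u v)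
    (hb : 0 ≤ b) (hP : b ≤ P) (hL : P < L) :
    ∃ m L1 L2, WP w (Edge w b) L1 u m ∧ WP w (Edge w b) L2 m v ∧ L = L1 + L2 ∧
      P - b < L1 ∧ L1 ≤ P :=
  h.split_aux P (hb.trans hP) hL

/-- following a walk in short pieces (pieces of length in `(3r-b, 3r]`) -/
theorem follow {w : ℕ → ℕ → ℝ} {b r R : ℝ} {z : ℕ} (hr : 0 < r) (hb : b ≤ r / 10)
    (hb0 : 0 ≤ b) (f : ℕ → ℝ) (Good : ℕ → Prop) {e κ Λ : ℝ} (he : 0 ≤ e) (hκ : 0 ≤ κ)
    (hz : Good z)
    (hΛ : (1 + κ) * R + (R / (2 * r) + 1) * e ≤ Λ)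
    (hstep : ∀ x, Good x → |f x - f z| ≤ Λ → ∀ y, ∀ L, L ≤ 3 * r → Con w b L x y →
      Con w b R z x → Con w b R z y → Good y ∧ |f x - f y| ≤ (1 + κ) * L + e)
    {v : ℕ} {L : ℝ} (hL : L ≤ R) (hv : Con w b L z v) :
    Good v ∧ |f v - f z| ≤ (1 + κ) * L + (L / (2 * r) + 1) * e := by
  have _ := hb0
  have h2r : 0 < 2 * r := by linarith
  -- main induction
  have main : ∀ n : ℕ, ∀ (x : ℕ) (L0 Lr : ℝ), Con w b L0 z x → L0 + Lr ≤ R →
      WP w (Edge w b) Lr x v → Good x → |f x - f z| ≤ (1 + κ) * L0 + L0 / (2 * r) * e →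
      Lr ≤ n * (2 * r) →
      Good v ∧ |f v - f z| ≤ (1 + κ) * (L0 + Lr) + ((L0 + Lr) / (2 * r) + 1) * e := by
    intro n
    induction n with
    | zero =>
      intro x L0 Lr h0 hR hW hg hf hn
      have hLr : 0 ≤ Lr := hW.nonneg (fun _ _ h => h.1.le)
      have hL0 : 0 ≤ L0 := h0.nonneg
      have hle : |f x - f z| ≤ Λ := by
        refine hf.trans (le_trans ?_ hΛ)
        have a1 : (1 + κ) * L0 ≤ (1 + κ) * R :=
          mul_le_mul_of_nonneg_left (by linarith) (by linarith)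
        have a2 : L0 / (2 * r) * e ≤ (R / (2 * r) + 1) * e := by
          apply mul_le_mul_of_nonneg_right _ he
          have : L0 / (2 * r) ≤ R / (2 * r) := div_le_div_of_nonneg_right (by linarith) h2r.le
          linarith
        linarith
      have h3 : Lr ≤ 3 * r := by
        simp only [Nat.cast_zero, zero_mul] at hn
        linarith
      obtain ⟨g1, g2⟩ := hstep x hg hle v Lr h3 ⟨Lr, le_rfl, hW⟩ (h0.mono (by linarith))
        ((h0.trans ⟨Lr, le_rfl, hW⟩).mono hR)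
      refine ⟨g1, ?_⟩
      have a3 : |f v - f z| ≤ |f x - f v| + |f x - f z| := by
        have := abs_sub_le (f v) (f x) (f z)
        rw [abs_sub_comm (f v) (f x)] at this
        exact this
      have a4 : L0 / (2 * r) * e ≤ (L0 + Lr) / (2 * r) * e := by
        apply mul_le_mul_of_nonneg_right _ he
        exact div_le_div_of_nonneg_right (by linarith) h2r.le
      nlinarith
    | succ n ih =>
      intro x L0 Lr h0 hR hW hg hf hn
      have hLr : 0 ≤ Lr := hW.nonneg (fun _ _ h => h.1.le)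
      have hL0 : 0 ≤ L0 := h0.nonneg
      have hle : |f x - f z| ≤ Λ := by
        refine hf.trans (le_trans ?_ hΛ)
        have a1 : (1 + κ) * L0 ≤ (1 + κ) * R :=
          mul_le_mul_of_nonneg_left (by linarith) (by linarith)
        have a2 : L0 / (2 * r) * e ≤ (R / (2 * r) + 1) * e := by
          apply mul_le_mul_of_nonneg_right _ he
          have : L0 / (2 * r) ≤ R / (2 * r) := div_le_div_of_nonneg_right (by linarith) h2r.le
          linarith
        linarith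
      rcases le_or_gt Lr (3 * r) with h3 | h3
      · obtain ⟨g1, g2⟩ := hstep x hg hle v Lr h3 ⟨Lr, le_rfl, hW⟩ (h0.mono (by linarith))
          ((h0.trans ⟨Lr, le_rfl, hW⟩).mono hR)
        refine ⟨g1, ?_⟩
        have a3 : |f v - f z| ≤ |f x - f v| + |f x - f z| := by
          have := abs_sub_le (f v) (f x) (f z)
          rw [abs_sub_comm (f v) (f x)] at this
          exact this
        have a4 : L0 / (2 * r) * e ≤ (L0 + Lr) / (2 * r) * e := by
          apply mul_le_mul_of_nonneg_right _ he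
          exact div_le_div_of_nonneg_right (by linarith) h2r.le
        nlinarith
      · obtain ⟨m, L1, L2, k1, k2, k3, k4, k5⟩ := hW.split_aux (3 * r) (by linarith) h3
        have hL2 : 0 ≤ L2 := k2.nonneg (fun _ _ h => h.1.le)
        have hL1 : 2 * r ≤ L1 := by linarith
        have c1 : Con w b (L0 + L1) z m := h0.trans ⟨L1, le_rfl, k1⟩
        obtain ⟨g1, g2⟩ := hstep x hg hle m L1 k5 ⟨L1, le_rfl, k1⟩ (h0.mono (by linarith))
          (c1.mono (by linarith))
        have a3 : |f m - f z| ≤ |f x - f m| + |f x - f z| := by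
          have := abs_sub_le (f m) (f x) (f z)
          rw [abs_sub_comm (f m) (f x)] at this
          exact this
        have a5 : (1 : ℝ) ≤ L1 / (2 * r) := by rwa [le_div_iff₀ h2r, one_mul]
        have a6 : e ≤ L1 / (2 * r) * e := le_mul_of_one_le_left he a5
        have key : |f m - f z| ≤ (1 + κ) * (L0 + L1) + (L0 + L1) / (2 * r) * e := by
          have a7 : (L0 + L1) / (2 * r) * e = L0 / (2 * r) * e + L1 / (2 * r) * e := by ring
          rw [a7]
          nlinarith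
        have hfin := ih m (L0 + L1) L2 c1 (by linarith) k2 g1 key (by
          push_cast at hn
          nlinarith)
        have e1 : L0 + L1 + L2 = L0 + Lr := by rw [k3]; ring
        rw [e1] at hfin
        exact hfin
  obtain ⟨L', hL', hW⟩ := hv
  have hL0 : 0 ≤ L' := hW.nonneg (fun _ _ h => h.1.le)
  obtain ⟨n, hn⟩ := exists_nat_ge (L' / (2 * r))
  rw [div_le_iff₀ h2r] at hn
  have h1 := main n z 0 L' (Con.refl le_rfl z) (by linarith) hW hz (by simp) hn
  refine ⟨h1.1, h1.2.trans ?_⟩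
  rw [zero_add]
  have a1 : (1 + κ) * L' ≤ (1 + κ) * L := mul_le_mul_of_nonneg_left hL' (by linarith)
  have a2 : (L' / (2 * r) + 1) * e ≤ (L / (2 * r) + 1) * e := by
    apply mul_le_mul_of_nonneg_right _ he
    have : L' / (2 * r) ≤ L / (2 * r) := div_le_div_of_nonneg_right hL' h2r.le
    linarith
  linarith

theorem WP.mem_of_mem {w : ℕ → ℕ → ℝ} {V : Finset ℕ} (hG : Gr w V) {b L : ℝ} {u v : ℕ}
    (h : WP w (Edge w b) L u v) : u ∈ V → v ∈ V := by
  induction h with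
  | nil u => exact id
  | @cons L u v z hR hW ih => exact fun _ => ih (hG.supp _ _ hR.1).2

theorem gz_of_no_site {w : ℕ → ℕ → ℝ} {V : Finset ℕ} {b b' r B ts : ℝ} (hG : Gr w V)
    (hr : 0 < r) (hB : 10 ^ 7 ≤ B) (hb0 : 0 ≤ b) (hbb : b ≤ b') (hb : b' ≤ r / 10000)
    (hts : ts ≤ r / 5000)
    {T : Finset ℕ} (a : ℕ → ℕ) (ha : ∀ v ∈ V, a v ∈ T ∧ Con w b ts v (a v))
    (q : ℕ → ℕ) (D : ℕ → ℝ)
    (hchain : ∀ x ∈ T, ∀ y ∈ T, q x = q y → Con w b |D x - D y| x y)
    {z : ℕ} (hz : z ∈ V)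
    (hno : ∀ x ∈ T, q x = q (a z) → |D x - D (a z)| ≤ 6 * B * r → ∀ y ∈ T, ∀ L, L ≤ 4 * r →
      Con w b' L x y → q y = q (a z) ∧ |D x - D y| ≤ (1 + 1 / 1000) * L + r / 1000) :
    GZ w b b' r (5 * B * r) z := by
  have hts0 : 0 ≤ ts := (ha z hz).2.nonneg
  have hB0 : 0 < B := by linarith [show (0 : ℝ) < 10 ^ 7 by norm_num]
  have hB1 : (1 : ℝ) ≤ B := by linarith [show (1 : ℝ) ≤ 10 ^ 7 by norm_num]
  have hBr : r ≤ B * r := le_mul_of_one_le_left hr.le hB1
  -- the step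
  have step : ∀ x ∈ V, q (a x) = q (a z) → |D (a x) - D (a z)| ≤ 6 * B * r → ∀ y ∈ V, ∀ L,
      L ≤ 3 * r → Con w b' L x y →
      q (a y) = q (a z) ∧ |D (a x) - D (a y)| ≤ (1 + 1 / 1000) * (L + 2 * ts) + r / 1000 := by
    intro x hx hqx hDx y hy L hL hxy
    have h1 := ha x hx
    have h2 := ha y hy
    have h3 : Con w b' (ts + L + ts) (a x) (a y) :=
      (((h1.2.symm hG.symm).monob hbb).trans hxy).trans (h2.2.monob hbb)
    have h4 := hno (a x) h1.1 hqx hDx (a y) h2.1 (ts + L + ts) (by linarith) h3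
    refine ⟨h4.1, h4.2.trans (le_of_eq (by ring))⟩
  have hfol : ∀ v L, L ≤ 5 * B * r → Con w b' L z v →
      (v ∈ V ∧ q (a v) = q (a z)) ∧ |D (a v) - D (a z)| ≤
        (1 + 1 / 1000) * L + (L / (2 * r) + 1) * ((1 + 1 / 1000) * (2 * ts) + r / 1000) := by
    intro v L hL hv
    refine follow (w := w) (b := b') (r := r) (R := 5 * B * r) (z := z) hr (by linarith)
      (hb0.trans hbb) (fun v => D (a v)) (fun v => v ∈ V ∧ q (a v) = q (a z))
      (e := (1 + 1 / 1000) * (2 * ts) + r / 1000) (κ := 1 / 1000) (Λ := 6 * B * r)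
      (by positivity) (by norm_num) ⟨hz, rfl⟩ ?_ ?_ hL hv
    · have e1 : 5 * B * r / (2 * r) = 5 / 2 * B := by field_simp
      rw [e1]
      have e2 : (1 + 1 / 1000) * (2 * ts) + r / 1000 ≤ r / 500 := by linarith
      have e3 : (5 / 2 * B + 1) * ((1 + 1 / 1000) * (2 * ts) + r / 1000) ≤
          (5 / 2 * B + 1) * (r / 500) := mul_le_mul_of_nonneg_left e2 (by linarith)
      nlinarith
    · rintro x ⟨hxV, hqx⟩ hDx y L hL hxy _ _
      have hyV : y ∈ V := by
        obtain ⟨L', _, hW⟩ := hxy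
        exact hW.mem_of_mem hG hxV
      obtain ⟨g1, g2⟩ := step x hxV hqx hDx y hyV L hL hxy
      refine ⟨⟨hyV, g1⟩, g2.trans (le_of_eq (by ring))⟩
  have hfol2 : ∀ v, Con w b' (5 * B * r) z v →
      (v ∈ V ∧ q (a v) = q (a z)) ∧ |D (a v) - D (a z)| ≤ 6 * B * r := by
    intro v hv
    obtain ⟨g1, g2⟩ := hfol v (5 * B * r) le_rfl hv
    refine ⟨g1, g2.trans ?_⟩
    have e1 : 5 * B * r / (2 * r) = 5 / 2 * B := by field_simp
    rw [e1]
    have e2 : (1 + 1 / 1000) * (2 * ts) + r / 1000 ≤ r / 500 := by linarith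
    have e3 : (5 / 2 * B + 1) * ((1 + 1 / 1000) * (2 * ts) + r / 1000) ≤
        (5 / 2 * B + 1) * (r / 500) := mul_le_mul_of_nonneg_left e2 (by linarith)
    nlinarith
  refine ⟨fun v => D (a v), ?_⟩
  intro v v' hv hv'
  obtain ⟨⟨hvV, hqv⟩, hDv⟩ := hfol2 v hv
  obtain ⟨⟨hvV', hqv'⟩, hDv'⟩ := hfol2 v' hv'
  have h1 := ha v hvV
  have h2 := ha v' hvV'
  constructor
  · have h3 := hchain _ h1.1 _ h2.1 (hqv.trans hqv'.symm)
    exact ((h1.2.trans h3).trans (h2.2.symm hG.symm)).mono (by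
      show ts + |D (a v) - D (a v')| + ts ≤ |D (a v) - D (a v')| + r / 100
      linarith)
  · intro L hL hvv
    have hL0 := hvv.nonneg
    obtain ⟨_, g2⟩ := step v hvV hqv hDv v' hvV' L hL hvv
    show |D (a v) - D (a v')| ≤ L + r / 100
    linarith

end Pool.Agent.Lib.MP_ed4bd1_lc
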