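import Pool.Agent.Lib.MP_ed4bd1_lc.Shorten
import Pool.Agent.Lib.MP_ed4bd1_lc.Rooting
import Pool.Agent.Lib.MP_ed4bd1_lc.Trim
import Pool.Agent.Lib.MP_ed4bd1_lc.Branch
import Pool.Agent.Lib.MP_ed4bd1_lc.Chains
import Pool.Agent.Lib.MP_ed4bd1_lc.Zone
import Pool.Agent.Lib.MP_ed4bd1_lc.Pack
import Pool.Agent.Lib.MP_ed4bd1_lc.Surgery
import Pool.Agent.Lib.MP_ed4bd1_lc.BaseG

set_option autoImplicit false

namespace Pool.Agent.Lib.MP_ed4bd1_lc

theorem RF.iter_mem {w : ℕ → ℕ → ℝ} {V : Finset ℕ} {b t ℓ : ℝ} {T : Finset ℕ} {π : ℕ → ℕ}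
    {len : ℕ → ℝ} {h : ℕ → ℕ} (hR : RF w V b t ℓ T π len h) {x : ℕ} (hx : x ∈ T) (n : ℕ) :
    π^[n] x ∈ T := by
  induction n with
  | zero => simpa using hx
  | succ n ih => rw [Function.iterate_succ_apply']; exact hR.mem _ ih

/-- an isolated root of the base graph gives a good zone -/
theorem gz_of_isolated {w : ℕ → ℕ → ℝ} {V : Finset ℕ} {b b' r R ts : ℝ} (hG : Gr w V)
    (hbb : b ≤ b') (hts : ts ≤ r / 5000) (hr : 0 < r) {T : Finset ℕ}
    {F : Finset (ℕ × ℕ × ℝ)}
    (hconn : ∀ u ∈ T, ∀ v ∈ T, ∀ L, Con w b' L u v → Link F u v)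
    (a : ℕ → ℕ) (ha : ∀ v ∈ V, a v ∈ T ∧ Con w b ts v (a v)) {z : ℕ} (hz : z ∈ V)
    (hiso : ∀ y, ¬ Adj F (a z) y) : GZ w b b' r R z := by
  have hV : ∀ v, Con w b' R z v → v ∈ V := by
    intro v hv
    obtain ⟨L', -, hv⟩ := hv
    have : ∀ {L : ℝ} {x y : ℕ}, WP w (Edge w b') L x y → x ∈ V → y ∈ V := by
      intro L x y hxy
      induction hxy with
      | nil u => exact id
      | cons h _ ih => intro _; exact ih (hG.supp _ _ h.1).2
    exact this hv hz
  have key : ∀ v, Con w b' R z v → a v = a z := by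
    intro v hv
    have hvV := hV v hv
    have h1 : Con w b' (ts + R + ts) (a z) (a v) :=
      (((ha z hz).2.symm hG.symm).monob hbb).trans hv |>.trans ((ha v hvV).2.monob hbb)
    have h2 := hconn _ (ha z hz).1 _ (ha v hvV).1 _ h1
    rcases Relation.ReflTransGen.cases_head h2 with h | ⟨c, hc, -⟩
    · exact h.symm
    · exact absurd hc (hiso c)
  refine ⟨fun _ => 0, ?_⟩
  intro v v' hv hv'
  constructor
  · have h1 := (ha v (hV v hv)).2
    have h2 := (ha v' (hV v' hv')).2.symm hG.symm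
    rw [key v hv] at h1
    rw [key v' hv'] at h2
    refine (h1.trans h2).mono ?_
    have : (0:ℝ) ≤ |(0:ℝ) - 0| := abs_nonneg _
    linarith
  · intro L _ hL
    have := hL.nonneg
    simp
    linarith

theorem T1 {w : ℕ → ℕ → ℝ} {V : Finset ℕ} {r B : ℝ} (hG : Gr w V) (hr : 0 < r)
    (hB : 10 ^ 7 ≤ B) {T : Finset ℕ} {F : Finset (ℕ × ℕ × ℝ)}
    (hS : Skel w V (r / (10000 * B)) (7 * r / B) T F)
    (M : Finset (ℕ × ℕ)) (hM : ∀ e ∈ M, Edge w (r / 10000) e.1 e.2)
    (hM2 : ∀ u v, Edge w (r / 10000) u v →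
      Relation.ReflTransGen (fun x y => Edge w (r / (10000 * B)) x y ∨ (x, y) ∈ M ∨ (y, x) ∈ M) u v)
    (Z : Finset ℕ) (hZV : Z ⊆ V)
    (hsep : ∀ z ∈ Z, ∀ z' ∈ Z, z ≠ z' → ¬ Con w (r / (10000 * B)) (9 / 10 * r) z z')
    (hbad : ∀ z ∈ Z, ¬ GZ w (r / (10000 * B)) (r / 10000) r (5 * B * r) z) :
    ∃ T' F', Skel w V (r / 10000) (7 * r) T' F' ∧
      wt F' + r / (10 ^ 6 * B) * (Z.card : ℝ) ≤ wt F + 2 * r * (M.card : ℝ) := by
  classical
  have hB0 : 0 < B := by linarith
  obtain ⟨b, hbdef⟩ : ∃ b, b = r / (10000 * B) := ⟨_, rfl⟩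
  obtain ⟨b', hb'def⟩ : ∃ b', b' = r / 10000 := ⟨_, rfl⟩
  obtain ⟨t, htdef⟩ : ∃ t, t = 7 * r / B := ⟨_, rfl⟩
  rw [← hbdef, ← htdef] at hS
  rw [← hb'def] at hM hM2 hbad ⊢
  rw [← hbdef] at hM2 hsep hbad
  have hb0 : 0 < b := by rw [hbdef]; positivity
  have ht0 : 0 < t := by rw [htdef]; positivity
  have hBr : r / B ≤ r / 10 ^ 7 := by
    apply div_le_div_of_nonneg_left hr.le (by norm_num) hB
  have htr : t ≤ 7 * r / 10 ^ 7 := by
    rw [htdef, mul_div_assoc, mul_div_assoc]; linarith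
  have hbr : b ≤ r / 10 ^ 11 := by
    have : b = (r / B) / 10000 := by rw [hbdef]; field_simp
    rw [this]; linarith
  have hbb : b ≤ b' := by rw [hb'def]; linarith
  obtain ⟨ℓ, hℓdef⟩ : ∃ ℓ, ℓ = 2 * t + b := ⟨_, rfl⟩
  have hℓ0 : 0 ≤ ℓ := by rw [hℓdef]; positivity
  obtain ⟨s, hsdef⟩ : ∃ s, s = r / 10000 := ⟨_, rfl⟩
  have hs0 : 0 < s := by rw [hsdef]; positivity
  obtain ⟨ts, htsdef⟩ : ∃ ts, ts = t + s + ℓ := ⟨_, rfl⟩
  have hts0 : 0 ≤ ts := by rw [htsdef]; positivity
  have hts : ts ≤ r / 5000 := by rw [htsdef, hℓdef, hsdef]; linarith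
  have hℓr : ℓ ≤ r := by rw [hℓdef]; linarith
  -- shorten, root, trim
  obtain ⟨F1, hS1, hw1, hl1⟩ := shorten hG ht0.le hb0.le hS
  rw [← hℓdef] at hl1
  obtain ⟨π, len, h, hRF0, hlen⟩ := rooting hG hℓ0 hS1 hl1
  obtain ⟨T1, hT1T, hRF, htrim⟩ := trim hG hs0 hℓ0 hRF0
  rw [← htsdef] at hRF
  -- representatives
  have ha' : ∀ v, ∃ a, v ∈ V → a ∈ T1 ∧ Con w b ts v a := by
    intro v
    by_cases hv : v ∈ V
    · obtain ⟨a, h1, h2⟩ := hRF.dense v hv
      exact ⟨a, fun _ => ⟨h1, h2⟩⟩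
    · exact ⟨0, fun h => absurd h hv⟩
  choose a ha using ha'
  obtain ⟨hE, hVal, hConn, hW⟩ := base_graph hG hb0.le hbb hts0 hRF a ha M hM hM2
  obtain ⟨F2, hF2⟩ : ∃ F2, F2 = baseF T1 π len a M (b' + 2 * ts) := ⟨_, rfl⟩
  rw [← hF2] at hE hVal hConn hW
  have hF2mem : ∀ e ∈ F2, (e.1 ∈ T1 ∧ π e.1 ≠ e.1 ∧ e = (e.1, π e.1, len e.1)) ∨
      (∃ f ∈ M, e.1 = a f.1 ∧ e.2.1 = a f.2) := by
    intro e he
    rw [hF2, baseF, Finset.mem_union, Finset.mem_image, Finset.mem_image] at he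
    rcases he with ⟨x, hx, rfl⟩ | ⟨f, hf, rfl⟩
    · left
      rw [Finset.mem_filter] at hx
      exact ⟨hx.1, hx.2, rfl⟩
    · right
      exact ⟨f, hf, rfl, rfl⟩
  have hF2tree : ∀ x ∈ T1, π x ≠ x → (x, π x, len x) ∈ F2 := by
    intro x hx hπ
    rw [hF2, baseF, Finset.mem_union, Finset.mem_image]
    left
    exact ⟨x, Finset.mem_filter.2 ⟨hx, hπ⟩, rfl⟩
  -- attachments and breakpoints
  obtain ⟨att, hatt⟩ : ∃ att : Finset ℕ, att = M.image (fun e => a e.1) ∪ M.image (fun e => a e.2) :=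
    ⟨_, rfl⟩
  have hattcard : att.card ≤ 2 * M.card := by
    rw [hatt]
    refine (Finset.card_union_le _ _).trans ?_
    have h1 := Finset.card_image_le (s := M) (f := fun e => a e.1)
    have h2 := Finset.card_image_le (s := M) (f := fun e => a e.2)
    omega
  have hattmem : ∀ f ∈ M, a f.1 ∈ att ∧ a f.2 ∈ att := by
    intro f hf
    rw [hatt]
    exact ⟨Finset.mem_union_left _ (Finset.mem_image_of_mem _ hf),
      Finset.mem_union_right _ (Finset.mem_image_of_mem (fun e : ℕ × ℕ => a e.2) hf)⟩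
  obtain ⟨Qa, hQa⟩ : ∃ Qa : Finset ℕ,
      Qa = T1.filter (fun x => π x = x ∨ (kids T1 π x).card ≠ 1 ∨ x ∈ att) := ⟨_, rfl⟩
  have hQaT : Qa ⊆ T1 := by rw [hQa]; exact Finset.filter_subset _ _
  have hQa1 : ∀ x ∈ T1, x ∉ Qa → π x ≠ x ∧ (kids T1 π x).card = 1 ∧ x ∉ att := by
    intro x hx hxQ
    rw [hQa, Finset.mem_filter] at hxQ
    push Not at hxQ
    have := hxQ hx
    tauto
  obtain ⟨q, i, N, hC⟩ := exists_chains hRF Qa hQaT
    (fun x hx hxQ => ⟨(hQa1 x hx hxQ).1, (hQa1 x hx hxQ).2.1⟩)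
  obtain ⟨D, hD⟩ : ∃ D, D = dep π len h := ⟨_, rfl⟩
  have hchain : ∀ x ∈ T1, ∀ y ∈ T1, q x = q y → Con w b |D x - D y| x y := by
    intro x hx y hy hxy
    rw [hD]
    exact chain_con hG hRF hQaT hC hx hy hxy
  have hqT : ∀ x ∈ T1, q x ∈ T1 := fun x hx => hQaT (hC.mem x hx)
  have hlen0 : ∀ x ∈ T1, 0 ≤ len x := fun x hx => (hRF.lenb x hx).1
  have hDiter : ∀ x ∈ T1, ∀ m n, m ≤ n → D (π^[m] x) - D (π^[n] x) =
      ∑ k ∈ Finset.Ico m n, len (π^[k] x) := by
    intro x hx m n hmn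
    rw [hD]
    exact dep_iter hRF hx hmn
  have hDmono : ∀ x ∈ T1, ∀ m n, m ≤ n → D (π^[n] x) ≤ D (π^[m] x) := by
    intro x hx m n hmn
    have h1 := hDiter x hx m n hmn
    have h2 : 0 ≤ ∑ k ∈ Finset.Ico m n, len (π^[k] x) :=
      Finset.sum_nonneg (fun k _ => hlen0 _ (hRF.iter_mem hx k))
    linarith
  have hDq : ∀ x ∈ T1, D x ≤ D (q x) := by
    intro x hx
    have := hDmono (q x) (hqT x hx) 0 (i x) (Nat.zero_le _)
    rw [hC.iter x hx] at this
    simpa using this
  have hDtop : ∀ x ∈ T1, D (π^[N (q x)] (q x)) ≤ D x := by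
    intro x hx
    have := hDmono (q x) (hqT x hx) (i x) (N (q x)) (hC.lt x hx).le
    rwa [hC.iter x hx] at this
  -- the essential breakpoints
  obtain ⟨Q, hQ⟩ : ∃ Q : Finset ℕ, Q = leaves T1 π ∪ T1.filter (fun x =>
      (π x = x ∧ (kids T1 π x).Nonempty) ∨ 2 ≤ (kids T1 π x).card) ∪ att := ⟨_, rfl⟩
  have hQcard : (Q.card : ℝ) ≤ 2 * (leaves T1 π).card + 2 * M.card := by
    have h1 := branch_count hRF
    have h2 : Q.card ≤ (leaves T1 π).card + (T1.filter (fun x =>
      (π x = x ∧ (kids T1 π x).Nonempty) ∨ 2 ≤ (kids T1 π x).card)).card + att.card := by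
      rw [hQ]
      refine (Finset.card_union_le _ _).trans ?_
      have := Finset.card_union_le (leaves T1 π) (T1.filter (fun x =>
        (π x = x ∧ (kids T1 π x).Nonempty) ∨ 2 ≤ (kids T1 π x).card))
      omega
    have h3 : Q.card ≤ 2 * (leaves T1 π).card + 2 * M.card := by omega
    exact_mod_cast h3
  -- the chain of a bad centre is essential
  have hqQ : ∀ z ∈ Z, q (a z) ∈ Q := by
    intro z hz
    by_contra hnot
    have hzV := hZV hz
    have haz := (ha z hzV).1
    have hp := hC.mem _ haz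
    obtain ⟨p, hpdef⟩ : ∃ p, p = q (a z) := ⟨_, rfl⟩
    rw [← hpdef] at hnot hp
    have hpT := hQaT hp
    rw [hQ, Finset.mem_union, Finset.mem_union, Finset.mem_filter] at hnot
    push Not at hnot
    obtain ⟨⟨hn1, hn2⟩, hn3⟩ := hnot
    have hn2' := hn2 hpT
    rw [hQa, Finset.mem_filter] at hp
    have hroot : π p = p ∧ kids T1 π p = ∅ := by
      by_cases hπ : π p = p
      · refine ⟨hπ, ?_⟩
        have := hn2'.1 hπ
        simpa [Finset.not_nonempty_iff_eq_empty] using this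
      · exfalso
        have hc1 : (kids T1 π p).card ≠ 1 := by
          rcases hp.2 with h | h | h
          · exact absurd h hπ
          · exact h
          · exact absurd h hn3
        have hc2 := hn2'.2
        have hc3 : (kids T1 π p).card = 0 := by omega
        apply hn1
        unfold leaves
        rw [Finset.mem_filter]
        exact ⟨hpT, hπ, Finset.card_eq_zero.1 hc3⟩
    have hazp : a z = p := by
      have := hC.iter _ haz
      rw [← hpdef] at this
      rw [← this]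
      exact Function.iterate_fixed hroot.1 _
    apply hbad z hz
    refine gz_of_isolated hG hbb hts hr hConn a ha hzV ?_
    intro y hy
    rw [hazp] at hy
    obtain ⟨L, hL⟩ := hy
    rcases hL with hL | hL
    · rcases hF2mem _ hL with ⟨-, h1, -⟩ | ⟨f, hf, h1, -⟩
      · exact h1 hroot.1
      · exact hn3 (by simp only at h1; rw [h1]; exact (hattmem f hf).1)
    · rcases hF2mem _ hL with ⟨h0, h1, h2⟩ | ⟨f, hf, -, h1⟩
      · simp only [Prod.mk.injEq, true_and] at h0 h1 h2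
        have : y ∈ kids T1 π p := by
          unfold kids
          rw [Finset.mem_filter]
          exact ⟨h0, h2.1.symm, fun hyp => h1 (by rw [hyp]; exact hroot.1)⟩
        rw [hroot.2] at this
        simp at this
      · exact hn3 (by simp only at h1; rw [h1]; exact (hattmem f hf).2)
  -- surgery sites
  obtain ⟨S, hSdef⟩ : ∃ S : Finset ℕ, S = T1.filter (fun x => 6 * r < D (q x) - D x ∧
      6 * r < D x - D (π^[N (q x)] (q x)) ∧ ∃ y L, y ∈ T1 ∧ L ≤ 4 * r ∧ Con w b' L x y ∧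
        ¬ (q y = q x ∧ |D x - D y| ≤ (1 + 1 / 1000) * L + r / 1000)) := ⟨_, rfl⟩
  have hST : S ⊆ T1 := by rw [hSdef]; exact Finset.filter_subset _ _
  obtain ⟨Bs, hBsS, hBs1, hBs2⟩ := exists_maximal_sep S
    (fun x y => q x = q y ∧ |D x - D y| ≤ 12 * r)
    (fun x y hxy => ⟨hxy.1.symm, by rw [abs_sub_comm]; exact hxy.2⟩)
    (fun x _ => ⟨rfl, by simp; linarith⟩)
  have hsite : ∀ x, ∃ d u y L, x ∈ S → d < i x ∧ i x < u ∧ u < N (q x) ∧
      5 * r ≤ ∑ n ∈ Finset.Ico d (i x), len (π^[n] (q x)) ∧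
      ∑ n ∈ Finset.Ico d (i x), len (π^[n] (q x)) ≤ 6 * r ∧
      5 * r ≤ ∑ n ∈ Finset.Ico (i x) u, len (π^[n] (q x)) ∧
      ∑ n ∈ Finset.Ico (i x) u, len (π^[n] (q x)) ≤ 6 * r ∧
      y ∈ T1 ∧ L ≤ 4 * r ∧ Con w b' L x y ∧
      ¬ (q y = q x ∧ |D x - D y| ≤ (1 + 1 / 1000) * L + r / 1000) := by
    intro x
    by_cases hx : x ∈ S
    · have hx' := hx
      rw [hSdef, Finset.mem_filter] at hx'
      obtain ⟨hxT, h1, h2, y, L, h3⟩ := hx'
      rw [hD] at h1 h2
      obtain ⟨d, u, hdu⟩ := window hRF hQaT hC hℓr hr hxT h1 h2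
      exact ⟨d, u, y, L, fun _ => ⟨hdu.1, hdu.2.1, hdu.2.2.1, hdu.2.2.2.1, hdu.2.2.2.2.1,
        hdu.2.2.2.2.2.1, hdu.2.2.2.2.2.2, h3⟩⟩
    · exact ⟨0, 0, 0, 0, fun h => absurd h hx⟩
  choose d u y L hsite using hsite
  -- depths in the window
  have hwin : ∀ x ∈ S, ∀ n, d x ≤ n → n ≤ u x → |D (π^[n] (q x)) - D x| ≤ 6 * r := by
    intro x hx n hn1 hn2
    obtain ⟨h1, h2, h3, h4, h5, h6, h7, -⟩ := hsite x hx
    have hxT := hST hx
    have hqx := hqT x hxT
    rcases le_total n (i x) with hni | hni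
    · have e1 := hDiter _ hqx n (i x) hni
      rw [hC.iter x hxT] at e1
      have e2 : ∑ k ∈ Finset.Ico n (i x), len (π^[k] (q x)) ≤
          ∑ k ∈ Finset.Ico (d x) (i x), len (π^[k] (q x)) := by
        apply Finset.sum_le_sum_of_subset_of_nonneg
        · exact Finset.Ico_subset_Ico_left hn1
        · intro k _ _; exact hlen0 _ (hRF.iter_mem hqx k)
      have e3 : 0 ≤ ∑ k ∈ Finset.Ico n (i x), len (π^[k] (q x)) :=
        Finset.sum_nonneg (fun k _ => hlen0 _ (hRF.iter_mem hqx k))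
      rw [abs_le]; constructor <;> linarith
    · have e1 := hDiter _ hqx (i x) n hni
      rw [hC.iter x hxT] at e1
      have e2 : ∑ k ∈ Finset.Ico (i x) n, len (π^[k] (q x)) ≤
          ∑ k ∈ Finset.Ico (i x) (u x), len (π^[k] (q x)) := by
        apply Finset.sum_le_sum_of_subset_of_nonneg
        · exact Finset.Ico_subset_Ico_right hn2
        · intro k _ _; exact hlen0 _ (hRF.iter_mem hqx k)
      have e3 : 0 ≤ ∑ k ∈ Finset.Ico (i x) n, len (π^[k] (q x)) :=
        Finset.sum_nonneg (fun k _ => hlen0 _ (hRF.iter_mem hqx k))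
      rw [abs_le]; constructor <;> linarith
  have hdisj : ∀ x ∈ Bs, ∀ x' ∈ Bs, x ≠ x' → ∀ n n', d x ≤ n → n ≤ u x → d x' ≤ n' →
      n' ≤ u x' → π^[n] (q x) ≠ π^[n'] (q x') := by
    intro x hx x' hx' hne n n' hn1 hn2 hn1' hn2' heq
    apply hBs1 x hx x' hx' hne
    have hxS := hBsS hx
    have hxS' := hBsS hx'
    have h1 := hC.uniq _ (hC.mem _ (hST hxS)) n (hn2.trans_lt (hsite x hxS).2.2.1)
    have h2 := hC.uniq _ (hC.mem _ (hST hxS')) n' (hn2'.trans_lt (hsite x' hxS').2.2.1)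
    have h3 := hwin x hxS n hn1 hn2
    have h4 := hwin x' hxS' n' hn1' hn2'
    constructor
    · rw [← h1.1, heq, h2.1]
    · rw [heq] at h3
      rw [abs_le] at *
      constructor <;> linarith [h3.1, h3.2, h4.1, h4.2]
  -- independent set
  obtain ⟨K, hKB, hKcard, hKind⟩ := exists_independent Bs
    (fun x x' => ∃ n', d x' ≤ n' ∧ n' ≤ u x' ∧ y x = π^[n'] (q x')) (by
      intro x hx x1 hx1 x2 hx2 _ _ h1 h2
      obtain ⟨n1, h11, h12, h13⟩ := h1
      obtain ⟨n2, h21, h22, h23⟩ := h2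
      by_contra hne
      exact hdisj x1 hx1 x2 hx2 hne n1 n2 h11 h12 h21 h22 (h13.symm.trans h23))
  -- all sites
  have hKsite : ∀ x ∈ K, Site w b b' r T1 F2 x (y x) (L x) (fun n => π^[n] (q x))
      (fun n => len (π^[n] (q x))) (d x) (i x) (u x) := by
    intro x hx
    have hxS := hBsS (hKB hx)
    have hxT := hST hxS
    have hqx := hqT x hxT
    obtain ⟨h1, h2, h3, h4, h5, h6, h7, h8, h9, h10, h11⟩ := hsite x hxS
    have hinj : ∀ n n', n ≤ u x → n' ≤ u x → π^[n] (q x) = π^[n'] (q x) → n = n' := by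
      intro n n' hn hn' heq
      have e1 := (hC.uniq _ (hC.mem _ hxT) n (hn.trans_lt h3)).2
      have e2 := (hC.uniq _ (hC.mem _ hxT) n' (hn'.trans_lt h3)).2
      rw [← e1, heq, e2]
    have hnofix : ∀ n, n < u x → π (π^[n] (q x)) ≠ π^[n] (q x) := by
      intro n hn heq
      have := hinj (n + 1) n hn hn.le (by rw [Function.iterate_succ_apply']; exact heq)
      omega
    refine ⟨h1, h2, hC.iter x hxT, ?_, ?_, ?_, ?_, ?_, h8, h10, ?_⟩
    · intro n n' _ hn _ hn' heq
      exact hinj n n' hn hn' heq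
    · intro n _ _
      exact hRF.iter_mem hqx n
    · intro n _ hn
      have := hF2tree _ (hRF.iter_mem hqx n) (hnofix n hn)
      simpa only [Function.iterate_succ_apply'] using this
    · intro n hn1 hn2 e he htouch
      have hcn : π^[n] (q x) ∉ Qa := hC.inner _ (hC.mem _ hxT) n (by omega) (by omega)
      obtain ⟨k1, k2, k3⟩ := hQa1 _ (hRF.iter_mem hqx n) hcn
      try simp only at htouch
      rcases hF2mem e he with ⟨g1, g2, g3⟩ | ⟨f, hf, g1, g2⟩
      · rcases htouch with ht | ht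
        · right
          rw [g3, ht, Function.iterate_succ_apply']
        · left
          have g4 : e.2.1 = π e.1 := by
            have := congrArg (fun e : ℕ × ℕ × ℝ => e.2.1) g3
            simpa using this
          have hk1 : e.1 ∈ kids T1 π (π^[n] (q x)) := by
            unfold kids
            rw [Finset.mem_filter]
            refine ⟨g1, by rw [← g4]; exact ht, ?_⟩
            intro hh
            apply g2
            rw [← g4, ht, hh]
          have hsucc : π (π^[n - 1] (q x)) = π^[n] (q x) := by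
            rw [← Function.iterate_succ_apply' π (n - 1)]
            congr 2
            omega
          have hk2 : π^[n - 1] (q x) ∈ kids T1 π (π^[n] (q x)) := by
            unfold kids
            rw [Finset.mem_filter]
            refine ⟨hRF.iter_mem hqx _, hsucc, ?_⟩
            intro hh
            have := hinj (n - 1) n (by omega) (by omega) hh
            omega
          obtain ⟨x0, hx0⟩ := Finset.card_eq_one.1 k2
          rw [hx0, Finset.mem_singleton] at hk1 hk2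
          have hk3 : e.1 = π^[n - 1] (q x) := by rw [hk1, hk2]
          rw [g3, hk3, hsucc]
      · exfalso
        rcases htouch with ht | ht
        · apply k3
          rw [← ht, g1]
          exact (hattmem f hf).1
        · apply k3
          rw [← ht, g2]
          exact (hattmem f hf).2
    · intro n hn1 hn2
      have e1 := hchain _ (hRF.iter_mem hqx n) _ hxT
        (hC.uniq _ (hC.mem _ hxT) n (hn2.trans_lt h3)).1
      exact e1.mono (hwin x hxS n hn1 hn2)
    · have hL0 := h10.nonneg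
      by_cases hyw : ∃ n, d x ≤ n ∧ n ≤ u x ∧ y x = π^[n] (q x)
      · obtain ⟨n, hn1, hn2, hyn⟩ := hyw
        have hqy : q (y x) = q x := by
          rw [hyn]; exact (hC.uniq _ (hC.mem _ hxT) n (hn2.trans_lt h3)).1
        have hlt : (1 + 1 / 1000) * L x + r / 1000 < |D x - D (y x)| := by
          by_contra hle
          push Not at hle
          exact h11 ⟨hqy, hle⟩
        have hge : L x + r / 1000 ≤ |D x - D (y x)| := by linarith
        rcases le_total n (i x) with hni | hni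
        · left
          refine ⟨n, hn1, hni, hyn, ?_⟩
          have e1 := hDiter _ hqx n (i x) hni
          rw [hC.iter x hxT, ← hyn] at e1
          have e3 : 0 ≤ ∑ k ∈ Finset.Ico n (i x), len (π^[k] (q x)) :=
            Finset.sum_nonneg (fun k _ => hlen0 _ (hRF.iter_mem hqx k))
          rw [abs_sub_comm, e1, abs_of_nonneg e3] at hge
          exact hge
        · right; left
          refine ⟨n, hni, hn2, hyn, ?_⟩
          have e1 := hDiter _ hqx (i x) n hni
          rw [hC.iter x hxT, ← hyn] at e1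
          have e3 : 0 ≤ ∑ k ∈ Finset.Ico (i x) n, len (π^[k] (q x)) :=
            Finset.sum_nonneg (fun k _ => hlen0 _ (hRF.iter_mem hqx k))
          rw [e1, abs_of_nonneg e3] at hge
          exact hge
      · right; right
        refine ⟨?_, h9, h4, h6⟩
        intro n hn1 hn2 hyn
        exact hyw ⟨n, hn1, hn2, hyn⟩
  obtain ⟨T', F', hT'1, hE', hVal', hConn', hDense', hW'⟩ := surgeries hG hr hb0.le hbb hE hVal hConn K
    y L (fun x n => π^[n] (q x)) (fun x n => len (π^[n] (q x))) d i u hKsite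
    (fun x hx x' hx' hne n n' => hdisj x (hKB hx) x' (hKB hx') hne n n')
    (by
      intro x hx x' hx' hne n' hn1 hn2 heq
      exact hKind x hx x' hx' hne ⟨n', hn1, hn2, heq⟩)
  -- the counting
  have hcount : (Z.card : ℝ) ≤ 18 * B * Q.card + 16 * B * Bs.card := by
    have hcov : Z ⊆ (Q.biUnion (fun p => Z.filter (fun z => q (a z) = p ∧ D p - 7 * B * r ≤ D (a z) ∧
          D (a z) ≤ D p - 7 * B * r + 7 * B * r) ∪
        Z.filter (fun z => q (a z) = p ∧ D (π^[N p] p) ≤ D (a z) ∧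
          D (a z) ≤ D (π^[N p] p) + 7 * B * r))) ∪
        (Bs.biUnion (fun k => Z.filter (fun z => q (a z) = q k ∧
          D k - (6 * B + 12) * r ≤ D (a z) ∧
          D (a z) ≤ D k - (6 * B + 12) * r + 2 * ((6 * B + 12) * r)))) := by
      intro z hz
      have hzV := hZV hz
      have haz := (ha z hzV).1
      rw [Finset.mem_union, Finset.mem_biUnion, Finset.mem_biUnion]
      by_cases hA : D (q (a z)) - D (a z) ≤ 7 * B * r
      · left
        refine ⟨q (a z), hqQ z hz, ?_⟩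
        rw [Finset.mem_union, Finset.mem_filter]
        left
        have := hDq _ haz
        exact ⟨hz, rfl, by linarith, by linarith⟩
      by_cases hB' : D (a z) - D (π^[N (q (a z))] (q (a z))) ≤ 7 * B * r
      · left
        refine ⟨q (a z), hqQ z hz, ?_⟩
        rw [Finset.mem_union, Finset.mem_filter, Finset.mem_filter]
        right
        have := hDtop _ haz
        exact ⟨hz, rfl, by linarith, by linarith⟩
      push Not at hA hB'
      right
      -- there is a site nearby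
      have hex : ∃ x ∈ T1, q x = q (a z) ∧ |D x - D (a z)| ≤ 6 * B * r ∧ ∃ y ∈ T1, ∃ L, L ≤ 4 * r ∧
          Con w b' L x y ∧ ¬ (q y = q (a z) ∧ |D x - D y| ≤ (1 + 1 / 1000) * L + r / 1000) := by
        by_contra hno
        push Not at hno
        apply hbad z hz
        refine gz_of_no_site hG hr hB hb0.le hbb (by rw [hb'def]) hts a ha q D hchain hzV ?_
        intro x hx hqx hDx y hy L hL hcon
        exact hno x hx hqx hDx y hy L hL hcon
      obtain ⟨x, hxT, hqx, hDx, y0, hy0, L0, hL0, hcon, hnot⟩ := hex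
      have hDx' := abs_le.1 hDx
      have hBr2 : 6 * r ≤ B * r := by nlinarith
      have hxS : x ∈ S := by
        rw [hSdef, Finset.mem_filter]
        refine ⟨hxT, ?_, ?_, y0, L0, hy0, hL0, hcon, ?_⟩
        · rw [hqx]; linarith [hDx'.1, hDx'.2]
        · rw [hqx]; linarith [hDx'.1, hDx'.2]
        · rw [hqx]; exact hnot
      obtain ⟨k, hk, hk1, hk2⟩ := hBs2 x hxS
      refine ⟨k, hk, ?_⟩
      rw [Finset.mem_filter]
      have hk2' := abs_le.1 hk2
      refine ⟨hz, by rw [← hqx, hk1], ?_, ?_⟩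
      · linarith [hDx'.1, hDx'.2, hk2'.1, hk2'.2]
      · linarith [hDx'.1, hDx'.2, hk2'.1, hk2'.2]
    have hBr0 : 0 ≤ 7 * B * r := by positivity
    have hsepf : ∀ (P : ℕ → Prop) [DecidablePred P], ∀ z ∈ Z.filter P, ∀ z' ∈ Z.filter P, z ≠ z' →
        ¬ Con w b (9 / 10 * r) z z' := by
      intro P _ z hz z' hz' hne
      exact hsep z (Finset.mem_filter.1 hz).1 z' (Finset.mem_filter.1 hz').1 hne
    have hsubf : ∀ (P : ℕ → Prop) [DecidablePred P], Z.filter P ⊆ V := by
      intro P _ z hz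
      exact hZV (Finset.mem_filter.1 hz).1
    have c1 : ∀ p ∈ Q, ((Z.filter (fun z => q (a z) = p ∧ D p - 7 * B * r ≤ D (a z) ∧
          D (a z) ≤ D p - 7 * B * r + 7 * B * r) ∪
        Z.filter (fun z => q (a z) = p ∧ D (π^[N p] p) ≤ D (a z) ∧
          D (a z) ≤ D (π^[N p] p) + 7 * B * r)).card : ℝ) ≤ 18 * B := by
      intro p _
      have e1 := chain_pack hG hr hts a ha q D hchain
        (Z.filter (fun z => q (a z) = p ∧ D p - 7 * B * r ≤ D (a z) ∧
          D (a z) ≤ D p - 7 * B * r + 7 * B * r)) (hsubf _) (hsepf _) (p := p)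
        (α := D p - 7 * B * r) (lam := 7 * B * r) hBr0
        (fun z hz => (Finset.mem_filter.1 hz).2)
      have e2 := chain_pack hG hr hts a ha q D hchain
        (Z.filter (fun z => q (a z) = p ∧ D (π^[N p] p) ≤ D (a z) ∧
          D (a z) ≤ D (π^[N p] p) + 7 * B * r)) (hsubf _) (hsepf _) (p := p)
        (α := D (π^[N p] p)) (lam := 7 * B * r) hBr0
        (fun z hz => (Finset.mem_filter.1 hz).2)
      have e3 : (7 * B * r) / (4 / 5 * r) = 35 / 4 * B := by field_simp; ring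
      rw [e3] at e1 e2
      have e4 := Finset.card_union_le (Z.filter (fun z => q (a z) = p ∧ D p - 7 * B * r ≤ D (a z) ∧
          D (a z) ≤ D p - 7 * B * r + 7 * B * r)) (Z.filter (fun z => q (a z) = p ∧
          D (π^[N p] p) ≤ D (a z) ∧ D (a z) ≤ D (π^[N p] p) + 7 * B * r))
      have e5 : ((Z.filter (fun z => q (a z) = p ∧ D p - 7 * B * r ≤ D (a z) ∧
          D (a z) ≤ D p - 7 * B * r + 7 * B * r) ∪
        Z.filter (fun z => q (a z) = p ∧ D (π^[N p] p) ≤ D (a z) ∧
          D (a z) ≤ D (π^[N p] p) + 7 * B * r)).card : ℝ) ≤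
          ((Z.filter (fun z => q (a z) = p ∧ D p - 7 * B * r ≤ D (a z) ∧
          D (a z) ≤ D p - 7 * B * r + 7 * B * r)).card : ℝ) +
          ((Z.filter (fun z => q (a z) = p ∧ D (π^[N p] p) ≤ D (a z) ∧
          D (a z) ≤ D (π^[N p] p) + 7 * B * r)).card : ℝ) := by exact_mod_cast e4
      linarith
    have c2 : ∀ k ∈ Bs, ((Z.filter (fun z => q (a z) = q k ∧
          D k - (6 * B + 12) * r ≤ D (a z) ∧
          D (a z) ≤ D k - (6 * B + 12) * r + 2 * ((6 * B + 12) * r))).card : ℝ) ≤ 16 * B := by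
      intro k _
      have e1 := chain_pack hG hr hts a ha q D hchain
        (Z.filter (fun z => q (a z) = q k ∧ D k - (6 * B + 12) * r ≤ D (a z) ∧
          D (a z) ≤ D k - (6 * B + 12) * r + 2 * ((6 * B + 12) * r))) (hsubf _) (hsepf _) (p := q k)
        (α := D k - (6 * B + 12) * r) (lam := 2 * ((6 * B + 12) * r)) (by positivity)
        (fun z hz => (Finset.mem_filter.1 hz).2)
      have e3 : (2 * ((6 * B + 12) * r)) / (4 / 5 * r) = 5 / 2 * (6 * B + 12) := by
        field_simp; ring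
      rw [e3] at e1
      linarith
    have hle := Finset.card_le_card hcov
    have h1 := Finset.card_union_le (Q.biUnion (fun p => Z.filter (fun z => q (a z) = p ∧
          D p - 7 * B * r ≤ D (a z) ∧ D (a z) ≤ D p - 7 * B * r + 7 * B * r) ∪
        Z.filter (fun z => q (a z) = p ∧ D (π^[N p] p) ≤ D (a z) ∧
          D (a z) ≤ D (π^[N p] p) + 7 * B * r)))
        (Bs.biUnion (fun k => Z.filter (fun z => q (a z) = q k ∧
          D k - (6 * B + 12) * r ≤ D (a z) ∧
          D (a z) ≤ D k - (6 * B + 12) * r + 2 * ((6 * B + 12) * r))))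
    have h2 := Finset.card_biUnion_le (s := Q) (t := fun p => Z.filter (fun z => q (a z) = p ∧
          D p - 7 * B * r ≤ D (a z) ∧ D (a z) ≤ D p - 7 * B * r + 7 * B * r) ∪
        Z.filter (fun z => q (a z) = p ∧ D (π^[N p] p) ≤ D (a z) ∧
          D (a z) ≤ D (π^[N p] p) + 7 * B * r))
    have h3 := Finset.card_biUnion_le (s := Bs) (t := fun k => Z.filter (fun z => q (a z) = q k ∧
          D k - (6 * B + 12) * r ≤ D (a z) ∧
          D (a z) ≤ D k - (6 * B + 12) * r + 2 * ((6 * B + 12) * r)))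
    have h4 : (Z.card : ℝ) ≤ ∑ p ∈ Q, ((Z.filter (fun z => q (a z) = p ∧
          D p - 7 * B * r ≤ D (a z) ∧ D (a z) ≤ D p - 7 * B * r + 7 * B * r) ∪
        Z.filter (fun z => q (a z) = p ∧ D (π^[N p] p) ≤ D (a z) ∧
          D (a z) ≤ D (π^[N p] p) + 7 * B * r)).card : ℝ) +
        ∑ k ∈ Bs, ((Z.filter (fun z => q (a z) = q k ∧
          D k - (6 * B + 12) * r ≤ D (a z) ∧
          D (a z) ≤ D k - (6 * B + 12) * r + 2 * ((6 * B + 12) * r))).card : ℝ) := by
      exact_mod_cast hle.trans (h1.trans (Nat.add_le_add h2 h3))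
    have h5 := Finset.sum_le_sum c1
    have h6 := Finset.sum_le_sum c2
    rw [Finset.sum_const, nsmul_eq_mul] at h5 h6
    linarith
  refine ⟨T', F', ⟨?_, hE', hVal', hConn', ?_⟩, ?_⟩
  · exact hT'1.trans (hRF.sub)
  · intro v hv
    obtain ⟨x', hx', hcon⟩ := hDense' _ (ha v hv).1
    exact ⟨x', hx', (((ha v hv).2.trans hcon).monob hbb).mono (by linarith)⟩
  · have hBs3 : (Bs.card : ℝ) ≤ 3 * K.card := by exact_mod_cast hKcard
    have hZ1 : (Z.card : ℝ) ≤ B * (36 * (leaves T1 π).card + 36 * M.card + 48 * K.card) := by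
      have : 18 * B * (Q.card : ℝ) ≤ 18 * B * (2 * (leaves T1 π).card + 2 * M.card) :=
        mul_le_mul_of_nonneg_left hQcard (by positivity)
      have h2 : 16 * B * (Bs.card : ℝ) ≤ 16 * B * (3 * K.card) :=
        mul_le_mul_of_nonneg_left hBs3 (by positivity)
      linarith
    have hZ2 : r / (10 ^ 6 * B) * (Z.card : ℝ) ≤
        r / 10 ^ 6 * (36 * (leaves T1 π).card + 36 * M.card + 48 * K.card) := by
      have e : r / (10 ^ 6 * B) * (B * (36 * ((leaves T1 π).card : ℝ) + 36 * M.card +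
          48 * K.card)) = r / 10 ^ 6 * (36 * (leaves T1 π).card + 36 * M.card + 48 * K.card) := by
        field_simp
      rw [← e]
      exact mul_le_mul_of_nonneg_left hZ1 (by positivity)
    have hM0 : (0:ℝ) ≤ (M.card : ℝ) := Nat.cast_nonneg _
    have hK0 : (0:ℝ) ≤ (K.card : ℝ) := Nat.cast_nonneg _
    have hlv0 : (0:ℝ) ≤ ((leaves T1 π).card : ℝ) := Nat.cast_nonneg _
    have e1 : (b' + 2 * ts) * (M.card : ℝ) ≤ (3 / 2 * r) * M.card :=
      mul_le_mul_of_nonneg_right (by rw [hb'def]; linarith) hM0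
    have e2 : r / 10000 * ((leaves T1 π).card : ℝ) ≥ r / 10 ^ 6 * (36 * (leaves T1 π).card) := by
      have : 0 ≤ r * ((leaves T1 π).card : ℝ) := by positivity
      nlinarith
    have e3 : r / 1000 * (K.card : ℝ) ≥ r / 10 ^ 6 * (48 * K.card) := by
      have : 0 ≤ r * (K.card : ℝ) := by positivity
      nlinarith
    have e4 : r / 10 ^ 6 * (36 * (M.card : ℝ)) ≤ 1 / 2 * r * M.card := by
      have : 0 ≤ r * (M.card : ℝ) := by positivity
      nlinarith
    rw [hsdef] at htrim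
    linarith [htrim, hlen, hw1, hW, hW', hZ2, e1, e2, e3, e4]

end Pool.Agent.Lib.MP_ed4bd1_lc
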