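import Pool.Agent.Lib.MP_ed4bd1_lc.Defs

set_option autoImplicit false

namespace Pool.Agent.Lib.MP_ed4bd1_lc

/-! ## M12: the forest argument -/

/-- following a walk with a coordinate that is 1-Lipschitz up to an error on short pieces -/
theorem T2_walk {w : ℕ → ℕ → ℝ} {b r R : ℝ} {z : ℕ} (hr : 0 < r)
    (hb : b ≤ r / 10) (u : ℕ → ℝ) {e : ℝ}
    (hu : ∀ x y, Con w b R z x → Con w b R z y → ∀ L, L ≤ 3 * r → Con w b L x y →
      |u x - u y| ≤ L + e)
    {x y : ℕ} {L : ℝ} (h : WP w (Edge w b) L x y) :
    ∀ L0, 0 ≤ L0 → L0 + L ≤ R → Con w b L0 z x →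
      ∃ k : ℕ, ∃ m L1, WP w (Edge w b) L1 x m ∧ L1 ≤ 2 * r ∧ Con w b (L0 + L1) z m ∧
        |u m - u y| ≤ (L - L1) + k * e ∧ (k : ℝ) * r ≤ (L - L1) := by
  induction h with
  | nil x =>
    intro L0 h0 h1 h2
    exact ⟨0, x, 0, WP.nil x, by linarith, by simpa using h2, by simp, by simp⟩
  | @cons L x v y hR h ih =>
    intro L0 h0 h1 h2
    have hv : Con w b (L0 + w x v) z v := h2.trans (Con.single hR)
    have hwpos : 0 < w x v := hR.1
    have hwb : w x v ≤ b := hR.2
    obtain ⟨k, m, L1, hm, hL1, hzm, hum, hk⟩ := ih (L0 + w x v) (by linarith) (by linarith) hv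
    have hL1n : 0 ≤ L1 := hm.nonneg (fun _ _ h => h.1.le)
    by_cases hc : w x v + L1 ≤ 2 * r
    · exact ⟨k, m, w x v + L1, WP.cons hR hm, hc, by rw [← add_assoc]; exact hzm,
        by linarith, by linarith⟩
    · push Not at hc
      refine ⟨k + 1, x, 0, WP.nil x, by linarith, by simpa using h2, ?_, ?_⟩
      · have hLn : 0 ≤ (k:ℝ) * r := by positivity
        have hxm : Con w b (w x v + L1) x m := ⟨_, le_rfl, WP.cons hR hm⟩
        have h3 := hu x m (h2.mono (by linarith)) (hzm.mono (by linarith)) (w x v + L1)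
          (by linarith) hxm
        have h4 : |u x - u y| ≤ |u x - u m| + |u m - u y| := abs_sub_le _ _ _
        push_cast
        linarith
      · push_cast
        linarith

theorem T2_far {w : ℕ → ℕ → ℝ} {b r R : ℝ} {z : ℕ} (hr : 0 < r)
    (hb : b ≤ r / 10) (u : ℕ → ℝ) {e : ℝ} (he : 0 ≤ e)
    (hu : ∀ x y, Con w b R z x → Con w b R z y → ∀ L, L ≤ 3 * r → Con w b L x y →
      |u x - u y| ≤ L + e) {L : ℝ} (hL : L ≤ R) {y : ℕ} (h : Con w b L z y) :
    |u z - u y| ≤ L + (L / r + 1) * e := by
  obtain ⟨L', hL', h⟩ := h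
  have hL'0 : 0 ≤ L' := h.nonneg (fun _ _ h => h.1.le)
  have hR0 : 0 ≤ R := by linarith
  obtain ⟨k, m, L1, hm, hL1, hzm, hum, hk⟩ := T2_walk hr hb u hu h 0 le_rfl (by linarith)
    (Con.refl le_rfl z)
  have hL1n : 0 ≤ L1 := hm.nonneg (fun _ _ h => h.1.le)
  have hkr : 0 ≤ (k:ℝ) * r := by positivity
  have h3 := hu z m (Con.refl hR0 z) (hzm.mono (by linarith)) L1 (by linarith)
    ⟨L1, le_rfl, hm⟩
  have h4 : |u z - u y| ≤ |u z - u m| + |u m - u y| := abs_sub_le _ _ _
  have h5 : (k : ℝ) ≤ L / r := by
    rw [le_div_iff₀ hr]; linarith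
  have h6 : (k:ℝ) * e ≤ L / r * e := mul_le_mul_of_nonneg_right h5 he
  nlinarith

/-- GZ is hereditary -/
theorem T2_gz_sub {w : ℕ → ℕ → ℝ} {b b' r R R' L : ℝ} {z z' : ℕ}
    (h : GZ w b b' r R z) (hz : Con w b' L z z') (hR : L + R' ≤ R) : GZ w b b' r R' z' := by
  obtain ⟨u, hu⟩ := h
  exact ⟨u, fun v v' hv hv' => hu v v' ((hz.trans hv).mono hR) ((hz.trans hv').mono hR)⟩

/-- discrete intermediate value -/
theorem T2_ivt (f : ℕ → ℝ) (x : ℝ) (N : ℕ) (h0 : f 0 ≤ x) (h1 : x ≤ f N) :
    f 0 = x ∨ ∃ k, k < N ∧ f k ≤ x ∧ x ≤ f (k + 1) := by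
  induction N with
  | zero => left; exact le_antisymm h0 h1
  | succ N ih =>
    by_cases h : x ≤ f N
    · rcases ih h with h | ⟨k, hk, h2⟩
      · exact Or.inl h
      · exact Or.inr ⟨k, by omega, h2⟩
    · push Not at h
      exact Or.inr ⟨N, by omega, h.le, h1⟩

/-- three consecutive centres in a good zone -/
theorem T2_side {u0 u1 u2 r : ℝ} (hr : 0 < r) (h1 : |u1 - u0| ≤ 1011 / 1000 * r)
    (h1' : 98 / 100 * r < |u1 - u0|) (h2 : |u2 - u1| ≤ 1011 / 1000 * r)
    (h2' : 98 / 100 * r < |u2 - u1|) (h3 : 98 / 100 * r < |u2 - u0|) :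
    (98 / 100 * r < u1 - u0 ∧ 98 / 100 * r < u2 - u1) ∨
      (98 / 100 * r < u0 - u1 ∧ 98 / 100 * r < u1 - u2) := by
  rcases le_total 0 (u1 - u0) with ha | ha <;> rcases le_total 0 (u2 - u1) with hb | hb <;>
  rcases le_total 0 (u2 - u0) with hc | hc <;>
  simp only [abs_of_nonneg, abs_of_nonpos, ha, hb, hc] at * <;>
  first
    | (left; constructor <;> linarith)
    | (right; constructor <;> linarith)

/-- a point whose coordinate lies in the range of a path with steps about `r`, and which is
separated from the other points of the path, is on the path -/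
theorem T2_hit {r : ℝ} {N : ℕ} (S : ℕ → ℕ) (g : ℕ → ℝ) (q : ℕ) (hr : 0 < r)
    (hstep : ∀ k, k < N → 98 / 100 * r < |g (S (k + 1)) - g (S k)| ∧
      |g (S (k + 1)) - g (S k)| ≤ 1011 / 1000 * r)
    (hstep2 : ∀ k, k + 2 ≤ N → 98 / 100 * r < |g (S (k + 2)) - g (S k)|)
    (hq : ∀ k, k ≤ N → q ≠ S k → 98 / 100 * r < |g q - g (S k)|)
    (m : ℕ) (hm : m ≤ N) (hd : |g q - g (S m)| ≤ 98 / 100 * r * m)
    (hd' : |g q - g (S m)| ≤ 98 / 100 * r * (N - m : ℕ)) : ∃ k, k ≤ N ∧ q = S k := by
  have key : ∀ s : ℝ, (s = 1 ∨ s = -1) → (∀ k, k < N → 98 / 100 * r < s * g (S (k + 1)) - s * g (S k)) →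
      ∃ k, k ≤ N ∧ q = S k := by
    intro s hs hmono
    have habs : ∀ a c : ℝ, |s * a - s * c| = |a - c| := by
      intro a c
      rcases hs with rfl | rfl
      · simp
      · rw [show (-1 : ℝ) * a - -1 * c = -(a - c) by ring, abs_neg]
    have hup : ∀ i j, i + j ≤ N → s * g (S i) + 98 / 100 * r * j ≤ s * g (S (i + j)) := by
      intro i j
      induction j with
      | zero => intro _; simp
      | succ j ih =>
        intro hj
        have h1 := ih (by omega)
        have h2 := hmono (i + j) (by omega)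
        rw [show i + (j + 1) = i + j + 1 by ring]
        push_cast
        linarith
    have h0 := hup 0 m (by omega)
    have h1 := hup m (N - m) (by omega)
    rw [show 0 + m = m by omega] at h0
    rw [show m + (N - m) = N by omega] at h1
    have h2 := habs (g q) (g (S m))
    have h3 := abs_le.mp (h2.le.trans hd)
    have h4 := abs_le.mp (h2.le.trans hd')
    rcases T2_ivt (fun k => s * g (S k)) (s * g q) N (by linarith) (by linarith)
      with h | ⟨k, hk, hk1, hk2⟩
    · refine ⟨0, by omega, ?_⟩
      by_contra hne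
      have h5 := hq 0 (by omega) hne
      have h6 := habs (g q) (g (S 0))
      rw [← h, sub_self, abs_zero] at h6
      linarith
    · have h7 := (hstep k hk).2
      rw [← habs] at h7
      have h8 := abs_le.mp h7
      by_cases hc : s * g q - s * g (S k) ≤ 6 / 10 * r
      · refine ⟨k, hk.le, ?_⟩
        by_contra hne
        have h5 := hq k hk.le hne
        rw [← habs, abs_of_nonneg (by linarith)] at h5
        linarith
      · refine ⟨k + 1, hk, ?_⟩
        by_contra hne
        have h5 := hq (k + 1) hk hne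
        rw [← habs, abs_of_nonpos (by linarith)] at h5
        linarith
  rcases Nat.eq_zero_or_pos N with hN | hN
  · refine ⟨0, by omega, ?_⟩
    by_contra hne
    have h5 := hq 0 (by omega) hne
    have hm0 : m = 0 := by omega
    subst hm0
    simp at hd
    rw [hd] at h5
    simp at h5
    linarith
  · rcases le_total 0 (g (S 1) - g (S 0)) with h | h
    · apply key 1 (Or.inl rfl)
      intro k
      induction k with
      | zero =>
        intro hk
        have h1 := (hstep 0 hk).1
        rw [abs_of_nonneg (by simpa using h)] at h1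
        simpa using h1
      | succ k ih =>
        intro hk
        have h1 := ih (by omega)
        have h2 := hstep k (by omega)
        have h3 := hstep (k + 1) hk
        have h4 := hstep2 k (by omega)
        rcases T2_side hr h2.2 h2.1 h3.2 h3.1 h4 with h5 | h5
        · simpa using h5.2
        · exfalso; simp only [one_mul] at h1; linarith [h5.1]
    · apply key (-1) (Or.inr rfl)
      intro k
      induction k with
      | zero =>
        intro hk
        have h1 := (hstep 0 hk).1
        rw [abs_of_nonpos (by simpa using h)] at h1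
        simp only [zero_add] at *
        linarith
      | succ k ih =>
        intro hk
        have h1 := ih (by omega)
        have h2 := hstep k (by omega)
        have h3 := hstep (k + 1) hk
        have h4 := hstep2 k (by omega)
        rcases T2_side hr h2.2 h2.1 h3.2 h3.1 h4 with h5 | h5
        · exfalso; linarith [h5.1]
        · rw [show k + 1 + 1 = k + 2 by ring] at *
          linarith [h5.2]

/-- at most two separated points at distance about `r` of a point of a line -/
theorem T2_three {r m a b c : ℝ} (hr : 0 < r) (ha : 98 / 100 * r < |a - m|)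
    (ha' : |a - m| ≤ 1011 / 1000 * r) (hb : 98 / 100 * r < |b - m|)
    (hb' : |b - m| ≤ 1011 / 1000 * r) (hc : 98 / 100 * r < |c - m|)
    (hc' : |c - m| ≤ 1011 / 1000 * r) (hab : 98 / 100 * r < |a - b|)
    (hbc : 98 / 100 * r < |b - c|) (hac : 98 / 100 * r < |a - c|) : False := by
  have key : ∀ x y : ℝ, 98 / 100 * r < |x - y| → 98 / 100 * r < |x - m| →
      |x - m| ≤ 1011 / 1000 * r → 98 / 100 * r < |y - m| → |y - m| ≤ 1011 / 1000 * r →
      (0 ≤ x - m ↔ 0 ≤ y - m) → False := by
    intro x y h1 h2 h3 h4 h5 h6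
    rcases le_total 0 (x - m) with hx | hx <;> rcases le_total 0 (y - m) with hy | hy <;>
    rcases le_total 0 (x - y) with hz | hz <;>
    simp only [abs_of_nonneg, abs_of_nonpos, hx, hy, hz] at h1 h2 h3 h4 h5 <;>
    first
      | linarith
      | (exfalso; have := h6.mp hx; linarith)
      | (exfalso; have := h6.mpr hy; linarith)
  by_cases h1 : 0 ≤ a - m <;> by_cases h2 : 0 ≤ b - m <;> by_cases h3 : 0 ≤ c - m
  · exact key a b hab ha ha' hb hb' (by tauto)
  · exact key a b hab ha ha' hb hb' (by tauto)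
  · exact key a c hac ha ha' hc hc' (by tauto)
  · exact key b c hbc hb hb' hc hc' (by tauto)
  · exact key b c hbc hb hb' hc hc' (by tauto)
  · exact key a c hac ha ha' hc hc' (by tauto)
  · exact key a b hab ha ha' hb hb' (by tauto)
  · exact key a b hab ha ha' hb hb' (by tauto)

open Classical in
/-- counting in a forest where every non-root has at most one child and every root at most two:
the nodes within `n` steps below a root or above a leaf -/
theorem T2_forest (F : Finset ℕ) (par : ℕ → ℕ) (NR : ℕ → Prop) (n : ℕ)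
    (h1 : ∀ t, NR t → t ∈ F ∧ par t ∈ F)
    (hk1 : ∀ x, NR x → (F.filter (fun c => NR c ∧ par c = x)).card ≤ 1)
    (hk2 : ∀ x ∈ F, (F.filter (fun c => NR c ∧ par c = x)).card ≤ 2)
    (J : Finset ℕ) (hJ : ∀ t ∈ J, NR t ∧ ∀ z, (∀ i, i ≤ 2 * n → NR (par^[i] z)) →
      par^[n] z = t → False) :
    J.card ≤ 4 * n * (F.filter (fun t => ¬ NR t)).card := by
  set Rt := F.filter (fun t => ¬ NR t) with hRt
  -- levels below the roots
  let A : ℕ → Finset ℕ := fun k =>
    F.filter (fun t => (∀ i, i ≤ k → NR (par^[i] t)) ∧ ¬ NR (par^[k + 1] t))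
  have hA : ∀ k, (A k).card ≤ 2 * Rt.card := by
    intro k
    induction k with
    | zero =>
      apply Finset.card_le_mul_card_image_of_maps_to (f := par)
      · intro t ht
        simp only [A, Finset.mem_filter] at ht
        simp only [hRt, Finset.mem_filter]
        exact ⟨(h1 _ (ht.2.1 0 le_rfl)).2, by simpa using ht.2.2⟩
      · intro x hx
        simp only [hRt, Finset.mem_filter] at hx
        refine le_trans (Finset.card_le_card ?_) (hk2 x hx.1)
        intro t ht
        simp only [A, Finset.mem_filter] at ht ⊢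
        exact ⟨ht.1.1, by simpa using ht.1.2.1 0 le_rfl, ht.2⟩
    | succ k ih =>
      refine le_trans ?_ ih
      apply Finset.card_le_card_of_injOn par
      · intro t ht
        simp only [A, Finset.coe_filter, Set.mem_ofPred_eq] at ht ⊢
        refine ⟨(h1 _ (ht.2.1 0 (by omega))).2, fun i hi => ?_, ?_⟩
        · rw [← Function.iterate_succ_apply]
          exact ht.2.1 (i + 1) (by omega)
        · rw [← Function.iterate_succ_apply]
          exact ht.2.2
      · intro t ht t' ht' htt
        simp only [A, Finset.coe_filter, Set.mem_ofPred_eq] at ht ht'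
        have h2 := hk1 (par t) (by simpa using ht.2.1 1 (by omega))
        rw [Finset.card_le_one] at h2
        apply h2
        · simp only [Finset.mem_filter]
          exact ⟨ht.1, by simpa using ht.2.1 0 (by omega), trivial⟩
        · simp only [Finset.mem_filter]
          exact ⟨ht'.1, by simpa using ht'.2.1 0 (by omega), htt.symm⟩
  -- leaves
  set Lf := F.filter (fun t => NR t ∧ ∀ c, NR c → par c ≠ t) with hLf
  have hL : Lf.card ≤ 2 * Rt.card := by
    have h2 : (F.filter NR).card =
        ∑ x ∈ F, ((F.filter NR).filter (fun c => par c = x)).card := by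
      apply Finset.card_eq_sum_card_fiberwise
      intro t ht
      simp only [Finset.coe_filter, Set.mem_ofPred_eq] at ht
      exact (h1 _ ht.2).2
    have h3 : ∑ x ∈ F, (((F.filter NR).filter (fun c => par c = x)).card +
        (if (NR x ∧ ∀ c, NR c → par c ≠ x) then 1 else 0)) ≤
        ∑ x ∈ F, ((if NR x then 1 else 0) + 2 * (if ¬ NR x then 1 else 0)) := by
      apply Finset.sum_le_sum
      intro x hx
      rw [Finset.filter_filter]
      by_cases hn : NR x
      · have e1 : (if NR x then 1 else 0 : ℕ) = 1 := if_pos hn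
        rw [e1]
        by_cases hl : ∀ c, NR c → par c ≠ x
        · have : (F.filter (fun c => NR c ∧ par c = x)) = ∅ := by
            apply Finset.filter_eq_empty_iff.mpr
            intro c _ hc
            exact hl c hc.1 hc.2
          rw [this, if_pos ⟨hn, hl⟩]
          simp
        · rw [if_neg (fun h => hl h.2)]
          have := hk1 x hn
          omega
      · have e1 : (if ¬ NR x then 1 else 0 : ℕ) = 1 := if_pos hn
        have e2 : (if (NR x ∧ ∀ c, NR c → par c ≠ x) then 1 else 0 : ℕ) = 0 :=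
          if_neg (fun h => hn h.1)
        rw [e1, e2]
        have := hk2 x hx
        omega
    rw [Finset.sum_add_distrib, Finset.sum_add_distrib, ← Finset.mul_sum, ← h2] at h3
    have e3 : Lf.card = ∑ x ∈ F, (if (NR x ∧ ∀ c, NR c → par c ≠ x) then 1 else 0) :=
      Finset.card_filter _ _
    have e4 : (F.filter NR).card = ∑ x ∈ F, (if NR x then 1 else 0) := Finset.card_filter _ _
    have e5 : Rt.card = ∑ x ∈ F, (if ¬ NR x then 1 else 0) := Finset.card_filter _ _
    rw [← e3, ← e4, ← e5] at h3
    omega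
  -- the cover
  have hcov : J ⊆ ((Finset.range n).biUnion A) ∪
      ((Finset.range n).biUnion (fun k => Lf.image (par^[k]))) := by
    intro t ht
    obtain ⟨hNR, hz⟩ := hJ t ht
    by_contra hnot
    simp only [Finset.mem_union, Finset.mem_biUnion, Finset.mem_range, not_or, not_exists,
      not_and] at hnot
    obtain ⟨hn1, hn2⟩ := hnot
    -- upwards
    have hup : ∀ k, k ≤ n → ∀ i, i ≤ k → NR (par^[i] t) := by
      intro k
      induction k with
      | zero =>
        intro _ i hi
        have : i = 0 := by omega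
        subst this
        simpa using hNR
      | succ k ih =>
        intro hk i hi
        have h2 := ih (by omega)
        rcases Nat.lt_or_ge i (k + 1) with h | h
        · exact h2 i (by omega)
        · have : i = k + 1 := by omega
          subst this
          by_contra hnr
          apply hn1 k (by omega)
          simp only [A, Finset.mem_filter]
          exact ⟨(h1 _ hNR).1, h2, hnr⟩
    -- downwards
    have hdown : ∀ k, k ≤ n → ∃ z, (∀ i, i ≤ k → NR (par^[i] z)) ∧ par^[k] z = t := by
      intro k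
      induction k with
      | zero =>
        intro _
        refine ⟨t, ?_, rfl⟩
        intro i hi
        have : i = 0 := by omega
        subst this
        simpa using hNR
      | succ k ih =>
        intro hk
        obtain ⟨z, hz1, hz2⟩ := ih (by omega)
        have hzN : NR z := by simpa using hz1 0 (by omega)
        have h3 : ¬ ∀ c, NR c → par c ≠ z := by
          intro hall
          apply hn2 k (by omega)
          rw [Finset.mem_image]
          refine ⟨z, ?_, hz2⟩
          simp only [hLf, Finset.mem_filter]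
          exact ⟨(h1 _ hzN).1, hzN, hall⟩
        push Not at h3
        obtain ⟨c, hc1, hc2⟩ := h3
        refine ⟨c, ?_, ?_⟩
        · intro i hi
          rcases Nat.eq_zero_or_pos i with h | h
          · subst h; simpa using hc1
          · obtain ⟨j, rfl⟩ : ∃ j, i = j + 1 := ⟨i - 1, by omega⟩
            rw [Function.iterate_succ_apply, hc2]
            exact hz1 j (by omega)
        · rw [Function.iterate_succ_apply, hc2, hz2]
    obtain ⟨z, hz1, hz2⟩ := hdown n le_rfl
    apply hz z _ hz2
    intro i hi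
    rcases Nat.lt_or_ge i n with h | h
    · exact hz1 i h.le
    · obtain ⟨j, rfl⟩ : ∃ j, i = j + n := ⟨i - n, by omega⟩
      rw [Function.iterate_add_apply, hz2]
      exact hup n le_rfl j (by omega)
  calc J.card ≤ _ := Finset.card_le_card hcov
    _ ≤ _ := Finset.card_union_le _ _
    _ ≤ (Finset.range n).card * (2 * Rt.card) + (Finset.range n).card * (2 * Rt.card) := by
      apply add_le_add
      · apply Finset.card_biUnion_le_card_mul
        intro k _
        exact hA k
      · apply Finset.card_biUnion_le_card_mul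
        intro k _
        exact Finset.card_image_le.trans hL
    _ = 4 * n * Rt.card := by rw [Finset.card_range]; ring

/-- separated points of a good zone have separated coordinates -/
theorem T2_sep {w : ℕ → ℕ → ℝ} {b b' r R : ℝ} {z : ℕ} {u : ℕ → ℝ}
    (hu : ∀ x y, Con w b' R z x → Con w b' R z y → Con w b (|u x - u y| + r / 100) x y ∧
      ∀ L, L ≤ 3 * r → Con w b' L x y → |u x - u y| ≤ L + r / 100)
    {p q : ℕ} (hp : Con w b' R z p) (hq : Con w b' R z q) (hn : ¬ Con w b (99 / 100 * r) p q) :
    98 / 100 * r < |u p - u q| := by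
  by_contra h
  push Not at h
  exact hn ((hu p q hp hq).1.mono (by linarith))

theorem T2_nbr {w : ℕ → ℕ → ℝ} {b b' r R : ℝ} {z x1 x2 x3 : ℕ} (hr : 0 < r) (hbb : b ≤ b')
    (hR : 1001 / 1000 * r ≤ R) (hz : GZ w b b' r R z)
    (h1 : Con w b (1001 / 1000 * r) z x1) (h2 : Con w b (1001 / 1000 * r) z x2)
    (h3 : Con w b (1001 / 1000 * r) z x3)
    (n1 : ¬ Con w b (99 / 100 * r) x1 z) (n2 : ¬ Con w b (99 / 100 * r) x2 z)
    (n3 : ¬ Con w b (99 / 100 * r) x3 z) (n12 : ¬ Con w b (99 / 100 * r) x1 x2)
    (n23 : ¬ Con w b (99 / 100 * r) x2 x3) (n13 : ¬ Con w b (99 / 100 * r) x1 x3) : False := by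
  obtain ⟨u, hu⟩ := hz
  have hz0 : Con w b' R z z := Con.refl (by linarith) z
  have hx1 : Con w b' R z x1 := (h1.mono hR).monob hbb
  have hx2 : Con w b' R z x2 := (h2.mono hR).monob hbb
  have hx3 : Con w b' R z x3 := (h3.mono hR).monob hbb
  have c1 : |u x1 - u z| ≤ 1011 / 1000 * r := by
    rw [abs_sub_comm]
    have := (hu z x1 hz0 hx1).2 _ (by linarith) (h1.monob hbb)
    linarith
  have c2 : |u x2 - u z| ≤ 1011 / 1000 * r := by
    rw [abs_sub_comm]
    have := (hu z x2 hz0 hx2).2 _ (by linarith) (h2.monob hbb)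
    linarith
  have c3 : |u x3 - u z| ≤ 1011 / 1000 * r := by
    rw [abs_sub_comm]
    have := (hu z x3 hz0 hx3).2 _ (by linarith) (h3.monob hbb)
    linarith
  exact T2_three hr (T2_sep hu hx1 hz0 n1) c1 (T2_sep hu hx2 hz0 n2) c2 (T2_sep hu hx3 hz0 n3) c3
    (T2_sep hu hx1 hx2 n12) (T2_sep hu hx2 hx3 n23) (T2_sep hu hx1 hx3 n13)

open Classical in
theorem T2 {w : ℕ → ℕ → ℝ} {b b' r B : ℝ} {n : ℕ} (hsym : ∀ u v, w u v = w v u)
    (hr : 0 < r) (hB : 10 ^ 7 ≤ B) (hn : (n : ℝ) = 4 * B) (hb0 : 0 ≤ b) (hbb : b ≤ b')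
    (hb : b' ≤ r / 10000) (v : ℕ → ℕ) (C : Finset ℕ) (h0 : 0 ∈ C) (low : ℕ → Prop)
    (par : ℕ → ℕ)
    (hpar : ∀ t ∈ C, t ≠ 0 → low t → par t ∈ C ∧ par t < t ∧
      Con w b (1001 / 1000 * r) (v (par t)) (v t))
    (hsep : ∀ t ∈ C, ∀ t' ∈ C, t ≠ t' → ¬ Con w b (99 / 100 * r) (v t) (v t'))
    (J : Finset ℕ) (hJC : J ⊆ C)
    (hJ : ∀ t ∈ J, t ≠ 0 ∧ low t ∧ ∃ q ∈ C, par t < q ∧ q < t ∧
      Con w b' (5 / 2 * B * r) (v t) (v q)) :
    (J.card : ℝ) ≤ (4 * (n : ℝ) + 4) *
      (1 + (C.filter (fun t => ¬ GZ w b b' r (5 * B * r) (v t))).card +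
        (C.filter (fun t => t ≠ 0 ∧ ¬ low t)).card) := by
  have hBr : 10 ^ 7 * r ≤ B * r := mul_le_mul_of_nonneg_right hB hr.le
  set Bad := C.filter (fun t => ¬ GZ w b b' r (5 * B * r) (v t)) with hBad
  set H := C.filter (fun t => t ≠ 0 ∧ ¬ low t) with hH
  set F := C.filter (fun t => GZ w b b' r (9 / 2 * B * r) (v t)) with hF
  obtain ⟨NR, hNRd⟩ : ∃ NR : ℕ → Prop, ∀ t, NR t ↔ (t ∈ F ∧ t ≠ 0 ∧ low t ∧ par t ∈ F) :=
    ⟨_, fun _ => Iff.rfl⟩
  have hNR : ∀ t, NR t → t ∈ C ∧ par t ∈ C ∧ par t < t ∧
      Con w b (1001 / 1000 * r) (v (par t)) (v t) := by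
    intro t ht
    rw [hNRd] at ht
    have hF' := ht.1
    simp only [hF, Finset.mem_filter] at hF'
    have := hpar t hF'.1 ht.2.1 ht.2.2.1
    exact ⟨hF'.1, this.1, this.2.1, this.2.2⟩
  -- good big zones
  have hgood : ∀ t ∈ C, GZ w b b' r (5 * B * r) (v t) → t ∈ F := by
    intro t ht hg
    simp only [hF, Finset.mem_filter]
    exact ⟨ht, T2_gz_sub hg (Con.refl le_rfl _) (by linarith)⟩
  have hgoodpar : ∀ t ∈ C, GZ w b b' r (5 * B * r) (v t) → t ≠ 0 → low t → NR t := by
    intro t ht hg ht0 htl
    obtain ⟨p1, p2, p3⟩ := hpar t ht ht0 htl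
    rw [hNRd]
    refine ⟨hgood t ht hg, ht0, htl, ?_⟩
    simp only [hF, Finset.mem_filter]
    exact ⟨p1, T2_gz_sub hg ((p3.symm hsym).monob hbb) (by linarith)⟩
  -- children
  have hkid : ∀ x ∈ F, ∀ p1 ∈ C, ∀ p2 ∈ C, ∀ p3 ∈ C, p1 ≠ x → p2 ≠ x → p3 ≠ x → p1 ≠ p2 →
      p2 ≠ p3 → p1 ≠ p3 → Con w b (1001 / 1000 * r) (v x) (v p1) →
      Con w b (1001 / 1000 * r) (v x) (v p2) → Con w b (1001 / 1000 * r) (v x) (v p3) →
      False := by
    intro x hx p1 hp1 p2 hp2 p3 hp3 e1 e2 e3 e12 e23 e13 c1 c2 c3
    simp only [hF, Finset.mem_filter] at hx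
    exact T2_nbr hr hbb (by linarith) hx.2 c1 c2 c3 (hsep _ hp1 _ hx.1 e1)
      (hsep _ hp2 _ hx.1 e2) (hsep _ hp3 _ hx.1 e3) (hsep _ hp1 _ hp2 e12)
      (hsep _ hp2 _ hp3 e23) (hsep _ hp1 _ hp3 e13)
  have hk1 : ∀ x, NR x → (F.filter (fun c => NR c ∧ par c = x)).card ≤ 1 := by
    intro x hx
    rw [Finset.card_le_one]
    intro a ha c hc
    simp only [Finset.mem_filter] at ha hc
    by_contra hac
    have hxx := hNR x hx
    have haa := hNR a ha.2.1
    have hcc := hNR c hc.2.1
    rw [ha.2.2] at haa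
    rw [hc.2.2] at hcc
    exact hkid x ((hNRd x).mp hx).1 (par x) hxx.2.1 a haa.1 c hcc.1 (by omega) (by omega) (by omega)
      (by omega) hac (by omega) (hxx.2.2.2.symm hsym) haa.2.2.2 hcc.2.2.2
  have hk2 : ∀ x ∈ F, (F.filter (fun c => NR c ∧ par c = x)).card ≤ 2 := by
    intro x hx
    by_contra hcard
    push Not at hcard
    obtain ⟨a, c, d, ha, hc, hd, hac, had, hcd⟩ := Finset.two_lt_card_iff.mp hcard
    simp only [Finset.mem_filter] at ha hc hd
    have haa := hNR a ha.2.1
    have hcc := hNR c hc.2.1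
    have hdd := hNR d hd.2.1
    rw [ha.2.2] at haa
    rw [hc.2.2] at hcc
    rw [hd.2.2] at hdd
    exact hkid x hx a haa.1 c hcc.1 d hdd.1 (by omega) (by omega) (by omega) hac hcd had
      haa.2.2.2 hcc.2.2.2 hdd.2.2.2
  -- the roots
  have hroots : (F.filter (fun t => ¬ NR t)).card ≤ 1 + Bad.card + H.card := by
    have hsub : F.filter (fun t => ¬ NR t) ⊆ ({0} ∪ Bad) ∪ H := by
      intro t ht
      simp only [Finset.mem_filter] at ht
      have htC : t ∈ C := by
        have := ht.1
        simp only [hF, Finset.mem_filter] at this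
        exact this.1
      simp only [Finset.mem_union, Finset.mem_singleton, hBad, hH, Finset.mem_filter]
      by_contra hnot
      push Not at hnot
      exact ht.2 (hgoodpar t htC (hnot.1.2 htC) hnot.1.1 (hnot.2 htC hnot.1.1))
    calc _ ≤ _ := Finset.card_le_card hsub
      _ ≤ _ := Finset.card_union_le _ _
      _ ≤ _ := Nat.add_le_add_right (Finset.card_union_le _ _) _
      _ = _ := by simp
  -- main counting
  have hmain : (J.filter (fun t => GZ w b b' r (5 * B * r) (v t))).card ≤
      4 * n * (F.filter (fun t => ¬ NR t)).card := by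
    apply T2_forest F par NR n
      (fun t ht => ⟨((hNRd t).mp ht).1, ((hNRd t).mp ht).2.2.2⟩) hk1 hk2
    intro t ht
    simp only [Finset.mem_filter] at ht
    obtain ⟨htJ, htG⟩ := ht
    have htC := hJC htJ
    obtain ⟨ht0, htl, q, hqC, hq1, hq2, hq3⟩ := hJ t htJ
    refine ⟨hgoodpar t htC htG ht0 htl, ?_⟩
    intro z hz hzt
    obtain ⟨u, hu⟩ := htG
    set S : ℕ → ℕ := fun k => par^[2 * n - k] z with hS
    have hSn : S n = t := by
      simp only [hS]
      rw [show 2 * n - n = n by omega]
      exact hzt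
    have hSpar : ∀ k, k < 2 * n → par (S (k + 1)) = S k := by
      intro k hk
      simp only [hS]
      rw [← Function.iterate_succ_apply' par, show (2 * n - (k + 1)).succ = 2 * n - k by omega]
    have hSNR : ∀ k, NR (S k) := fun k => hz _ (by omega)
    have hSC : ∀ k, S k ∈ C := fun k => (hNR _ (hSNR k)).1
    have hSlt : ∀ k, k < 2 * n → S k < S (k + 1) := by
      intro k hk
      have := (hNR _ (hSNR (k + 1))).2.2.1
      rw [hSpar k hk] at this
      exact this
    have hSlt' : ∀ i j, i + j ≤ 2 * n → S i ≤ S (i + j) := by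
      intro i j
      induction j with
      | zero => intro _; exact le_rfl
      | succ j ih =>
        intro hj
        exact (ih (by omega)).trans (hSlt (i + j) (by omega)).le
    have hScon : ∀ k, k < 2 * n → Con w b (1001 / 1000 * r) (v (S k)) (v (S (k + 1))) := by
      intro k hk
      have := (hNR _ (hSNR (k + 1))).2.2.2
      rw [hSpar k hk] at this
      exact this
    have hSup : ∀ j, n + j ≤ 2 * n → Con w b (j * (1001 / 1000 * r)) (v t) (v (S (n + j))) := by
      intro j
      induction j with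
      | zero => intro _; rw [add_zero, hSn]; exact Con.refl (by simp) _
      | succ j ih =>
        intro hj
        refine ((ih (by omega)).trans (hScon (n + j) (by omega))).mono ?_
        push_cast
        linarith
    have hSdown : ∀ j, j ≤ n → Con w b (j * (1001 / 1000 * r)) (v t) (v (S (n - j))) := by
      intro j
      induction j with
      | zero => intro _; rw [Nat.sub_zero, hSn]; exact Con.refl (by simp) _
      | succ j ih =>
        intro hj
        have h2 := hScon (n - (j + 1)) (by omega)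
        rw [show n - (j + 1) + 1 = n - j by omega] at h2
        refine ((ih (by omega)).trans (h2.symm hsym)).mono ?_
        push_cast
        linarith
    have hjr : ∀ j : ℕ, j ≤ n → (j : ℝ) * (1001 / 1000 * r) ≤ 5 * B * r := by
      intro j hj
      have h1 : (j : ℝ) ≤ 4 * B := by rw [← hn]; exact_mod_cast hj
      have h2 : (j : ℝ) * (1001 / 1000 * r) ≤ 4 * B * (1001 / 1000 * r) :=
        mul_le_mul_of_nonneg_right h1 (by positivity)
      nlinarith
    have hball : ∀ k, k ≤ 2 * n → Con w b' (5 * B * r) (v t) (v (S k)) := by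
      intro k hk
      rcases Nat.lt_or_ge k n with h | h
      · have h1 := hSdown (n - k) (by omega)
        rw [show n - (n - k) = k by omega] at h1
        exact (h1.mono (hjr _ (by omega))).monob hbb
      · have h1 := hSup (k - n) (by omega)
        rw [show n + (k - n) = k by omega] at h1
        exact (h1.mono (hjr _ (by omega))).monob hbb
    have hqball : Con w b' (5 * B * r) (v t) (v q) := hq3.mono (by linarith)
    have hqd : |u (v t) - u (v q)| ≤ 98 / 100 * r * n := by
      have h1 := T2_far (R := 5 * B * r) (L := 5 / 2 * B * r) hr (by linarith) u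
        (e := r / 100) (by positivity) (fun x y hx hy L hL hxy => (hu x y hx hy).2 L hL hxy)
        (by linarith) hq3
      have h2 : 5 / 2 * B * r / r = 5 / 2 * B := by field_simp
      rw [h2] at h1
      rw [hn]
      nlinarith
    obtain ⟨k, hk, hqk⟩ := T2_hit (N := 2 * n) S (fun s => u (v s)) q hr
      (by
        intro k hk
        refine ⟨T2_sep hu (hball (k + 1) (by omega)) (hball k (by omega))
          (hsep _ (hSC _) _ (hSC _) (hSlt k hk).ne'), ?_⟩
        have h1 := (hu _ _ (hball k (by omega)) (hball (k + 1) (by omega))).2 _ (by linarith)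
          ((hScon k hk).monob hbb)
        rw [abs_sub_comm]
        linarith)
      (by
        intro k hk
        refine T2_sep hu (hball (k + 2) (by omega)) (hball k (by omega))
          (hsep _ (hSC _) _ (hSC _) ?_)
        have h1 := hSlt k (by omega)
        have h2 := hSlt (k + 1) (by omega)
        rw [show k + 1 + 1 = k + 2 by ring] at h2
        omega)
      (by
        intro k hk hne
        exact T2_sep hu hqball (hball k hk) (hsep _ hqC _ (hSC _) hne))
      n (by omega) (by rw [hSn, abs_sub_comm]; exact hqd)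
      (by rw [hSn, abs_sub_comm, show 2 * n - n = n by omega]; exact hqd)
    have hn1 : 1 ≤ n := by
      by_contra h
      have : n = 0 := by omega
      rw [this] at hn
      simp at hn
      linarith
    have hpt : par t = S (n - 1) := by
      rw [← hSpar (n - 1) (by omega), show n - 1 + 1 = n by omega, hSn]
    rcases Nat.lt_or_ge k n with h | h
    · have h1 := hSlt' k (n - 1 - k) (by omega)
      rw [show k + (n - 1 - k) = n - 1 by omega, ← hpt, ← hqk] at h1
      omega
    · have h1 := hSlt' n (k - n) (by omega)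
      rw [show n + (k - n) = k by omega, hSn, ← hqk] at h1
      omega
  have hcover : J.card ≤ 4 * n * (1 + Bad.card + H.card) + Bad.card := by
    have hsub : J ⊆ (J.filter (fun t => GZ w b b' r (5 * B * r) (v t))) ∪ Bad := by
      intro t ht
      simp only [Finset.mem_union, hBad, Finset.mem_filter]
      by_cases hg : GZ w b b' r (5 * B * r) (v t)
      · exact Or.inl ⟨ht, hg⟩
      · exact Or.inr ⟨hJC ht, hg⟩
    calc J.card ≤ _ := Finset.card_le_card hsub
      _ ≤ _ := Finset.card_union_le _ _
      _ ≤ 4 * n * (1 + Bad.card + H.card) + Bad.card :=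
        Nat.add_le_add_right (hmain.trans (Nat.mul_le_mul_left _ hroots)) _
  have hcover' : (J.card : ℝ) ≤ 4 * n * (1 + Bad.card + H.card) + Bad.card := by
    exact_mod_cast hcover
  have e1 : (0 : ℝ) ≤ Bad.card := Nat.cast_nonneg _
  have e2 : (0 : ℝ) ≤ H.card := Nat.cast_nonneg _
  linarith

end Pool.Agent.Lib.MP_ed4bd1_lc
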