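import Pool.Agent.Lib.MP_ed4bd1_lc.TDefs

set_option autoImplicit false

namespace Pool.Agent.Lib.MP_ed4bd1_lc

/-! ## N1: separation of the centres -/

/-- first exit of a walk from `E` -/
theorem WP.exit {w : ℕ → ℕ → ℝ} {R : ℕ → ℕ → Prop} {L : ℝ} {x v : ℕ} (E : Finset ℕ)
    (h : WP w R L x v) (hR : ∀ a b, R a b → 0 ≤ w a b) (hx : x ∈ E) (hv : v ∉ E) :
    ∃ y z L1, y ∈ E ∧ z ∉ E ∧ R y z ∧ WP w (fun a b => a ∈ E ∧ b ∈ E ∧ R a b) L1 x y ∧
      L1 + w y z ≤ L := by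
  induction h with
  | nil u => exact absurd hx hv
  | @cons L u v' z' h1 h2 ih =>
    by_cases hv' : v' ∈ E
    · obtain ⟨y, z, L1, hy, hz, hyz, hw, hle⟩ := ih hv' hv
      refine ⟨y, z, w u v' + L1, hy, hz, hyz, WP.cons ⟨hx, hv', h1⟩ hw, ?_⟩
      linarith
    · refine ⟨u, v', 0, hx, hv', h1, WP.nil u, ?_⟩
      have := h2.nonneg hR
      linarith

/-- (A1): if there is nothing to do at level `i` around `x`, the ball around `x` is explored -/
theorem ball_explored {w : ℕ → ℕ → ℝ} {V : Finset ℕ} (hG : Gr w V) (E : Finset ℕ) (i : ℤ)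
    {x : ℕ} (hx : x ∈ E) (hno : ∀ y z, ¬ PendAt w E i x y z) {v : ℕ}
    (hv : Con w (bb (i - 1)) (99 / 100 * rr i) x v) : v ∈ E := by
  classical
  by_contra hvE
  obtain ⟨L, hL, hW⟩ := hv
  obtain ⟨y0, z0, L1, hy0, hz0, hyz0, hW1, hle⟩ := hW.exit E (fun a b h => h.1.le) hx hvE
  have hc0 : cls (w y0 z0) ≤ i - 1 := (le_bb_iff hyz0.1 _).1 hyz0.2
  have hri := rr_pos i
  let S : Finset (ℕ × ℕ) := (V ×ˢ V).filter (fun p => Pend w E p.1 p.2 ∧
    cls (w p.1 p.2) < i ∧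
      ConIn w E (bb (i - 1)) (rr i - 11 / 100 * rr (cls (w p.1 p.2))) x p.1)
  have hS0 : (y0, z0) ∈ S := by
    simp only [S, Finset.mem_filter, Finset.mem_product]
    refine ⟨hG.supp _ _ hyz0.1, ⟨hy0, hz0, hyz0.1⟩, by omega, L1, ?_, hW1⟩
    have h1 := rr_mono hc0
    rw [rr_pred] at h1
    have h2 := hyz0.1
    linarith
  obtain ⟨⟨y, z⟩, hyz, hmin⟩ := S.exists_min_image (fun p => cls (w p.1 p.2)) ⟨_, hS0⟩
  simp only [S, Finset.mem_filter, Finset.mem_product] at hyz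
  obtain ⟨-, hP, hc, hcon⟩ := hyz
  have hr := rr_pos (cls (w y z))
  have hpos : 0 < w y z := hP.2.2
  by_cases hel : Elig w E y z
  · refine hno y z ⟨hel, hc, hcon.mono ?_⟩
    have h1 := le_bb_cls hpos
    unfold bb at h1
    linarith
  · have hex : ∃ y' z', Pend w E y' z' ∧ cls (w y' z') < cls (w y z) ∧
        ConIn w E (bb (cls (w y z) - 1)) (rr (cls (w y z)) / 10) y y' := by
      by_contra hcon'
      apply hel
      refine ⟨hP, fun y' z' h1 h2 h3 => hcon' ⟨y', z', h1, h2, h3⟩⟩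
    obtain ⟨y', z', h1, h2, h3⟩ := hex
    have hS' : (y', z') ∈ S := by
      simp only [S, Finset.mem_filter, Finset.mem_product]
      refine ⟨hG.supp _ _ h1.2.2, h1, by omega, ?_⟩
      have h4 : ConIn w E (bb (i - 1)) (rr (cls (w y z)) / 10) y y' :=
        h3.monoE (Finset.Subset.refl _) (bb_mono (by omega))
      refine (hcon.trans h4).mono ?_
      have h5 : rr (cls (w y' z')) ≤ rr (cls (w y z) - 1) := rr_mono (by omega)
      rw [rr_pred] at h5
      linarith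
    have := hmin _ hS'
    simp only at this
    omega

theorem Trace.notMem_ES {w : ℕ → ℕ → ℝ} {n : ℕ} {v src : ℕ → ℕ} {m : ℕ → ℤ} {cen : ℕ → ℤ → ℕ}
    (hT : Trace w n v src m cen) {t : ℕ} (ht : t < n) : v (t + 1) ∉ ES v t :=
  (hT.step t ht).1.1.2.1

theorem mem_ES {v : ℕ → ℕ} {s t : ℕ} (h : s ≤ t) : v s ∈ ES v t :=
  Finset.mem_image_of_mem v (Finset.mem_range.2 (by omega))

theorem ES_mono {v : ℕ → ℕ} {s t : ℕ} (h : s ≤ t) : ES v s ⊆ ES v t := by
  unfold ES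
  exact Finset.image_subset_image (Finset.range_subset_range.2 (by omega))

theorem Trace.v_inj {w : ℕ → ℕ → ℝ} {n : ℕ} {v src : ℕ → ℕ} {m : ℕ → ℤ} {cen : ℕ → ℤ → ℕ}
    (hT : Trace w n v src m cen) {t t' : ℕ} (ht : t ≤ n) (ht' : t' ≤ n) (h : v t = v t') :
    t = t' := by
  have key : ∀ a b : ℕ, a < b → b ≤ n → v a ≠ v b := by
    intro a b hab hb hv
    obtain ⟨s, rfl⟩ : ∃ s, b = s + 1 := ⟨b - 1, by omega⟩
    apply hT.notMem_ES (t := s) (by omega)
    rw [← hv]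
    exact mem_ES (by omega)
  rcases lt_trichotomy t t' with h1 | h1 | h1
  · exact absurd h (key t t' h1 ht')
  · exact h1
  · exact absurd h.symm (key t' t h1 ht)

theorem Trace.cen_le {w : ℕ → ℕ → ℝ} {n : ℕ} {v src : ℕ → ℕ} {m : ℕ → ℤ} {cen : ℕ → ℤ → ℕ}
    (hT : Trace w n v src m cen) {t : ℕ} (ht : t ≤ n) (i : ℤ) :
    cen t i ≤ t ∧ (cen t i = 0 ∨ i < m (cen t i)) := by
  induction t with
  | zero => rw [hT.cen0]; simp
  | succ t ih =>
    have ih := ih (by omega)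
    rw [hT.cen_succ t (by omega)]
    split_ifs with h
    · exact ⟨le_rfl, Or.inr h⟩
    · exact ⟨by omega, ih.2⟩

theorem Trace.cen_eq_aux {w : ℕ → ℕ → ℝ} {n : ℕ} {v src : ℕ → ℕ} {m : ℕ → ℤ} {cen : ℕ → ℤ → ℕ}
    (hT : Trace w n v src m cen) {t c : ℕ} (ht : t ≤ n) (hc : c ≤ t) (i : ℤ)
    (h1 : c = 0 ∨ i < m c) (h2 : ∀ t', c < t' → t' ≤ t → m t' ≤ i) : cen t i = c := by
  induction t with
  | zero => rw [hT.cen0]; omega
  | succ t ih =>
    rcases Nat.lt_or_ge t c with h | h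
    · have hct : c = t + 1 := by omega
      rw [hT.cen_succ t (by omega), hct, if_pos]
      rcases h1 with h1 | h1
      · omega
      · rwa [hct] at h1
    · have h3 := h2 (t + 1) (by omega) le_rfl
      rw [hT.cen_succ t (by omega), if_neg (by omega)]
      exact ih (by omega) h (fun t' ha hb => h2 t' ha (by omega))

/-- level-`j` centres are separated -/
theorem Trace.sep {w : ℕ → ℕ → ℝ} {V : Finset ℕ} (hG : Gr w V) {n : ℕ} {v src : ℕ → ℕ}
    {m : ℕ → ℤ} {cen : ℕ → ℤ → ℕ} (hT : Trace w n v src m cen) (j : ℤ) :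
    ∀ t ∈ Cset n m j, ∀ t' ∈ Cset n m j, t ≠ t' →
      ¬ Con w (bb (j - 1)) (99 / 100 * rr j) (v t) (v t') := by
  have key : ∀ t ∈ Cset n m j, ∀ t' ∈ Cset n m j, t < t' →
      ¬ Con w (bb (j - 1)) (99 / 100 * rr j) (v t) (v t') := by
    classical
    intro t ht t' ht' hlt hcon
    simp only [Cset, Finset.mem_filter, Finset.mem_range] at ht ht'
    have hex : ∃ t2, t < t2 ∧ j < m t2 := ⟨t', hlt, by omega⟩
    obtain ⟨h1, h2⟩ := Nat.find_spec hex
    have h3 : Nat.find hex ≤ t' := Nat.find_min' hex ⟨hlt, by omega⟩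
    set t2 := Nat.find hex with ht2
    obtain ⟨s, hs⟩ : ∃ s, t2 = s + 1 := ⟨t2 - 1, by omega⟩
    have hcen : cen s j = t := by
      refine hT.cen_eq_aux (by omega) (by omega) j ht.2 ?_
      intro u hu1 hu2
      by_contra hcon'
      push Not at hcon'
      have h4 : u < Nat.find hex := by omega
      exact Nat.find_min hex h4 ⟨hu1, hcon'⟩
    have hno := hT.min s (by omega) j (by rw [← hs]; exact h2)
    rw [hcen] at hno
    have h4 : v t' ∈ ES v s := ball_explored hG (ES v s) j (mem_ES (by omega)) hno hcon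
    simp only [ES, Finset.mem_image, Finset.mem_range] at h4
    obtain ⟨u, hu1, hu2⟩ := h4
    have := hT.v_inj (by omega) (by omega) hu2
    omega
  intro t ht t' ht' hne hcon
  rcases Nat.lt_or_gt_of_ne hne with h | h
  · exact key t ht t' ht' h hcon
  · exact key t' ht' t ht h (hcon.symm hG.symm)

/-- (A4) -/
theorem Trace.elig {w : ℕ → ℕ → ℝ} {n : ℕ} {v src : ℕ → ℕ} {m : ℕ → ℤ} {cen : ℕ → ℤ → ℕ}
    (hT : Trace w n v src m cen) {t : ℕ} (ht : t < n) :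
    ¬ Con w (bb (kap w v src (t + 1) - 1)) (rr (kap w v src (t + 1)) / 10)
      (v (src (t + 1))) (v (t + 1)) := by
  rintro ⟨L, hL, hW⟩
  have hst := hT.step t ht
  obtain ⟨⟨⟨hy, hz, hpos⟩, hel⟩, -, -⟩ := hst
  obtain ⟨y', z', L1, hy', hz', hyz', hW1, hle⟩ := hW.exit (ES v t) (fun a b h => h.1.le) hy hz
  have h1 : cls (w y' z') ≤ kap w v src (t + 1) - 1 := (le_bb_iff hyz'.1 _).1 hyz'.2
  refine hel y' z' ⟨hy', hz', hyz'.1⟩ ?_ ⟨L1, ?_, hW1⟩
  · unfold kap at h1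
    omega
  · have h2 := hyz'.1
    unfold kap at hL
    linarith

end Pool.Agent.Lib.MP_ed4bd1_lc
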