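import Pool.Agent.Lib.MP_ed4bd1_lc.TraceA

set_option autoImplicit false

namespace Pool.Agent.Lib.MP_ed4bd1_lc

/-! ## N2: distances to the centres and classification of the steps -/

/-- monotonicity and characterization of `cen` -/
theorem Trace.cen_eq {w : ℕ → ℕ → ℝ} {n : ℕ} {v src : ℕ → ℕ} {m : ℕ → ℤ} {cen : ℕ → ℤ → ℕ}
    (hT : Trace w n v src m cen) {t c : ℕ} (ht : t ≤ n) (hc : c ≤ t) (i : ℤ)
    (h1 : c = 0 ∨ i < m c) (h2 : ∀ t', c < t' → t' ≤ t → m t' ≤ i) : cen t i = c :=
  hT.cen_eq_aux ht hc i h1 h2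

theorem Trace.cen_mono {w : ℕ → ℕ → ℝ} {n : ℕ} {v src : ℕ → ℕ} {m : ℕ → ℤ} {cen : ℕ → ℤ → ℕ}
    (hT : Trace w n v src m cen) {t t' : ℕ} (ht : t ≤ t') (ht' : t' ≤ n) (i : ℤ) :
    cen t i ≤ cen t' i := by
  induction t', ht using Nat.le_induction with
  | base => exact le_rfl
  | succ t' htt ih =>
    have ih := ih (by omega)
    rw [hT.cen_succ t' (by omega)]
    split_ifs with h
    · have := (hT.cen_le (t := t) (by omega) i).1
      omega
    · exact ih

theorem Trace.cen_comp {w : ℕ → ℕ → ℝ} {n : ℕ} {v src : ℕ → ℕ} {m : ℕ → ℤ} {cen : ℕ → ℤ → ℕ}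
    (hT : Trace w n v src m cen) {t : ℕ} (ht : t ≤ n) {M i : ℤ} (hMi : M ≤ i) :
    cen (cen t M) i = cen t i := by
  induction t with
  | zero => rw [hT.cen0 M]
  | succ t ih =>
    have ih := ih (by omega)
    by_cases h : M < m (t + 1)
    · have h1 : cen (t + 1) M = t + 1 := by rw [hT.cen_succ t (by omega), if_pos h]
      rw [h1]
    · have h1 : cen (t + 1) M = cen t M := by rw [hT.cen_succ t (by omega), if_neg h]
      have h2 : cen (t + 1) i = cen t i := by
        rw [hT.cen_succ t (by omega), if_neg (by omega)]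
      rw [h1, h2]
      exact ih

/-- `sum_{k ≤ i} r_k` -/
noncomputable def sg (i : ℤ) : ℝ := rr i * (10000000 / 9999999)

theorem sg_pred (i : ℤ) : sg i = rr i + sg (i - 1) := by
  unfold sg; rw [rr_pred]; ring

theorem sg_mono {i j : ℤ} (h : i ≤ j) : sg i ≤ sg j := by
  unfold sg; have := rr_mono h; linarith

theorem sg_pos (i : ℤ) : 0 < sg i := by
  unfold sg; have := rr_pos i; positivity

/-- the last step, inside the new explored set -/
theorem Trace.step_con {w : ℕ → ℕ → ℝ} {n : ℕ} {v src : ℕ → ℕ} {m : ℕ → ℤ} {cen : ℕ → ℤ → ℕ}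
    (hT : Trace w n v src m cen) {t : ℕ} (ht : t < n) :
    ConIn w (ES v (t + 1)) (bb (m (t + 1) - 1)) (rr (m (t + 1))) (v (cen t (m (t + 1))))
      (v (t + 1)) := by
  obtain ⟨⟨⟨hy, hz, hpos⟩, hel⟩, hcl, hcon⟩ := hT.step t ht
  have h1 := hcon.monoE (ES_mono (Nat.le_succ t)) le_rfl
  have h2 : ConIn w (ES v (t + 1)) (bb (m (t + 1) - 1)) (w (v (src (t + 1))) (v (t + 1)))
      (v (src (t + 1))) (v (t + 1)) := by
    refine ConR.single ⟨ES_mono (Nat.le_succ t) hy, mem_ES le_rfl, hpos, ?_⟩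
    exact (le_bb_iff hpos _).2 (by omega)
  exact (h1.trans h2).mono (by linarith)

theorem Trace.near_cen_aux {w : ℕ → ℕ → ℝ} {n : ℕ} {v src : ℕ → ℕ}
    {m : ℕ → ℤ} {cen : ℕ → ℤ → ℕ} (hT : Trace w n v src m cen) (t : ℕ) (ht : t < n) (i : ℤ)
    (hi : m (t + 1) ≤ i) :
    ConIn w (ES v (t + 1)) (bb (i - 1)) (sg i - sg (m (t + 1) - 1)) (v (cen (t + 1) i))
      (v (t + 1)) := by
  induction t using Nat.strong_induction_on generalizing i with
  | _ t ih =>
    set M := m (t + 1) with hM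
    have h0 := hT.step_con ht
    rw [← hM] at h0
    have h0' : ConIn w (ES v (t + 1)) (bb (i - 1)) (rr M) (v (cen t M)) (v (t + 1)) :=
      h0.monoE (Finset.Subset.refl _) (bb_mono (by omega))
    have hsM := sg_pred M
    have hsi := sg_mono hi
    have h1 : cen (t + 1) i = cen t i := by
      rw [hT.cen_succ t ht, if_neg (by omega)]
    have h2 : cen t i = cen (cen t M) i := (hT.cen_comp (by omega) hi).symm
    rw [h1, h2]
    have hcle := hT.cen_le (t := t) (by omega) M
    set c := cen t M with hc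
    by_cases hcc : c = 0 ∨ i < m c
    · have h3 : cen c i = c := by
        rcases Nat.eq_zero_or_pos c with h | h
        · rw [h, hT.cen0]
        · obtain ⟨s, hs⟩ : ∃ s, c = s + 1 := ⟨c - 1, by omega⟩
          rw [hs, hT.cen_succ s (by omega), if_pos]
          rw [← hs]
          rcases hcc with h' | h'
          · omega
          · exact h'
      rw [h3]
      exact h0'.mono (by linarith)
    · rw [not_or, not_lt] at hcc
      obtain ⟨s, hs⟩ : ∃ s, c = s + 1 := ⟨c - 1, by omega⟩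
      have hmc : M < m c := by
        rcases hcle.2 with h | h
        · exact absurd h hcc.1
        · exact h
      have h4 := ih s (by omega) (by omega) i (by rw [← hs]; exact hcc.2)
      rw [← hs] at h4
      have h5 := h4.monoE (ES_mono (show c ≤ t + 1 by omega)) (le_refl (bb (i - 1)))
      refine (h5.trans h0').mono ?_
      have h6 : sg M ≤ sg (m c - 1) := sg_mono (by omega)
      linarith

/-- (A2) -/
theorem Trace.near_cen {w : ℕ → ℕ → ℝ} {V : Finset ℕ} (hG : Gr w V) {n : ℕ} {v src : ℕ → ℕ}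
    {m : ℕ → ℤ} {cen : ℕ → ℤ → ℕ} (hT : Trace w n v src m cen) {t : ℕ} (ht : t ≤ n) (i : ℤ) :
    ConIn w (ES v t) (bb (i - 1)) ((1 + 1 / 1000000) * rr i) (v (cen t i)) (v t) := by
  have hr := rr_pos i
  rcases Nat.eq_zero_or_pos t with h | h
  · subst h
    rw [hT.cen0]
    exact ConIn.refl (by positivity) _
  · obtain ⟨s, rfl⟩ : ∃ s, t = s + 1 := ⟨t - 1, by omega⟩
    by_cases hi : i < m (s + 1)
    · rw [hT.cen_succ s (by omega), if_pos hi]
      exact ConIn.refl (by positivity) _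
    · refine (hT.near_cen_aux s (by omega) i (by omega)).mono ?_
      have h1 := sg_pos (m (s + 1) - 1)
      unfold sg at h1 ⊢
      linarith

/-- parent of the step: the centre of `src` -/
theorem Trace.parent {w : ℕ → ℕ → ℝ} {V : Finset ℕ} (hG : Gr w V) {n : ℕ} {v src : ℕ → ℕ}
    {m : ℕ → ℤ} {cen : ℕ → ℤ → ℕ} (hT : Trace w n v src m cen) {t : ℕ} (ht : t < n) (j : ℤ)
    (hj : kap w v src (t + 1) < j) :
    Con w (bb (j - 1)) (1001 / 1000 * rr j) (v (cen (src (t + 1)) j)) (v (t + 1)) := by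
  have hsrc := hT.src_le t ht
  have h1 := (hT.near_cen hG (t := src (t + 1)) (by omega) j).con
  have hpos : 0 < w (v (src (t + 1))) (v (t + 1)) := (hT.step t ht).1.1.2.2
  have hle : w (v (src (t + 1))) (v (t + 1)) ≤ bb (j - 1) :=
    (le_bb_iff hpos _).2 (by unfold kap at hj; omega)
  have h2 : Con w (bb (j - 1)) (w (v (src (t + 1))) (v (t + 1))) (v (src (t + 1))) (v (t + 1)) :=
    Con.single ⟨hpos, hle⟩
  refine (h1.trans h2).mono ?_
  have hr := rr_pos j
  unfold bb at hle
  rw [rr_pred] at hle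
  linarith

theorem Trace.classify {w : ℕ → ℕ → ℝ} {V : Finset ℕ} (hG : Gr w V) {n : ℕ} {v src : ℕ → ℕ}
    {m : ℕ → ℤ} {cen : ℕ → ℤ → ℕ} (hT : Trace w n v src m cen) {t : ℕ} (ht : t < n) :
    (∃ c, ConE w (ES v t) c (v t) (v (src (t + 1))) ∧
      c + w (v (src (t + 1))) (v (t + 1)) ≤ 4 * rr (kap w v src (t + 1) + 1)) ∨
    (∃ j, kap w v src (t + 1) < j ∧ j < m (t + 1) ∧ cen (src (t + 1)) j < cen t j ∧
      (∃ c, ConE w (ES v t) c (v t) (v (src (t + 1))) ∧
        c + w (v (src (t + 1))) (v (t + 1)) ≤ 4 * rr (j + 1)) ∧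
      Con w (bb j) (5 / 2 * rr (j + 1)) (v (t + 1)) (v (cen t j))) := by
  classical
  have hsrc := hT.src_le t ht
  obtain ⟨⟨⟨hy, hz, hpos⟩, hel⟩, hcl, hcon⟩ := hT.step t ht
  set κ := kap w v src (t + 1) with hκ
  have hκ' : cls (w (v (src (t + 1))) (v (t + 1))) = κ := rfl
  rw [hκ'] at hcl
  set M := m (t + 1) with hM
  set W := w (v (src (t + 1))) (v (t + 1)) with hW
  have hWκ : W ≤ bb κ := le_bb_cls hpos
  -- both ends are near a common centre of level `i`
  have near : ∀ i, κ < i → cen (src (t + 1)) i = cen t i →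
      (∃ c, ConE w (ES v t) c (v t) (v (src (t + 1))) ∧ c + W ≤ 4 * rr i) ∧
      Con w (bb (i - 1)) (12 / 10 * rr i) (v (t + 1)) (v (cen t i)) := by
    intro i hi heq
    have h1 := hT.near_cen hG (t := t) (by omega) i
    have h2 := (hT.near_cen hG (t := src (t + 1)) (by omega) i).monoE (ES_mono hsrc)
      (le_refl (bb (i - 1)))
    rw [heq] at h2
    have hr := rr_pos i
    have h3 : W ≤ bb (i - 1) := hWκ.trans (bb_mono (by omega))
    have h4 : bb (i - 1) ≤ rr i / 10 := by
      unfold bb; rw [rr_pred]; linarith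
    refine ⟨⟨_, ((h1.symm hG.symm).trans h2).conE, by linarith⟩, ?_⟩
    have h5 : Con w (bb (i - 1)) W (v (t + 1)) (v (src (t + 1))) :=
      Con.symm hG.symm (Con.single ⟨hpos, h3⟩)
    refine (h5.trans (h2.con.symm hG.symm)).mono (by linarith)
  -- the same for the level `M`
  have nearM : (∃ c, ConE w (ES v t) c (v t) (v (src (t + 1))) ∧ c + W ≤ 4 * rr M) ∧
      Con w (bb (M - 1)) (12 / 10 * rr M) (v (t + 1)) (v (cen t M)) := by
    have h1 := hT.near_cen hG (t := t) (by omega) M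
    have hr := rr_pos M
    have h3 : W ≤ bb (M - 1) := hWκ.trans (bb_mono (by omega))
    refine ⟨⟨_, ((h1.symm hG.symm).trans hcon).conE, by linarith⟩, ?_⟩
    have h5 : Con w (bb (M - 1)) W (v (t + 1)) (v (src (t + 1))) :=
      Con.symm hG.symm (Con.single ⟨hpos, h3⟩)
    refine (h5.trans (hcon.con.symm hG.symm)).mono (by linarith)
  by_cases h1 : M = κ + 1
  · left
    rw [h1] at nearM
    exact nearM.1
  by_cases h2 : cen (src (t + 1)) (κ + 1) = cen t (κ + 1)
  · left
    exact (near (κ + 1) (by omega) h2).1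
  right
  -- the largest level where the centres differ
  let S : Finset ℤ := (Finset.Ioo κ M).filter (fun i => cen (src (t + 1)) i ≠ cen t i)
  have hS : S.Nonempty := ⟨κ + 1, by
    simp only [S, Finset.mem_filter, Finset.mem_Ioo]
    exact ⟨⟨by omega, by omega⟩, h2⟩⟩
  set j := S.max' hS with hj
  have hjS := S.max'_mem hS
  rw [← hj] at hjS
  simp only [S, Finset.mem_filter, Finset.mem_Ioo] at hjS
  obtain ⟨⟨hj1, hj2⟩, hj3⟩ := hjS
  have hlt : cen (src (t + 1)) j < cen t j :=
    lt_of_le_of_ne (hT.cen_mono hsrc (by omega) j) hj3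
  have hup : (∃ c, ConE w (ES v t) c (v t) (v (src (t + 1))) ∧ c + W ≤ 4 * rr (j + 1)) ∧
      Con w (bb j) (12 / 10 * rr (j + 1)) (v (t + 1)) (v (cen t (j + 1))) := by
    by_cases h3 : j + 1 = M
    · have h4 : j = M - 1 := by omega
      rw [← h3] at nearM
      rw [add_sub_cancel_right] at nearM
      exact nearM
    · have h4 : cen (src (t + 1)) (j + 1) = cen t (j + 1) := by
        by_contra hne
        have h5 : j + 1 ∈ S := by
          simp only [S, Finset.mem_filter, Finset.mem_Ioo]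
          exact ⟨⟨by omega, by omega⟩, hne⟩
        have := S.le_max' _ h5
        omega
      have h6 := near (j + 1) (by omega) h4
      rw [add_sub_cancel_right] at h6
      exact h6
  refine ⟨j, hj1, hj2, hlt, hup.1, ?_⟩
  have h7 := (hT.near_cen hG (t := cen t j) (by
    have := (hT.cen_le (t := t) (by omega) j).1
    omega) (j + 1)).con
  rw [hT.cen_comp (by omega) (by omega : j ≤ j + 1), add_sub_cancel_right] at h7
  have hr := rr_pos (j + 1)
  exact (hup.2.trans h7).mono (by linarith)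

end Pool.Agent.Lib.MP_ed4bd1_lc
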