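import Pool.Agent.Lib.MP_ed4bd1_lc.TDefs
import Pool.Agent.Lib.MP_ed4bd1_lc.T1
import Pool.Agent.Lib.MP_ed4bd1_lc.T2
import Pool.Agent.Lib.MP_ed4bd1_lc.Mst
import Pool.Agent.Lib.MP_ed4bd1_lc.TraceA
import Pool.Agent.Lib.MP_ed4bd1_lc.TraceB
import Pool.Agent.Lib.MP_ed4bd1_lc.SumN0
import Pool.Agent.Lib.MP_ed4bd1_lc.Sum

set_option autoImplicit false

namespace Pool.Agent.Lib.MP_ed4bd1_lc

theorem plen_cons_cons (w : ℕ → ℕ → ℝ) (a b : ℕ) (l : List ℕ) :
    plen w (a :: b :: l) = w a b + plen w (b :: l) := by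
  simp [plen]

theorem plen_nonneg {w : ℕ → ℕ → ℝ} (hw : ∀ u v, 0 ≤ w u v) (l : List ℕ) : 0 ≤ plen w l := by
  unfold plen
  apply List.sum_nonneg
  intro x hx
  rw [List.mem_map] at hx
  obtain ⟨e, -, rfl⟩ := hx
  exact hw _ _

/-- two vertices of a walk with all edges `≤ b` are joined within its length -/
theorem walk_con {w : ℕ → ℕ → ℝ} (hs : ∀ u v, w u v = w v u) (hw : ∀ u v, 0 ≤ w u v) {b : ℝ}
    (l : List ℕ) (hl : l.IsChain (fun x y => 0 < w x y)) (hb : plen w l ≤ b) :
    ∀ x ∈ l, ∀ y ∈ l, Con w b (plen w l) x y := by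
  induction l with
  | nil => intro x hx; simp at hx
  | cons a l ih =>
    cases l with
    | nil =>
      intro x hx y hy
      simp only [List.mem_cons, List.not_mem_nil, or_false] at hx hy
      rw [hx, hy]
      exact Con.refl (plen_nonneg hw _) _
    | cons a' l =>
      rw [List.isChain_cons_cons] at hl
      rw [plen_cons_cons] at hb ⊢
      have h0 := plen_nonneg hw (a' :: l)
      have ih' := ih hl.2 (by linarith [hw a a'])
      have hedge : Con w b (w a a') a a' := Con.single ⟨hl.1, by linarith⟩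
      have hfrom : ∀ y ∈ a' :: l, Con w b (w a a' + plen w (a' :: l)) a y := fun y hy =>
        hedge.trans (ih' a' (by simp) y hy)
      intro x hx y hy
      rw [List.mem_cons] at hx hy
      rcases hx with rfl | hx
      · rcases hy with rfl | hy
        · exact Con.refl (add_nonneg (hw _ _) h0) _
        · exact hfrom y hy
      · rcases hy with rfl | hy
        · exact (hfrom x hx).symm hs
        · exact (ih' x hx y hy).mono (by linarith [hw a a'])

/-- the constant -/
noncomputable def CCc : ℝ :=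
  4 * 10000000 * (2 * 10 ^ 24 + (4 * 40000000 + 4) * (2 * 10 ^ 11 + 3 * (2 * 10 ^ 24)))

theorem trace_cost : ∃ CC : ℝ, 0 ≤ CC ∧ ∀ {w : ℕ → ℕ → ℝ} {V : Finset ℕ}, Gr w V →
    (∀ u ∈ V, ∀ v ∈ V, Relation.ReflTransGen (fun x y => 0 < w x y) u v) →
    ∀ {n : ℕ} {v src : ℕ → ℕ} {m : ℕ → ℤ} {cen : ℕ → ℤ → ℕ}, Trace w n v src m cen →
    (∀ t, t ≤ n → v t ∈ V) →
    ∀ l : List ℕ, l.IsChain (fun a b => 0 < w a b) → (∀ v ∈ V, v ∈ l) →
    ∃ c : ℕ → ℝ, (∀ t, t < n → ConE w (ES v t) (c t) (v t) (v (src (t + 1)))) ∧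
      ∑ t ∈ Finset.range n, (c t + w (v (src (t + 1))) (v (t + 1))) ≤
        CC * ((l.zip l.tail).map (fun e => w e.1 e.2)).sum := by
  classical
  refine ⟨CCc, by unfold CCc; norm_num, ?_⟩
  intro w V hG hconn n v src m cen hT hvV l hl hcov
  obtain ⟨M, hM1, hM2, hM3⟩ := exists_mst hG hconn
  have hlen := hM3 l hl hcov
  obtain ⟨len, hlendef⟩ : ∃ len, len = plen w l := ⟨_, rfl⟩
  have hlen' : ∑ e ∈ M, w e.1 e.2 ≤ len := by rw [hlendef]; exact hlen
  have hlen0 : 0 ≤ len := by rw [hlendef]; exact plen_nonneg hG.nonneg l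
  change ∃ c : ℕ → ℝ, (∀ t, t < n → ConE w (ES v t) (c t) (v t) (v (src (t + 1)))) ∧
      ∑ t ∈ Finset.range n, (c t + w (v (src (t + 1))) (v (t + 1))) ≤ CCc * plen w l
  rw [← hlendef]
  -- numbers of bad centres
  obtain ⟨N, hN⟩ : ∃ N : ℤ → ℝ, N = fun j =>
    (((Cset n m j).filter (fun t => BadZ w j (v t))).card : ℝ) := ⟨_, rfl⟩
  have hNj : ∀ j, N j = (((Cset n m j).filter (fun t => BadZ w j (v t))).card : ℝ) := by
    intro j; rw [hN]
  have hN0 : ∀ j, 0 ≤ N j := by intro j; rw [hNj]; positivity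
  have hCle : ∀ j, ∀ t ∈ Cset n m j, t ≤ n := by
    intro j t ht
    unfold Cset at ht
    rw [Finset.mem_filter, Finset.mem_range] at ht
    omega
  have hsepT := fun j => hT.sep hG j
  have hY : ∀ lo hi, ∑ j ∈ Finset.Ico lo hi, rr j * N j ≤ 2 * 10 ^ 24 * len := by
    intro lo hi
    have h1 := sumN_of_T1 (by
      intro w V r B hG hr hB T F hS M hM hM2 Z hZV hsep hbad
      exact T1 hG hr hB hS M hM hM2 Z hZV hsep hbad) hG M hM1 hM2
      (fun j => (Cset n m j).image v) (by
        intro j x hx
        rw [Finset.mem_image] at hx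
        obtain ⟨t, ht, rfl⟩ := hx
        exact hvV t (hCle j t ht)) (by
        intro j z hz z' hz' hne
        rw [Finset.mem_image] at hz hz'
        obtain ⟨t, ht, rfl⟩ := hz
        obtain ⟨t', ht', rfl⟩ := hz'
        exact hsepT j t ht t' ht' (fun h => hne (by rw [h]))) lo hi
    have h2 : ∀ j, ((((Cset n m j).image v).filter (BadZ w j)).card : ℝ) = N j := by
      intro j
      rw [hNj, Finset.filter_image, Finset.card_image_of_injOn]
      intro t ht t' ht' heq
      simp only [Finset.coe_filter, Set.mem_ofPred_eq] at ht ht'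
      exact hT.v_inj (hCle j t ht.1) (hCle j t' ht'.1) heq
    simp only [h2] at h1
    refine h1.trans ?_
    exact mul_le_mul_of_nonneg_left hlen' (by norm_num)
  -- classification
  obtain ⟨cost1, hcost1⟩ : ∃ P : ℕ → ℝ → Prop, P = fun t c =>
      ConE w (ES v t) c (v t) (v (src (t + 1))) ∧
      c + w (v (src (t + 1))) (v (t + 1)) ≤ 4 * rr (kap w v src (t + 1) + 1) := ⟨_, rfl⟩
  obtain ⟨jump, hjump⟩ : ∃ jump : ℕ → Prop, jump = fun t => ¬ ∃ c, cost1 t c := ⟨_, rfl⟩
  have hclass : ∀ t, ∃ (j : ℤ) (c : ℝ), t < n →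
      ConE w (ES v t) c (v t) (v (src (t + 1))) ∧
      (¬ jump t → c + w (v (src (t + 1))) (v (t + 1)) ≤ 4 * rr (kap w v src (t + 1) + 1)) ∧
      (jump t → kap w v src (t + 1) < j ∧ j < m (t + 1) ∧ cen (src (t + 1)) j < cen t j ∧
        c + w (v (src (t + 1))) (v (t + 1)) ≤ 4 * rr (j + 1) ∧
        Con w (bb j) (5 / 2 * rr (j + 1)) (v (t + 1)) (v (cen t j))) := by
    intro t
    by_cases ht : t < n
    · by_cases hj : jump t
      · rcases hT.classify hG ht with ⟨c, h1, h2⟩ | ⟨j, h1, h2, h3, ⟨c, h4, h5⟩, h6⟩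
        · exfalso
          rw [hjump, hcost1] at hj
          exact hj ⟨c, h1, h2⟩
        · exact ⟨j, c, fun _ => ⟨h4, fun h => absurd hj h, fun _ => ⟨h1, h2, h3, h5, h6⟩⟩⟩
      · have hj' := hj
        rw [hjump, hcost1] at hj'
        push Not at hj'
        obtain ⟨c, h1, h2⟩ := hj'
        exact ⟨0, c, fun _ => ⟨h1, fun _ => h2, fun h => absurd h hj⟩⟩
    · exact ⟨0, 0, fun h => absurd h ht⟩
  choose jl c hc using hclass
  refine ⟨c, fun t ht => (hc t ht).1, ?_⟩
  -- level of a step
  have hkm : ∀ t, t < n → kap w v src (t + 1) < m (t + 1) := fun t ht => (hT.step t ht).2.1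
  have hedge : ∀ t, t < n → 0 < w (v (src (t + 1))) (v (t + 1)) := fun t ht =>
    (hT.step t ht).1.1.2.2
  have hCmem : ∀ t j, t < n → j < m (t + 1) → t + 1 ∈ Cset n m j := by
    intro t j ht hj
    unfold Cset
    rw [Finset.mem_filter, Finset.mem_range]
    exact ⟨by omega, Or.inr hj⟩
  have hCcen : ∀ t j, t ≤ n → cen t j ∈ Cset n m j := by
    intro t j ht
    have h1 := hT.cen_le ht j
    unfold Cset
    rw [Finset.mem_filter, Finset.mem_range]
    exact ⟨by omega, h1.2⟩
  -- (G)
  have hκ : ∀ k, (((Finset.range n).filter (fun t => kap w v src (t + 1) = k)).card : ℝ) ≤ N k := by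
    intro k
    rw [hNj]
    have : ((Finset.range n).filter (fun t => kap w v src (t + 1) = k)).card ≤
        ((Cset n m k).filter (fun t => BadZ w k (v t))).card := by
      apply Finset.card_le_card_of_injOn (fun t => t + 1)
      · intro t ht
        simp only [Finset.coe_filter, Finset.mem_range, Set.mem_ofPred_eq] at ht ⊢
        obtain ⟨ht, hk⟩ := ht
        have hkm' := hkm t ht
        rw [hk] at hkm'
        refine ⟨hCmem t k ht hkm', ?_⟩
        intro hgz
        obtain ⟨u, hu⟩ := hgz
        have hr := rr_pos k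
        have hw := hedge t ht
        have hwb : w (v (src (t + 1))) (v (t + 1)) ≤ bb k := by
          have := le_bb_cls hw
          unfold kap at hk
          rwa [hk] at this
        have hbbk : bb k = rr k / 10000 := rfl
        have hE : Con w (bb k) (w (v (src (t + 1))) (v (t + 1))) (v (src (t + 1))) (v (t + 1)) :=
          Con.single ⟨hw, hwb⟩
        have h0 : Con w (bb k) (5 * 10000000 * rr k) (v (t + 1)) (v (t + 1)) :=
          Con.refl (by positivity) _
        have h1 : Con w (bb k) (5 * 10000000 * rr k) (v (t + 1)) (v (src (t + 1))) :=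
          (hE.symm hG.symm).mono (by rw [hbbk] at hwb; linarith)
        obtain ⟨h2, h3⟩ := hu _ _ h1 h0
        have h4 := h3 _ (by rw [hbbk] at hwb; linarith) hE
        have h5 := hT.elig ht
        rw [hk] at h5
        apply h5
        refine h2.mono ?_
        rw [hbbk] at hwb
        linarith
      · intro a _ b _ hab
        simpa using hab
    exact_mod_cast this
  -- (T2)
  have hj : ∀ j, (((Finset.range n).filter (fun t => jump t ∧ jl t = j)).card : ℝ) ≤
      (4 * 40000000 + 4) * (1 + N j +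
        ((Finset.range n).filter (fun t => j ≤ kap w v src (t + 1))).card) := by
    intro j
    have hr := rr_pos j
    have hrs := rr_succ j
    have h1 := T2 (w := w) (b := bb (j - 1)) (b' := bb j) (r := rr j) (B := 10000000)
      (n := 40000000) hG.symm hr (by norm_num) (by norm_num) (bb_pos _).le
      (bb_mono (by omega)) le_rfl v (Cset n m j) (by
        unfold Cset
        rw [Finset.mem_filter, Finset.mem_range]
        exact ⟨by omega, Or.inl rfl⟩)
      (fun t => kap w v src t < j) (fun t => cen (src t) j)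
      (by
        intro t ht ht0 hlow
        obtain ⟨t0, rfl⟩ : ∃ t0, t = t0 + 1 := ⟨t - 1, by omega⟩
        have htn := hCle j _ ht
        have hsrc := hT.src_le t0 (by omega)
        refine ⟨hCcen _ j (by omega), ?_, hT.parent hG (by omega) j hlow⟩
        have := (hT.cen_le (t := src (t0 + 1)) (by omega) j).1
        omega)
      (hsepT j)
      (((Finset.range n).filter (fun t => jump t ∧ jl t = j)).image (fun t => t + 1))
      (by
        intro t ht
        rw [Finset.mem_image] at ht
        obtain ⟨t0, ht0, rfl⟩ := ht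
        rw [Finset.mem_filter, Finset.mem_range] at ht0
        obtain ⟨h1, h2, h3⟩ := ht0
        have h4 := (hc t0 h1).2.2 h2
        exact hCmem t0 j h1 (by rw [← h3]; exact h4.2.1))
      (by
        intro t ht
        rw [Finset.mem_image] at ht
        obtain ⟨t0, ht0, rfl⟩ := ht
        rw [Finset.mem_filter, Finset.mem_range] at ht0
        obtain ⟨h1, h2, h3⟩ := ht0
        have h4 := (hc t0 h1).2.2 h2
        rw [h3] at h4
        refine ⟨by omega, h4.1, cen t0 j, hCcen _ j (by omega), h4.2.2.1, ?_, ?_⟩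
        · have := (hT.cen_le (t := t0) (by omega) j).1
          omega
        · have h5 := h4.2.2.2.2
          rw [hrs] at h5
          refine h5.mono ?_
          linarith)
    rw [Finset.card_image_of_injective _ (fun a b hab => by simpa using hab)] at h1
    refine h1.trans ?_
    have h2 : (((Cset n m j).filter (fun t => ¬ GZ w (bb (j - 1)) (bb j) (rr j)
        (5 * 10000000 * rr j) (v t))).card : ℝ) = N j := by
      rw [hNj]; congr!
    have h3 : ((Cset n m j).filter (fun t => t ≠ 0 ∧ ¬ kap w v src t < j)).card ≤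
        ((Finset.range n).filter (fun t => j ≤ kap w v src (t + 1))).card := by
      apply Finset.card_le_card_of_injOn (fun t => t - 1)
      · intro t ht
        simp only [Finset.coe_filter, Finset.mem_range, Set.mem_ofPred_eq] at ht ⊢
        obtain ⟨h1, h2, h3⟩ := ht
        have := hCle j t h1
        have e : t - 1 + 1 = t := by omega
        rw [e]
        exact ⟨by omega, by omega⟩
      · intro a ha b hb hab
        simp only [Finset.coe_filter, Set.mem_ofPred_eq] at ha hb
        simp only at hab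
        omega
    have h3' : (((Cset n m j).filter (fun t => t ≠ 0 ∧ ¬ kap w v src t < j)).card : ℝ) ≤
        (((Finset.range n).filter (fun t => j ≤ kap w v src (t + 1))).card : ℝ) := by
      exact_mod_cast h3
    rw [h2]
    push_cast
    refine mul_le_mul_of_nonneg_left (add_le_add le_rfl (le_trans (le_of_eq ?_) h3'))
      (by norm_num)
    congr!
  -- (X)
  have hX : ∀ t, t < n → jump t → rr (jl t) ≤ 10 ^ 11 * len := by
    intro t ht hjt
    by_contra hlt
    push Not at hlt
    obtain ⟨h1, h2, h3, -⟩ := (hc t ht).2.2 hjt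
    obtain ⟨j, hjdef⟩ : ∃ j, j = jl t := ⟨_, rfl⟩
    rw [← hjdef] at h1 h2 h3 hlt
    have hsrc := hT.src_le t ht
    have hcl := (hT.cen_le (t := src (t + 1)) (by omega) j).1
    have hne : cen (src (t + 1)) j ≠ t + 1 := by omega
    apply hsepT j _ (hCcen (src (t + 1)) j (by omega)) _ (hCmem t j ht h2) hne
    have hb : plen w l ≤ bb (j - 1) := by
      rw [← hlendef]
      have e1 : bb (j - 1) = rr j / 10 ^ 11 := by
        unfold bb; rw [rr_pred]; ring
      rw [e1]
      linarith
    have h5 := walk_con hG.symm hG.nonneg l hl hb (v (cen (src (t + 1)) j))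
      (hcov _ (hvV _ (by omega))) (v (t + 1)) (hcov _ (hvV _ (by omega)))
    refine h5.mono ?_
    rw [← hlendef]
    have := rr_pos j
    linarith
  have hfin := sum_bound n (fun t => kap w v src (t + 1)) jump jl
    (fun t => c t + w (v (src (t + 1))) (v (t + 1))) N hN0 (A := 4 * 40000000 + 4)
    (X := 10 ^ 11 * len) (Y := 2 * 10 ^ 24 * len) (by norm_num) (by positivity) (by positivity)
    (fun t ht hjt => (hc t ht).2.1 hjt) (fun t ht hjt => ((hc t ht).2.2 hjt).2.2.2.1)
    hκ hj hX hY
  refine hfin.trans (le_of_eq ?_)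
  unfold CCc
  ring

end Pool.Agent.Lib.MP_ed4bd1_lc
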