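import Pool.Agent.Lib.MP_ed4bd1_lc.Defs

set_option autoImplicit false

/-!
# Cutting chains (module M8a)
-/

namespace Pool.Agent.Lib.MP_ed4bd1_lc

theorem Adj.symm {F : Finset (ℕ × ℕ × ℝ)} {a b : ℕ} (h : Adj F a b) : Adj F b a := by
  obtain ⟨L, h⟩ := h
  exact ⟨L, h.symm⟩

theorem Link.symm {F : Finset (ℕ × ℕ × ℝ)} {a b : ℕ} (h : Link F a b) : Link F b a := by
  unfold Link at h ⊢
  induction h with
  | refl => exact Relation.ReflTransGen.refl
  | tail _ hbc ih => exact Relation.ReflTransGen.head hbc.symm ih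

theorem Adj.mono {F F' : Finset (ℕ × ℕ × ℝ)} (hF : ∀ e ∈ F, e ∈ F') {a b : ℕ} (h : Adj F a b) :
    Adj F' a b := by
  obtain ⟨L, h⟩ := h
  exact ⟨L, h.imp (hF _) (hF _)⟩

theorem Link.mono {F F' : Finset (ℕ × ℕ × ℝ)} (hF : ∀ e ∈ F, e ∈ F') {a b : ℕ} (h : Link F a b) :
    Link F' a b := by
  unfold Link at h ⊢
  induction h with
  | refl => exact Relation.ReflTransGen.refl
  | tail _ hbc ih => exact Relation.ReflTransGen.tail ih (hbc.mono hF)

/-- cutting a chain and adding a link. Retraction: inner vertices go to `c lo`. -/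
theorem cut_chain (F : Finset (ℕ × ℕ × ℝ)) (c : ℕ → ℕ) (l : ℕ → ℝ) {lo hi : ℕ} (hlh : lo < hi)
    (hinj : ∀ n n', lo ≤ n → n ≤ hi → lo ≤ n' → n' ≤ hi → c n = c n' → n = n')
    (hinner : ∀ n, lo < n → n < hi → ∀ e ∈ F, (e.1 = c n ∨ e.2.1 = c n) →
      e = (c (n - 1), c n, l (n - 1)) ∨ e = (c n, c (n + 1), l n))
    (F' : Finset (ℕ × ℕ × ℝ))
    (hF' : ∀ e ∈ F, (∀ n, lo ≤ n → n < hi → e ≠ (c n, c (n + 1), l n)) → e ∈ F')
    (hc : Link F' (c lo) (c hi)) {x y : ℕ}
    (hx : ∀ n, lo < n → n < hi → x ≠ c n) (hy : ∀ n, lo < n → n < hi → y ≠ c n)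
    (hxy : Link F x y) : Link F' x y := by
  classical
  let ρ : ℕ → ℕ := fun v => if ∃ n, lo < n ∧ n < hi ∧ v = c n then c lo else v
  have hρ0 : ∀ v, (∀ n, lo < n → n < hi → v ≠ c n) → ρ v = v := by
    intro v hv
    simp only [ρ]
    rw [if_neg]
    rintro ⟨n, h1, h2, h3⟩
    exact hv n h1 h2 h3
  have hρ1 : ∀ n, lo < n → n < hi → ρ (c n) = c lo := by
    intro n h1 h2
    simp only [ρ]
    rw [if_pos ⟨n, h1, h2, rfl⟩]
  have hlo : ρ (c lo) = c lo := by
    apply hρ0
    intro n h1 h2 h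
    have := hinj lo n le_rfl hlh.le h1.le h2.le h
    omega
  have hhi : ρ (c hi) = c hi := by
    apply hρ0
    intro n h1 h2 h
    have := hinj hi n hlh.le le_rfl h1.le h2.le h
    omega
  -- the image of a chain vertex
  have hch : ∀ n, lo ≤ n → n ≤ hi → Link F' (c lo) (ρ (c n)) := by
    intro n h1 h2
    rcases h1.eq_or_lt with rfl | h1
    · rw [hlo]; exact Relation.ReflTransGen.refl
    rcases h2.eq_or_lt with rfl | h2
    · rw [hhi]; exact hc
    · rw [hρ1 n h1 h2]; exact Relation.ReflTransGen.refl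
  have hchain : ∀ n n', lo ≤ n → n ≤ hi → lo ≤ n' → n' ≤ hi → Link F' (ρ (c n)) (ρ (c n')) :=
    fun n n' h1 h2 h3 h4 => (hch n h1 h2).symm.trans (hch n' h3 h4)
  have key : ∀ e ∈ F, Link F' (ρ e.1) (ρ e.2.1) := by
    intro e he
    by_cases h : ∀ n, lo ≤ n → n < hi → e ≠ (c n, c (n + 1), l n)
    · have h1 : ρ e.1 = e.1 := by
        apply hρ0
        intro n h1 h2 h3
        rcases hinner n h1 h2 e he (Or.inl h3) with h4 | h4
        · refine h (n - 1) (by omega) (by omega) ?_
          rw [h4]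
          have : n - 1 + 1 = n := by omega
          rw [this]
        · exact h n h1.le h2 h4
      have h2 : ρ e.2.1 = e.2.1 := by
        apply hρ0
        intro n h1 h2 h3
        rcases hinner n h1 h2 e he (Or.inr h3) with h4 | h4
        · refine h (n - 1) (by omega) (by omega) ?_
          rw [h4]
          have : n - 1 + 1 = n := by omega
          rw [this]
        · exact h n h1.le h2 h4
      rw [h1, h2]
      exact Relation.ReflTransGen.single ⟨e.2.2, Or.inl (hF' e he h)⟩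
    · push Not at h
      obtain ⟨n, h1, h2, h3⟩ := h
      rw [h3]
      exact hchain n (n + 1) h1 h2.le (by omega) (by omega)
  have hstep : ∀ a b, Adj F a b → Link F' (ρ a) (ρ b) := by
    rintro a b ⟨L, h | h⟩
    · exact key _ h
    · exact (key _ h).symm
  have hall : ∀ z, Link F x z → Link F' (ρ x) (ρ z) := by
    intro z hz
    unfold Link at hz
    induction hz with
    | refl => exact Relation.ReflTransGen.refl
    | tail _ hbc ih => exact Relation.ReflTransGen.trans ih (hstep _ _ hbc)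
  have := hall y hxy
  rwa [hρ0 x hx, hρ0 y hy] at this

set_option linter.unusedVariables false in
/-- first entrance into the inner part of a window -/
theorem first_entrance (F : Finset (ℕ × ℕ × ℝ)) (c : ℕ → ℕ) (l : ℕ → ℝ) {d m u : ℕ}
    (hdm : d < m) (hmu : m < u)
    (hinj : ∀ n n', d ≤ n → n ≤ u → d ≤ n' → n' ≤ u → c n = c n' → n = n')
    (hinner : ∀ n, d < n → n < u → ∀ e ∈ F, (e.1 = c n ∨ e.2.1 = c n) →
      e = (c (n - 1), c n, l (n - 1)) ∨ e = (c n, c (n + 1), l n))
    (F' : Finset (ℕ × ℕ × ℝ))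
    (hF' : ∀ e ∈ F, (∀ n, d ≤ n → n < u → e ≠ (c n, c (n + 1), l n)) → e ∈ F')
    {y : ℕ} (hy : ∀ n, d < n → n < u → y ≠ c n) (hya : Link F y (c m)) :
    Link F' y (c d) ∨ Link F' y (c u) := by
  have key : ∀ e ∈ F, ∀ v v', ((v = e.1 ∧ v' = e.2.1) ∨ (v = e.2.1 ∧ v' = e.1)) →
      (∀ n, d < n → n < u → v ≠ c n) →
      (v = c d ∨ v = c u) ∨ (e ∈ F' ∧ ∀ n, d < n → n < u → v' ≠ c n) := by
    intro e he v v' hv hvn
    by_cases h : ∀ n, d ≤ n → n < u → e ≠ (c n, c (n + 1), l n)
    · refine Or.inr ⟨hF' e he h, fun n h1 h2 h3 => ?_⟩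
      have h5 : e.1 = c n ∨ e.2.1 = c n := by
        rcases hv with ⟨-, hv⟩ | ⟨-, hv⟩
        · right; rw [← hv]; exact h3
        · left; rw [← hv]; exact h3
      rcases hinner n h1 h2 e he h5 with h4 | h4
      · refine h (n - 1) (by omega) (by omega) ?_
        rw [h4]
        have : n - 1 + 1 = n := by omega
        rw [this]
      · exact h n h1.le h2 h4
    · push Not at h
      obtain ⟨n, h1, h2, h3⟩ := h
      left
      rcases hv with ⟨hv, -⟩ | ⟨hv, -⟩
      · left
        rw [h3] at hv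
        simp only at hv
        rcases h1.eq_or_lt with h | h
        · rw [hv, h]
        · exact absurd hv (hvn n h h2)
      · right
        rw [h3] at hv
        simp only at hv
        rcases (show n + 1 ≤ u from h2).eq_or_lt with h | h
        · rw [hv, h]
        · exact absurd hv (hvn (n + 1) (by omega) h)
  unfold Link at hya
  induction hya using Relation.ReflTransGen.head_induction_on with
  | refl => exact absurd rfl (hy m hdm hmu)
  | head h1 h2 ih =>
    rename_i v v'
    obtain ⟨L, h | h⟩ := h1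
    · rcases key _ h v v' (Or.inl ⟨rfl, rfl⟩) hy with (h3 | h3) | ⟨h3, h4⟩
      · left; rw [h3]; exact Relation.ReflTransGen.refl
      · right; rw [h3]; exact Relation.ReflTransGen.refl
      · exact (ih h4).imp (fun h => Relation.ReflTransGen.head ⟨L, Or.inl h3⟩ h)
          (fun h => Relation.ReflTransGen.head ⟨L, Or.inl h3⟩ h)
    · rcases key _ h v v' (Or.inr ⟨rfl, rfl⟩) hy with (h3 | h3) | ⟨h3, h4⟩
      · left; rw [h3]; exact Relation.ReflTransGen.refl
      · right; rw [h3]; exact Relation.ReflTransGen.refl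
      · exact (ih h4).imp (fun h => Relation.ReflTransGen.head ⟨L, Or.inr h3⟩ h)
          (fun h => Relation.ReflTransGen.head ⟨L, Or.inr h3⟩ h)

end Pool.Agent.Lib.MP_ed4bd1_lc
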