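import Mathlib

set_option autoImplicit false

/-!
# MP_ed4bd1_lc (S15577): constant-competitive exploration -- basic definitions

`Con w b L u v`: there is a walk from `u` to `v` using only edges of weight in `(0, b]`,
of total length at most `L`.
-/

namespace Pool.Agent.Lib.MP_ed4bd1_lc

/-- walk of exact length `L` along the relation `R` -/
inductive WP (w : ℕ → ℕ → ℝ) (R : ℕ → ℕ → Prop) : ℝ → ℕ → ℕ → Prop
  | nil (u : ℕ) : WP w R 0 u u
  | cons {L : ℝ} {u v z : ℕ} : R u v → WP w R L v z → WP w R (w u v + L) u z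

/-- `u` and `v` are joined by an `R`-walk of length at most `L` -/
def ConR (w : ℕ → ℕ → ℝ) (R : ℕ → ℕ → Prop) (L : ℝ) (u v : ℕ) : Prop :=
  ∃ L', L' ≤ L ∧ WP w R L' u v

/-- edges of weight at most `b` -/
def Edge (w : ℕ → ℕ → ℝ) (b : ℝ) (u v : ℕ) : Prop := 0 < w u v ∧ w u v ≤ b

/-- edges of weight at most `b` inside `E` -/
def EdgeIn (w : ℕ → ℕ → ℝ) (E : Finset ℕ) (b : ℝ) (u v : ℕ) : Prop :=
  u ∈ E ∧ v ∈ E ∧ 0 < w u v ∧ w u v ≤ b

def Con (w : ℕ → ℕ → ℝ) (b L : ℝ) (u v : ℕ) : Prop := ConR w (Edge w b) L u v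

def ConIn (w : ℕ → ℕ → ℝ) (E : Finset ℕ) (b L : ℝ) (u v : ℕ) : Prop :=
  ConR w (EdgeIn w E b) L u v

section API

variable {w : ℕ → ℕ → ℝ} {R R' : ℕ → ℕ → Prop}

theorem WP.trans {L L' : ℝ} {u v z : ℕ} (h : WP w R L u v) (h' : WP w R L' v z) :
    WP w R (L + L') u z := by
  induction h with
  | nil u => simpa using h'
  | cons hR _ ih => rw [add_assoc]; exact WP.cons hR (ih h')

theorem WP.single {u v : ℕ} (h : R u v) : WP w R (w u v) u v := by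
  have := WP.cons (w := w) h (WP.nil v)
  simpa using this

theorem WP.symm (hs : ∀ u v, w u v = w v u) (hR : ∀ u v, R u v → R v u) {L : ℝ} {u v : ℕ}
    (h : WP w R L u v) : WP w R L v u := by
  induction h with
  | nil u => exact WP.nil u
  | @cons L u v z hR' _ ih =>
    have h1 : WP w R (w v u) v u := WP.single (hR _ _ hR')
    have := ih.trans h1
    rw [hs v u, add_comm] at this
    exact this

theorem WP.mono (hR : ∀ u v, R u v → R' u v) {L : ℝ} {u v : ℕ}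
    (h : WP w R L u v) : WP w R' L u v := by
  induction h with
  | nil u => exact WP.nil u
  | cons h1 _ ih => exact WP.cons (hR _ _ h1) ih

theorem WP.nonneg (hR : ∀ u v, R u v → 0 ≤ w u v) {L : ℝ} {u v : ℕ}
    (h : WP w R L u v) : 0 ≤ L := by
  induction h with
  | nil u => exact le_rfl
  | cons h1 _ ih => exact add_nonneg (hR _ _ h1) ih

theorem ConR.refl {L : ℝ} (hL : 0 ≤ L) (u : ℕ) : ConR w R L u u := ⟨0, hL, WP.nil u⟩

theorem ConR.mono {L L' : ℝ} {u v : ℕ} (hL : L ≤ L') (h : ConR w R L u v) : ConR w R L' u v := by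
  obtain ⟨a, ha, h⟩ := h; exact ⟨a, ha.trans hL, h⟩

theorem ConR.monoR (hR : ∀ u v, R u v → R' u v) {L : ℝ} {u v : ℕ} (h : ConR w R L u v) :
    ConR w R' L u v := by
  obtain ⟨a, ha, h⟩ := h; exact ⟨a, ha, h.mono hR⟩

theorem ConR.trans {L L' : ℝ} {u v z : ℕ} (h : ConR w R L u v) (h' : ConR w R L' v z) :
    ConR w R (L + L') u z := by
  obtain ⟨a, ha, h⟩ := h
  obtain ⟨b, hb, h'⟩ := h'
  exact ⟨a + b, add_le_add ha hb, h.trans h'⟩

theorem ConR.symm (hs : ∀ u v, w u v = w v u) (hR : ∀ u v, R u v → R v u) {L : ℝ} {u v : ℕ}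
    (h : ConR w R L u v) : ConR w R L v u := by
  obtain ⟨a, ha, h⟩ := h; exact ⟨a, ha, h.symm hs hR⟩

theorem ConR.single {u v : ℕ} (h : R u v) : ConR w R (w u v) u v := ⟨_, le_rfl, WP.single h⟩

theorem ConR.nonneg (hR : ∀ u v, R u v → 0 ≤ w u v) {L : ℝ} {u v : ℕ}
    (h : ConR w R L u v) : 0 ≤ L := by
  obtain ⟨a, ha, h⟩ := h; exact (h.nonneg hR).trans ha

theorem Con.refl {b L : ℝ} (hL : 0 ≤ L) (u : ℕ) : Con w b L u u := ConR.refl hL u

theorem Con.mono {b L L' : ℝ} {u v : ℕ} (hL : L ≤ L') (h : Con w b L u v) : Con w b L' u v :=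
  ConR.mono hL h

theorem Con.monob {b b' L : ℝ} {u v : ℕ} (hb : b ≤ b') (h : Con w b L u v) : Con w b' L u v :=
  ConR.monoR (fun _ _ h => ⟨h.1, h.2.trans hb⟩) h

theorem Con.trans {b L L' : ℝ} {u v z : ℕ} (h : Con w b L u v) (h' : Con w b L' v z) :
    Con w b (L + L') u z := ConR.trans h h'

theorem Con.symm (hs : ∀ u v, w u v = w v u) {b L : ℝ} {u v : ℕ}
    (h : Con w b L u v) : Con w b L v u :=
  ConR.symm hs (fun u v h => by unfold Edge at *; rw [hs v u]; exact h) h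

theorem Con.single {b : ℝ} {u v : ℕ} (h : Edge w b u v) : Con w b (w u v) u v := ConR.single h

theorem Con.nonneg {b L : ℝ} {u v : ℕ} (h : Con w b L u v) : 0 ≤ L :=
  ConR.nonneg (fun _ _ h => h.1.le) h

theorem ConIn.refl {E : Finset ℕ} {b L : ℝ} (hL : 0 ≤ L) (u : ℕ) : ConIn w E b L u u :=
  ConR.refl hL u

theorem ConIn.mono {E : Finset ℕ} {b L L' : ℝ} {u v : ℕ} (hL : L ≤ L') (h : ConIn w E b L u v) :
    ConIn w E b L' u v := ConR.mono hL h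

theorem ConIn.monoE {E E' : Finset ℕ} {b b' L : ℝ} {u v : ℕ} (hE : E ⊆ E') (hb : b ≤ b')
    (h : ConIn w E b L u v) : ConIn w E' b' L u v :=
  ConR.monoR (fun _ _ h => ⟨hE h.1, hE h.2.1, h.2.2.1, h.2.2.2.trans hb⟩) h

theorem ConIn.trans {E : Finset ℕ} {b L L' : ℝ} {u v z : ℕ} (h : ConIn w E b L u v)
    (h' : ConIn w E b L' v z) : ConIn w E b (L + L') u z := ConR.trans h h'

theorem ConIn.symm (hs : ∀ u v, w u v = w v u) {E : Finset ℕ} {b L : ℝ} {u v : ℕ}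
    (h : ConIn w E b L u v) : ConIn w E b L v u :=
  ConR.symm hs (fun u v h => by unfold EdgeIn at *; rw [hs v u]; tauto) h

theorem ConIn.con {E : Finset ℕ} {b L : ℝ} {u v : ℕ} (h : ConIn w E b L u v) : Con w b L u v :=
  ConR.monoR (fun _ _ h => h.2.2) h

theorem ConIn.nonneg {E : Finset ℕ} {b L : ℝ} {u v : ℕ} (h : ConIn w E b L u v) : 0 ≤ L :=
  ConR.nonneg (fun _ _ h => h.2.2.1.le) h

end API

/-! ## Good zones -/

/-- `GZ w b b' r R z`: on the `b'`-ball of radius `R` around `z`, the `b`-metric looks like a line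
at scale `r` (coordinate `u`). In the application `b = b_{j-1}`, `b' = b_j`, `r = r_j`. -/
def GZ (w : ℕ → ℕ → ℝ) (b b' r R : ℝ) (z : ℕ) : Prop :=
  ∃ u : ℕ → ℝ, ∀ v v', Con w b' R z v → Con w b' R z v' →
    Con w b (|u v - u v'| + r / 100) v v' ∧
    ∀ L, L ≤ 3 * r → Con w b' L v v' → |u v - u v'| ≤ L + r / 100

/-! ## Skeletons -/

/-- `a` and `b` are joined by a link of `F` -/
def Adj (F : Finset (ℕ × ℕ × ℝ)) (a b : ℕ) : Prop :=
  ∃ L, (a, b, L) ∈ F ∨ (b, a, L) ∈ F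

/-- `u` and `v` are connected by links of `F` -/
def Link (F : Finset (ℕ × ℕ × ℝ)) (u v : ℕ) : Prop := Relation.ReflTransGen (Adj F) u v

/-- total weight of the links -/
def wt (F : Finset (ℕ × ℕ × ℝ)) : ℝ := ∑ e ∈ F, e.2.2

/-- skeleton of the graph of edges `≤ b`: a weighted graph on a `t`-dense set `T ⊆ V`, connected
inside every component. -/
structure Skel (w : ℕ → ℕ → ℝ) (V : Finset ℕ) (b t : ℝ) (T : Finset ℕ)
    (F : Finset (ℕ × ℕ × ℝ)) : Prop where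
  sub : T ⊆ V
  endp : ∀ e ∈ F, e.1 ∈ T ∧ e.2.1 ∈ T
  val : ∀ e ∈ F, 0 ≤ e.2.2 ∧ Con w b e.2.2 e.1 e.2.1
  conn : ∀ u ∈ T, ∀ v ∈ T, ∀ L, Con w b L u v → Link F u v
  dense : ∀ v ∈ V, ∃ a ∈ T, Con w b t v a

/-- standing assumptions on the weight function -/
structure Gr (w : ℕ → ℕ → ℝ) (V : Finset ℕ) : Prop where
  symm : ∀ u v, w u v = w v u
  nonneg : ∀ u v, 0 ≤ w u v
  supp : ∀ u v, 0 < w u v → u ∈ V ∧ v ∈ V

/-! ## Rooted forests (`π` parent, `len` length of the link `x - π x`, `h` number of links to the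
root; roots are the fixed points of `π`) -/

structure RF (w : ℕ → ℕ → ℝ) (V : Finset ℕ) (b t ℓ : ℝ) (T : Finset ℕ) (π : ℕ → ℕ)
    (len : ℕ → ℝ) (h : ℕ → ℕ) : Prop where
  sub : T ⊆ V
  mem : ∀ x ∈ T, π x ∈ T
  hop : ∀ x ∈ T, π x ≠ x → h x = h (π x) + 1
  root : ∀ x ∈ T, π x = x → h x = 0
  len0 : ∀ x ∈ T, π x = x → len x = 0
  lenb : ∀ x ∈ T, 0 ≤ len x ∧ len x ≤ ℓ ∧ Con w b (len x) x (π x)
  conn : ∀ x ∈ T, ∀ y ∈ T, ∀ L, Con w b L x y → π^[h x] x = π^[h y] y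
  dense : ∀ v ∈ V, ∃ a ∈ T, Con w b t v a

/-- weighted depth -/
def dep (π : ℕ → ℕ) (len : ℕ → ℝ) (h : ℕ → ℕ) (x : ℕ) : ℝ :=
  ∑ i ∈ Finset.range (h x), len (π^[i] x)

/-- children of `x` in `T` -/
def kids (T : Finset ℕ) (π : ℕ → ℕ) (x : ℕ) : Finset ℕ := T.filter (fun y => π y = x ∧ y ≠ x)

/-- non-root leaves -/
def leaves (T : Finset ℕ) (π : ℕ → ℕ) : Finset ℕ :=
  T.filter (fun x => π x ≠ x ∧ kids T π x = ∅)

/-- chain decomposition of a rooted forest with breakpoint set `Q` : the chain of `q ∈ Q` is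
`q, π q, ..., π^[N q - 1] q`, the next vertex `π^[N q] q` is in `Q` again. `q x`, `i x` are the
chain and the index of `x`. -/
structure Chains (T : Finset ℕ) (π : ℕ → ℕ) (Q : Finset ℕ) (q i N : ℕ → ℕ) : Prop where
  mem : ∀ x ∈ T, q x ∈ Q
  iter : ∀ x ∈ T, π^[i x] (q x) = x
  lt : ∀ x ∈ T, i x < N (q x)
  pos : ∀ p ∈ Q, 0 < N p
  top : ∀ p ∈ Q, π^[N p] p ∈ Q
  inner : ∀ p ∈ Q, ∀ n, 0 < n → n < N p → π^[n] p ∉ Q
  uniq : ∀ p ∈ Q, ∀ n, n < N p → q (π^[n] p) = p ∧ i (π^[n] p) = n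

/-- data of one surgery site `a` in the graph `(T, F)`: a window `c d, ..., c u` of a chain through
`a = c m`, whose inner vertices only have their two chain links, and a partner `y` at
`b'`-distance `≤ L`. -/
structure Site (w : ℕ → ℕ → ℝ) (b b' r : ℝ) (T : Finset ℕ) (F : Finset (ℕ × ℕ × ℝ))
    (a y : ℕ) (L : ℝ) (c : ℕ → ℕ) (l : ℕ → ℝ) (d m u : ℕ) : Prop where
  hdm : d < m
  hmu : m < u
  hm : c m = a
  inj : ∀ n n', d ≤ n → n ≤ u → d ≤ n' → n' ≤ u → c n = c n' → n = n'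
  mem : ∀ n, d ≤ n → n ≤ u → c n ∈ T
  link : ∀ n, d ≤ n → n < u → (c n, c (n + 1), l n) ∈ F
  inner : ∀ n, d < n → n < u → ∀ e ∈ F, (e.1 = c n ∨ e.2.1 = c n) →
    e = (c (n - 1), c n, l (n - 1)) ∨ e = (c n, c (n + 1), l n)
  near : ∀ n, d ≤ n → n ≤ u → Con w b (6 * r) (c n) a
  ymem : y ∈ T
  ycon : Con w b' L a y
  partner : (∃ n, d ≤ n ∧ n ≤ m ∧ y = c n ∧ L + r / 1000 ≤ ∑ k ∈ Finset.Ico n m, l k) ∨
    (∃ n, m ≤ n ∧ n ≤ u ∧ y = c n ∧ L + r / 1000 ≤ ∑ k ∈ Finset.Ico m n, l k) ∨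
    ((∀ n, d ≤ n → n ≤ u → y ≠ c n) ∧ L ≤ 4 * r ∧ 5 * r ≤ ∑ k ∈ Finset.Ico d m, l k ∧
      5 * r ≤ ∑ k ∈ Finset.Ico m u, l k)

/-- tree links and the links for `M` -/
noncomputable def baseF (T : Finset ℕ) (π : ℕ → ℕ) (len : ℕ → ℝ) (a : ℕ → ℕ)
    (M : Finset (ℕ × ℕ)) (lam : ℝ) : Finset (ℕ × ℕ × ℝ) :=
  (T.filter (fun x => π x ≠ x)).image (fun x => (x, π x, len x)) ∪
    M.image (fun e => (a e.1, a e.2, lam))

end Pool.Agent.Lib.MP_ed4bd1_lc
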