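import Pool.Agent.Lib.MP_ed4bd1_lc.TDefs

set_option autoImplicit false

/-!
# MP_ed4bd1_lc, module N6: there is always something to do
-/

namespace Pool.Agent.Lib.MP_ed4bd1_lc

/-- a walk leaving `E` crosses the boundary of `E` -/
theorem exists_crossing {R : ℕ → ℕ → Prop} (E : Finset ℕ) {s v : ℕ}
    (h : Relation.ReflTransGen R s v) (hs : s ∈ E) (hv : v ∉ E) :
    ∃ a b, a ∈ E ∧ b ∉ E ∧ R a b := by
  induction h with
  | refl => exact absurd hs hv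
  | @tail b c _ hbc ih =>
    by_cases hb : b ∈ E
    · exact ⟨b, c, hb, hv, hbc⟩
    · exact ih hb

/-- the edges of a walk of length `≤ b` have weight `≤ b` -/
theorem WP.edgeIn {w : ℕ → ℕ → ℝ} {E : Finset ℕ} {b L : ℝ} {u v : ℕ}
    (h : WP w (fun a b => a ∈ E ∧ b ∈ E ∧ 0 < w a b) L u v) (hL : L ≤ b) :
    WP w (EdgeIn w E b) L u v := by
  induction h with
  | nil u => exact WP.nil u
  | @cons L u v z h1 h2 ih =>
    have h0 : 0 ≤ L := h2.nonneg (fun _ _ h => h.2.2.le)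
    have h3 := h1.2.2
    exact WP.cons ⟨h1.1, h1.2.1, h1.2.2, by linarith⟩ (ih (by linarith))

theorem exists_rr_large (A : ℝ) : ∃ i0 : ℤ, ∀ i, i0 ≤ i → A ≤ rr i := by
  obtain ⟨n, hn⟩ := pow_unbounded_of_one_lt A (show (1:ℝ) < 10000000 by norm_num)
  refine ⟨(n : ℤ), fun i hi => ?_⟩
  have h1 := rr_mono hi
  have h2 : rr (n : ℤ) = (10000000 : ℝ) ^ n := by unfold rr; rw [zpow_natCast]
  linarith

theorem exists_bb_large (A : ℝ) : ∃ i0 : ℤ, ∀ i, i0 ≤ i → A ≤ bb i := by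
  obtain ⟨i0, h⟩ := exists_rr_large (10000 * A)
  refine ⟨i0, fun i hi => ?_⟩
  have := h i hi
  unfold bb
  rw [le_div_iff₀ (by norm_num)]
  linarith

/-- existence of a level with work, least level -/
theorem exists_least_level {w : ℕ → ℕ → ℝ} {V : Finset ℕ} (hG : Gr w V)
    (hconn : ∀ u ∈ V, ∀ v ∈ V, Relation.ReflTransGen (fun x y => 0 < w x y) u v)
    (E : Finset ℕ) (hE : E ⊆ V) (hEV : ∃ v ∈ V, v ∉ E) {s : ℕ} (hs : s ∈ E)
    (hEc : ∀ u ∈ E, ∃ L, ConE w E L s u)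
    (x : ℤ → ℕ) (hx : ∃ i0 : ℤ, ∀ i, i0 ≤ i → x i = s) :
    ∃ m y z, PendAt w E m (x m) y z ∧ ∀ i, i < m → ∀ y' z', ¬ PendAt w E i (x i) y' z' := by
  classical
  obtain ⟨v, hv, hvE⟩ := hEV
  obtain ⟨a, b, ha, hb, hab⟩ := exists_crossing E (hconn s (hE hs) v hv) hs hvE
  -- a pending edge of least class
  set P : Finset (ℕ × ℕ) := (E ×ˢ V).filter (fun p => p.2 ∉ E ∧ 0 < w p.1 p.2) with hP
  have hPne : P.Nonempty := by
    refine ⟨(a, b), ?_⟩
    rw [hP, Finset.mem_filter, Finset.mem_product]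
    exact ⟨⟨ha, (hG.supp a b hab).2⟩, hb, hab⟩
  have hPend : ∀ y z, Pend w E y z → (y, z) ∈ P := by
    intro y z h
    rw [hP, Finset.mem_filter, Finset.mem_product]
    exact ⟨⟨h.1, (hG.supp y z h.2.2).2⟩, h.2.1, h.2.2⟩
  obtain ⟨⟨y, z⟩, hyz, hmin⟩ := Finset.exists_min_image P (fun p => cls (w p.1 p.2)) hPne
  have hyz' := hyz
  rw [hP, Finset.mem_filter, Finset.mem_product] at hyz'
  have hel : Elig w E y z := by
    refine ⟨⟨hyz'.1.1, hyz'.2.1, hyz'.2.2⟩, ?_⟩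
    intro y' z' h' hlt
    exact absurd hlt (not_lt.2 (hmin (y', z') (hPend y' z' h')))
  -- bounded below
  have hlow : ∃ lb : ℤ, ∀ i, (∃ y z, PendAt w E i (x i) y z) → lb ≤ i := by
    obtain ⟨c0, hc0⟩ := (P.image (fun p => cls (w p.1 p.2))).bddBelow
    refine ⟨c0, ?_⟩
    rintro i ⟨y', z', h', hlt, _⟩
    have := hc0 (Finset.mem_coe.2 (Finset.mem_image.2 ⟨(y', z'), hPend y' z' h'.1, rfl⟩))
    simp only at this
    omega
  -- nonempty for large i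
  have hex : ∃ i, ∃ y z, PendAt w E i (x i) y z := by
    obtain ⟨i0, hi0⟩ := hx
    obtain ⟨L, L', hL', hwp⟩ := hEc y hyz'.1.1
    obtain ⟨i1, hi1⟩ := exists_rr_large (L + w y z)
    obtain ⟨i2, hi2⟩ := exists_bb_large L
    set i := max (max i0 i1) (max (i2 + 1) (cls (w y z) + 1)) with hi
    have e0 : i0 ≤ i := by omega
    have e1 : i1 ≤ i := by omega
    have e2 : i2 ≤ i - 1 := by omega
    have e3 : cls (w y z) < i := by omega
    refine ⟨i, y, z, hel, e3, ?_⟩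
    rw [hi0 i e0]
    have h1 := hi1 i e1
    have h2 := hi2 (i - 1) e2
    exact ⟨L', by linarith, hwp.edgeIn (by linarith)⟩
  obtain ⟨m, ⟨y1, z1, h1⟩, h2⟩ := Int.exists_least_of_bdd hlow hex
  refine ⟨m, y1, z1, h1, ?_⟩
  intro i hi y' z' h'
  have := h2 i ⟨y', z', h'⟩
  omega

end Pool.Agent.Lib.MP_ed4bd1_lc
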