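import Pool.Agent.Lib.MP_ed4bd1_lc.TDefs

set_option autoImplicit false

/-!
# MP_ed4bd1_lc: from a route rule to an online algorithm (module N7)
-/

namespace Pool.Agent.Lib.MP_ed4bd1_lc

section

variable (rt : (ℕ → ℕ → ℝ) → List ℕ → List ℕ)

/-- the route chosen in round `t` -/
noncomputable def n7rte (w : ℕ → ℕ → ℝ) (s t : ℕ) : List ℕ :=
  rt (mask w (XS rt w s t)) (XS rt w s t)

/-- the walk after `t` rounds -/
noncomputable def n7wk (w : ℕ → ℕ → ℝ) (s : ℕ) : ℕ → List ℕ
  | 0 => [s]
  | t + 1 => n7wk w s t ++ n7rte rt w s t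

/-- the weights known from a history -/
noncomputable def n7dec (h : List (ℕ × (ℕ → ℝ))) : ℕ → ℕ → ℝ :=
  fun a b => ((h.lookup a).getD (fun _ => 0)) b

/-- the next vertex, computed from a history -/
noncomputable def n7nx (h : List (ℕ × (ℕ → ℝ))) : ℕ :=
  (n7wk rt (n7dec h) ((h.map Prod.fst).headD 0) h.length).getD h.length 0

theorem n7_lookup (w : ℕ → ℕ → ℝ) (p : List ℕ) (a : ℕ) :
    (p.map (fun v => (v, w v))).lookup a = if a ∈ p then some (w a) else none := by
  induction p with
  | nil => simp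
  | cons x p ih =>
    rw [List.map_cons, List.lookup_cons]
    by_cases h : a = x
    · subst h; simp
    · have h1 : (a == x) = false := by simpa using h
      rw [h1]
      simp only [List.mem_cons, h, false_or]
      exact ih

theorem n7_dec (w : ℕ → ℕ → ℝ) (p : List ℕ) : n7dec (p.map (fun v => (v, w v))) = mask w p := by
  funext a b
  unfold n7dec mask
  rw [n7_lookup]
  split_ifs <;> simp

theorem n7_mask_mask (w : ℕ → ℕ → ℝ) (X p : List ℕ) (h : ∀ a ∈ X, a ∈ p) :
    mask (mask w p) X = mask w X := by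
  funext a b
  unfold mask
  by_cases hX : a ∈ X
  · rw [if_pos hX, if_pos hX, if_pos (h a hX)]
  · rw [if_neg hX, if_neg hX]

variable {rt}

theorem n7_XS_succ (w : ℕ → ℕ → ℝ) (s t : ℕ) :
    XS rt w s (t + 1) = XS rt w s t ++ [(n7rte rt w s t).getLastD 0] := rfl

theorem n7_XS_mono (w : ℕ → ℕ → ℝ) (s : ℕ) {t t' : ℕ} (h : t ≤ t') {a : ℕ}
    (ha : a ∈ XS rt w s t) : a ∈ XS rt w s t' := by
  induction t', h using Nat.le_induction with
  | base => exact ha
  | succ n _ ih => rw [n7_XS_succ]; exact List.mem_append_left _ ih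

theorem n7_XS_mask (w : ℕ → ℕ → ℝ) (s : ℕ) (p : List ℕ) (t : ℕ)
    (h : ∀ a ∈ XS rt w s t, a ∈ p) : ∀ t', t' ≤ t →
      XS rt (mask w p) s t' = XS rt w s t' ∧ n7wk rt (mask w p) s t' = n7wk rt w s t' ∧
        n7rte rt (mask w p) s t' = n7rte rt w s t' := by
  have key : ∀ t', t' ≤ t → XS rt (mask w p) s t' = XS rt w s t' →
      n7rte rt (mask w p) s t' = n7rte rt w s t' := by
    intro t' ht' hX
    unfold n7rte
    rw [hX, n7_mask_mask]
    intro a ha
    exact h a (n7_XS_mono w s ht' ha)
  intro t'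
  induction t' with
  | zero =>
    intro h0
    exact ⟨rfl, rfl, key 0 h0 rfl⟩
  | succ n ih =>
    intro hn
    obtain ⟨h1, h2, h3⟩ := ih (by omega)
    have hX : XS rt (mask w p) s (n + 1) = XS rt w s (n + 1) := by
      rw [n7_XS_succ, n7_XS_succ, h1, h3]
    refine ⟨hX, ?_, key _ hn hX⟩
    show n7wk rt (mask w p) s n ++ n7rte rt (mask w p) s n = _
    rw [h2, h3]
    rfl

theorem n7_wk_prefix (w : ℕ → ℕ → ℝ) (s : ℕ) {t t' : ℕ} (h : t ≤ t') :
    n7wk rt w s t <+: n7wk rt w s t' := by
  induction t', h using Nat.le_induction with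
  | base => exact List.prefix_rfl
  | succ n _ ih => exact ih.trans (List.prefix_append _ _)

theorem n7_getD_prefix {l l' : List ℕ} (h : l <+: l') {k : ℕ} (hk : k < l.length) (d : ℕ) :
    l'.getD k d = l.getD k d := by
  obtain ⟨m, rfl⟩ := h
  rw [List.getD_append _ _ _ _ hk]

/-- the next vertex in the middle of a route -/
theorem n7_nx (w : ℕ → ℕ → ℝ) (s t k : ℕ) (hmem : ∀ a ∈ XS rt w s t, a ∈ n7wk rt w s t)
    (hlen : t < (n7wk rt w s t).length)
    (hk : k < (n7rte rt w s t).length) :
    n7nx rt ((n7wk rt w s t ++ (n7rte rt w s t).take k).map (fun v => (v, w v))) =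
      (n7rte rt w s t).getD k 0 := by
  set p := n7wk rt w s t ++ (n7rte rt w s t).take k with hp
  have hpl : p.length = (n7wk rt w s t).length + k := by
    rw [hp, List.length_append, List.length_take, min_eq_left hk.le]
  unfold n7nx
  rw [n7_dec, List.length_map, List.map_map]
  have hid : (Prod.fst ∘ fun v => (v, w v)) = id := by funext v; rfl
  rw [hid, List.map_id]
  have hhead : p.headD 0 = s := by
    obtain ⟨m, hm⟩ := n7_wk_prefix (rt := rt) w s (Nat.zero_le t)
    have h0 : n7wk rt w s 0 = [s] := rfl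
    rw [h0] at hm
    rw [hp, ← hm]
    rfl
  rw [hhead]
  obtain ⟨h1, h2, h3⟩ := n7_XS_mask (rt := rt) w s p t
    (fun a ha => List.mem_append_left _ (hmem a ha)) t le_rfl
  have h4 : n7wk rt (mask w p) s (t + 1) = n7wk rt w s t ++ n7rte rt w s t := by
    show n7wk rt (mask w p) s t ++ n7rte rt (mask w p) s t = _
    rw [h2, h3]
  have h5 : t + 1 ≤ p.length := by omega
  rw [n7_getD_prefix (n7_wk_prefix (rt := rt) (mask w p) s h5) (by rw [h4, hpl, List.length_append]; omega), h4,
    hpl, List.getD_append_right _ _ _ _ (by omega)]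
  congr 1
  omega

/-! ## costs -/

/-- the cost of a walk in the statement -/
noncomputable def n7cost (w : ℕ → ℕ → ℝ) (p : List ℕ) : ENNReal :=
  ((p.zip p.tail).map
    (fun e => if 0 < w e.1 e.2 then ENNReal.ofReal (w e.1 e.2) else (⊤ : ENNReal))).sum

theorem n7_cost_eq (w : ℕ → ℕ → ℝ) : ∀ p : List ℕ, p.IsChain (fun a b => 0 < w a b) →
    0 ≤ plen w p ∧ n7cost w p = ENNReal.ofReal (plen w p)
  | [], _ => by simp [plen, n7cost]
  | [a], _ => by simp [plen, n7cost]
  | a :: b :: p, h => by
    rw [List.isChain_cons_cons] at h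
    obtain ⟨h1, h2⟩ := h
    obtain ⟨i1, i2⟩ := n7_cost_eq w (b :: p) h2
    have e1 : plen w (a :: b :: p) = w a b + plen w (b :: p) := by
      simp [plen]
    have e2 : n7cost w (a :: b :: p) = ENNReal.ofReal (w a b) + n7cost w (b :: p) := by
      simp [n7cost, h1]
    refine ⟨by rw [e1]; linarith, ?_⟩
    rw [e2, e1, i2, ENNReal.ofReal_add h1.le i1]

theorem n7_plen_append (w : ℕ → ℕ → ℝ) : ∀ (p q : List ℕ), p ≠ [] →
    plen w (p ++ q) = plen w p + plen w (p.getLastD 0 :: q)
  | [], _, h => absurd rfl h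
  | [a], q, _ => by simp [plen]
  | a :: b :: p, q, _ => by
    have ih := n7_plen_append w (b :: p) q (by simp)
    have e1 : plen w (a :: b :: p) = w a b + plen w (b :: p) := by
      simp [plen]
    have e2 : plen w (a :: b :: p ++ q) = w a b + plen w (b :: p ++ q) := by
      simp [plen]
    rw [e1, e2, ih]
    have e3 : (a :: b :: p).getLastD 0 = (b :: p).getLastD 0 := by
      simp [List.getLastD]
    rw [e3]
    ring

end

/-! ## the invariant -/

section

variable {rt : (ℕ → ℕ → ℝ) → List ℕ → List ℕ} {w : ℕ → ℕ → ℝ} {s : ℕ} {V : Finset ℕ}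

theorem n7_wk_ne (t : ℕ) : n7wk rt w s t ≠ [] := by
  obtain ⟨m, hm⟩ := n7_wk_prefix (rt := rt) w s (Nat.zero_le t)
  have h0 : n7wk rt w s 0 = [s] := rfl
  rw [h0] at hm
  rw [← hm]
  simp

/-- facts about the walk, as long as the routes are valid -/
theorem n7_wk_facts (t : ℕ)
    (hR : ∀ t', t' < t → Route w (XS rt w s t') (n7rte rt w s t')) :
    (∀ a, a ∈ n7wk rt w s t ↔ a ∈ XS rt w s t) ∧ t < (n7wk rt w s t).length ∧
      (n7wk rt w s t).getLastD 0 = (XS rt w s t).getLastD 0 ∧
      (n7wk rt w s t).IsChain (fun a b => 0 < w a b) ∧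
      plen w (n7wk rt w s t) = ∑ i ∈ Finset.range t,
        plen w ((XS rt w s i).getLastD 0 :: n7rte rt w s i) := by
  induction t with
  | zero =>
    refine ⟨fun a => Iff.rfl, by simp [n7wk], rfl, by simp [n7wk], by simp [n7wk, plen]⟩
  | succ t ih =>
    obtain ⟨h1, h2, h3, h4, h5⟩ := ih (fun t' ht' => hR t' (by omega))
    have hr := hR t (by omega)
    have hrl : 0 < (n7rte rt w s t).length := List.length_pos_iff.2 hr.ne
    have e1 : n7wk rt w s (t + 1) = n7wk rt w s t ++ n7rte rt w s t := rfl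
    have hlast : (n7rte rt w s t).getLastD 0 = (n7rte rt w s t).getLast hr.ne := by
      rw [List.getLastD_eq_getLast?, List.getLast?_eq_getLast_of_ne_nil hr.ne]
      rfl
    refine ⟨?_, ?_, ?_, ?_, ?_⟩
    · intro a
      rw [e1, n7_XS_succ, List.mem_append, List.mem_append, h1, List.mem_singleton]
      constructor
      · rintro (h | h)
        · exact Or.inl h
        · rw [← List.dropLast_append_getLast hr.ne, List.mem_append, List.mem_singleton] at h
          rcases h with h | h
          · exact Or.inl (hr.inner a h)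
          · exact Or.inr (h.trans hlast.symm)
      · rintro (h | h)
        · exact Or.inl h
        · right
          rw [h, hlast]
          exact List.getLast_mem hr.ne
    · rw [e1, List.length_append]; omega
    · rw [e1, n7_XS_succ, List.getLastD_eq_getLast?, List.getLastD_eq_getLast?,
        List.getLast?_append_of_ne_nil _ hr.ne, List.getLast?_append_of_ne_nil _ (by simp),
        List.getLast?_singleton, hlast, List.getLast?_eq_getLast_of_ne_nil hr.ne]
    · rw [e1, List.isChain_append]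
      have hc := hr.chain
      rw [List.isChain_cons] at hc
      refine ⟨h4, hc.2, ?_⟩
      intro x hx y hy
      have hx' : (n7wk rt w s t).getLastD 0 = x := by
        rw [List.getLastD_eq_getLast?]
        rw [Option.mem_def] at hx
        rw [hx]; rfl
      rw [← hx', h3]
      exact hc.1 y hy
    · rw [e1, n7_plen_append w _ _ (n7_wk_ne t), h3, h5, Finset.sum_range_succ]

/-- the deterministic step -/
noncomputable def n7g (rt : (ℕ → ℕ → ℝ) → List ℕ → List ℕ) (w : ℕ → ℕ → ℝ) (V : Finset ℕ)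
    (p : List ℕ) : List ℕ :=
  if (∀ v ∈ V, v ∈ p) then p else p ++ [n7nx rt (p.map (fun v => (v, w v)))]

theorem n7_inv
    (hR : ∀ t, ¬ (∀ v ∈ V, v ∈ XS rt w s t) → Route w (XS rt w s t) (n7rte rt w s t)) (n : ℕ) :
    ∃ t k, (∀ t', t' < t → ¬ (∀ v ∈ V, v ∈ XS rt w s t')) ∧
      (n7g rt w V)^[n] [s] = n7wk rt w s t ++ (n7rte rt w s t).take k ∧
      (k = 0 ∨ (k < (n7rte rt w s t).length ∧ ¬ (∀ v ∈ V, v ∈ XS rt w s t))) := by
  induction n with
  | zero => exact ⟨0, 0, by simp, by simp [n7wk], Or.inl rfl⟩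
  | succ n ih =>
    obtain ⟨t, k, h1, h2, h3⟩ := ih
    rw [Function.iterate_succ_apply', h2]
    obtain ⟨f1, f2, f3, f4, f5⟩ := n7_wk_facts (rt := rt) (w := w) (s := s) t
      (fun t' ht' => hR t' (h1 t' ht'))
    by_cases hc : ∀ v ∈ V, v ∈ XS rt w s t
    · have hk : k = 0 := by
        rcases h3 with h3 | h3
        · exact h3
        · exact absurd hc h3.2
      refine ⟨t, 0, h1, ?_, Or.inl rfl⟩
      unfold n7g
      rw [if_pos]
      · rw [hk]
      · intro v hv
        exact List.mem_append_left _ ((f1 v).2 (hc v hv))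
    · have hr := hR t hc
      have hrl : 0 < (n7rte rt w s t).length := List.length_pos_iff.2 hr.ne
      have hk : k < (n7rte rt w s t).length := by
        rcases h3 with h3 | h3
        · omega
        · exact h3.1
      have hmem : ∀ a, a ∈ n7wk rt w s t ++ (n7rte rt w s t).take k → a ∈ XS rt w s t := by
        intro a ha
        rw [List.mem_append] at ha
        rcases ha with ha | ha
        · exact (f1 a).1 ha
        · refine hr.inner a ?_
          rw [List.dropLast_eq_take]
          exact (List.take_subset_take_left _ (by omega)) ha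
      have hc' : ¬ ∀ v ∈ V, v ∈ n7wk rt w s t ++ (n7rte rt w s t).take k :=
        fun h => hc (fun v hv => hmem v (h v hv))
      have hstep : n7g rt w V (n7wk rt w s t ++ (n7rte rt w s t).take k) =
          n7wk rt w s t ++ (n7rte rt w s t).take (k + 1) := by
        unfold n7g
        rw [if_neg hc', n7_nx w s t k (fun a ha => (f1 a).2 ha) f2 hk, List.append_assoc]
        congr 1
        rw [List.take_add_one, List.getD_eq_getElem _ _ hk, List.getElem?_eq_getElem hk]
        rfl
      rw [hstep]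
      by_cases hk1 : k + 1 = (n7rte rt w s t).length
      · refine ⟨t + 1, 0, ?_, ?_, Or.inl rfl⟩
        · intro t' ht'
          rcases Nat.lt_succ_iff_lt_or_eq.1 ht' with h | h
          · exact h1 t' h
          · rw [h]; exact hc
        · rw [hk1, List.take_length, List.take_zero, List.append_nil]
          rfl
      · exact ⟨t, k + 1, h1, rfl, Or.inr ⟨by omega, hc⟩⟩

end

theorem n7_iter (rt : (ℕ → ℕ → ℝ) → List ℕ → List ℕ) (w : ℕ → ℕ → ℝ) (V : Finset ℕ) (n : ℕ)
    (q : List ℕ) :
    ((fun d : PMF (List ℕ) =>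
      d.bind (fun p =>
        if (∀ v ∈ V, v ∈ p) then PMF.pure p
        else PMF.map (fun v => p ++ [v])
          ((fun h => PMF.pure (n7nx rt h)) (p.map (fun v => (v, w v))))))^[n]
    (PMF.pure q)) = PMF.pure ((n7g rt w V)^[n] q) := by
  induction n with
  | zero => rfl
  | succ n ih =>
    rw [Function.iterate_succ_apply', ih, Function.iterate_succ_apply']
    simp only [PMF.pure_bind, PMF.pure_map]
    unfold n7g
    split_ifs <;> rfl

theorem online_of_route (rt : (ℕ → ℕ → ℝ) → List ℕ → List ℕ) :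
    ∃ A : List (ℕ × (ℕ → ℝ)) → PMF ℕ, ∀ (V : Finset ℕ) (w : ℕ → ℕ → ℝ) (s : ℕ),
      (∀ u v, 0 < w u v → u ∈ V ∧ v ∈ V) → s ∈ V →
      (∀ t, ¬ (∀ v ∈ V, v ∈ XS rt w s t) →
        Route w (XS rt w s t) (rt (mask w (XS rt w s t)) (XS rt w s t))) →
      ∀ n : ℕ, ∃ T : ℕ, (∀ t, t < T → ¬ (∀ v ∈ V, v ∈ XS rt w s t)) ∧
        (∑' p : List ℕ,
          ((fun d : PMF (List ℕ) =>
              d.bind (fun p =>
                if (∀ v ∈ V, v ∈ p) then PMF.pure p
                else PMF.map (fun v => p ++ [v]) (A (p.map (fun v => (v, w v))))))^[n]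
            (PMF.pure [s])) p *
          ((p.zip p.tail).map
            (fun e => if 0 < w e.1 e.2 then ENNReal.ofReal (w e.1 e.2) else (⊤ : ENNReal))).sum)
        ≤ ENNReal.ofReal (∑ t ∈ Finset.range T,
            plen w ((XS rt w s t).getLastD 0 ::
              rt (mask w (XS rt w s t)) (XS rt w s t))) := by
  refine ⟨fun h => PMF.pure (n7nx rt h), ?_⟩
  intro V w s _ _ hR n
  obtain ⟨t, k, h1, h2, h3⟩ := n7_inv (rt := rt) (w := w) (s := s) (V := V) hR n
  -- the number of rounds
  obtain ⟨T, hT, hpre⟩ : ∃ T, (∀ t', t' < T → ¬ (∀ v ∈ V, v ∈ XS rt w s t')) ∧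
      (n7g rt w V)^[n] [s] <+: n7wk rt w s T := by
    rcases h3 with h3 | h3
    · refine ⟨t, h1, ?_⟩
      rw [h2, h3, List.take_zero, List.append_nil]
    · refine ⟨t + 1, ?_, ?_⟩
      · intro t' ht'
        rcases Nat.lt_succ_iff_lt_or_eq.1 ht' with h | h
        · exact h1 t' h
        · rw [h]; exact h3.2
      · rw [h2]
        show n7wk rt w s t ++ List.take k (n7rte rt w s t) <+:
          n7wk rt w s t ++ n7rte rt w s t
        rw [List.prefix_append_right_inj]
        exact List.take_prefix _ _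
  refine ⟨T, hT, ?_⟩
  rw [n7_iter]
  obtain ⟨f1, f2, f3, f4, f5⟩ := n7_wk_facts (rt := rt) (w := w) (s := s) T
    (fun t' ht' => hR t' (hT t' ht'))
  set q := (n7g rt w V)^[n] [s] with hq
  rw [tsum_eq_single q]
  · rw [PMF.pure_apply, if_pos rfl, one_mul]
    obtain ⟨m, hm⟩ := hpre
    have hqc : q.IsChain (fun a b => 0 < w a b) := by
      rw [← hm] at f4
      exact f4.left_of_append
    have hqne : q ≠ [] := by
      rw [h2]
      exact List.append_ne_nil_of_left_ne_nil (n7_wk_ne t) _
    have e1 := (n7_cost_eq w q hqc).2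
    unfold n7cost at e1
    rw [e1]
    refine ENNReal.ofReal_le_ofReal ?_
    have e2 : plen w (n7wk rt w s T) = plen w q + plen w (q.getLastD 0 :: m) := by
      rw [← hm, n7_plen_append w _ _ hqne]
    have e3 : 0 ≤ plen w (q.getLastD 0 :: m) := by
      refine (n7_cost_eq w _ ?_).1
      rw [← hm, List.isChain_append] at f4
      rw [List.isChain_cons]
      refine ⟨?_, f4.2.1⟩
      intro y hy
      refine f4.2.2 _ ?_ y hy
      rw [List.getLastD_eq_getLast?, List.getLast?_eq_getLast_of_ne_nil hqne]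
      rfl
    have e4 : plen w (n7wk rt w s T) = ∑ t ∈ Finset.range T,
            plen w ((XS rt w s t).getLastD 0 ::
              rt (mask w (XS rt w s t)) (XS rt w s t)) := f5
    rw [← e4]
    linarith
  · intro p hp
    rw [PMF.pure_apply, if_neg hp, zero_mul]

end Pool.Agent.Lib.MP_ed4bd1_lc
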