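import Pool.Agent.Lib.MP_ed4bd1_lc.Analysis
import Pool.Agent.Lib.MP_ed4bd1_lc.Process
import Pool.Agent.Lib.MP_ed4bd1_lc.Algo

set_option autoImplicit false

/-!
# MP_ed4bd1_lc (S15577): there is a constant-competitive online exploration algorithm

Final assembly: route rule (`exists_rule`) + reduction to an online algorithm (`online_of_route`)
+ cost of a trace (`trace_cost`).
-/

namespace Pool.Agent.Lib.MP_ed4bd1_lc

theorem final :
  ∃ A : List (ℕ × (ℕ → ℝ)) → PMF ℕ, ∃ c : ℝ,
    ∀ (V : Finset ℕ) (w : ℕ → ℕ → ℝ) (s : ℕ),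
      (∀ u v, w u v = w v u) →
      (∀ u v, 0 ≤ w u v) →
      (∀ u v, 0 < w u v → u ∈ V ∧ v ∈ V) →
      (∀ v, w v v = 0) →
      s ∈ V →
      (∀ u ∈ V, ∀ v ∈ V, (SimpleGraph.fromRel (fun a b => 0 < w a b)).Reachable u v) →
      ∀ l : List ℕ, l.head? = some s → l.Chain' (fun a b => 0 < w a b) → (∀ v ∈ V, v ∈ l) →
      ∀ n : ℕ,
        (∑' p : List ℕ,
          ((fun d : PMF (List ℕ) =>
              d.bind (fun p =>
                if (∀ v ∈ V, v ∈ p) then PMF.pure p
                else PMF.map (fun v => p ++ [v]) (A (p.map (fun v => (v, w v))))))^[n]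
            (PMF.pure [s])) p *
          ((p.zip p.tail).map
            (fun e => if 0 < w e.1 e.2 then ENNReal.ofReal (w e.1 e.2) else (⊤ : ENNReal))).sum)
        ≤ ENNReal.ofReal (c * ((l.zip l.tail).map (fun e => w e.1 e.2)).sum) := by
  obtain ⟨rt, hrt⟩ := exists_rule
  obtain ⟨A, hA⟩ := online_of_route rt
  obtain ⟨CC, hCC0, hCC⟩ := trace_cost
  refine ⟨A, 2 * CC, ?_⟩
  intro V w s hsym hnn hsupp hdiag hs hreach l hl hlc hcov n
  have hG : Gr w V := ⟨hsym, hnn, hsupp⟩
  have hconn : ∀ u ∈ V, ∀ v ∈ V, Relation.ReflTransGen (fun x y => 0 < w x y) u v := by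
    intro u hu v hv
    have h := hreach u hu v hv
    rw [SimpleGraph.reachable_iff_reflTransGen] at h
    refine Relation.ReflTransGen.mono ?_ _ _ h
    intro a b hab
    rw [SimpleGraph.fromRel_adj] at hab
    rcases hab.2 with h | h
    · exact h
    · rw [hsym a b]; exact h
  obtain ⟨h1, h2⟩ := hrt hG hconn hs
  obtain ⟨T, hT, hle⟩ := hA V w s hsupp hs h1 n
  refine hle.trans (ENNReal.ofReal_le_ofReal ?_)
  obtain ⟨v, src, m, cen, htr, hv0, hvV, hcost⟩ := h2 T hT
  obtain ⟨c, hc1, hc2⟩ := hCC hG hconn htr hvV l hlc hcov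
  calc ∑ t ∈ Finset.range T, plen w ((XS rt w s t).getLastD 0 ::
              rt (mask w (XS rt w s t)) (XS rt w s t))
      ≤ ∑ t ∈ Finset.range T, 2 * (c t + w (v (src (t + 1))) (v (t + 1))) := by
        refine Finset.sum_le_sum ?_
        intro t ht
        rw [Finset.mem_range] at ht
        have := hcost t ht (c t) (hc1 t ht)
        have h3 := hnn (v (src (t + 1))) (v (t + 1))
        linarith
    _ = 2 * ∑ t ∈ Finset.range T, (c t + w (v (src (t + 1))) (v (t + 1))) := by
        rw [Finset.mul_sum]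
    _ ≤ 2 * (CC * ((l.zip l.tail).map (fun e => w e.1 e.2)).sum) := by linarith
    _ = _ := by ring

end Pool.Agent.Lib.MP_ed4bd1_lc
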