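import Pool.Agent.Lib.MP_ed4bd1_lc.Defs

set_option autoImplicit false

/-!
# MP_ed4bd1_lc, module M1: shortening the links of a skeleton
-/

namespace Pool.Agent.Lib.MP_ed4bd1_lc

theorem shorten_adj_symm {F : Finset (ℕ × ℕ × ℝ)} {a b : ℕ} (h : Adj F a b) : Adj F b a := by
  obtain ⟨L, h⟩ := h
  exact ⟨L, h.symm⟩

theorem shorten_link_symm {F : Finset (ℕ × ℕ × ℝ)} {a b : ℕ} (h : Link F a b) : Link F b a := by
  unfold Link at *
  induction h with
  | refl => exact Relation.ReflTransGen.refl
  | tail _ h1 ih => exact Relation.ReflTransGen.head (shorten_adj_symm h1) ih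

theorem shorten_link_mono {F F' : Finset (ℕ × ℕ × ℝ)} (h : ∀ a b, Adj F a b → Link F' a b)
    {a b : ℕ} (h1 : Link F a b) : Link F' a b := by
  unfold Link at h1
  induction h1 with
  | refl => exact Relation.ReflTransGen.refl
  | tail _ h2 ih => exact ih.trans (h _ _ h2)

theorem shorten_adj_sub {F F' : Finset (ℕ × ℕ × ℝ)} (h : F ⊆ F') {a b : ℕ} (h1 : Adj F a b) :
    Adj F' a b := by
  obtain ⟨L, h1⟩ := h1
  exact ⟨L, h1.imp (fun h2 => h h2) (fun h2 => h h2)⟩

theorem shorten_adj_erase {F : Finset (ℕ × ℕ × ℝ)} {a a' : ℕ} {L : ℝ} {u v : ℕ}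
    (h : Adj F u v) :
    Adj (F.erase (a, a', L)) u v ∨ (u = a ∧ v = a') ∨ (u = a' ∧ v = a) := by
  obtain ⟨L', h | h⟩ := h
  · by_cases he : (u, v, L') = (a, a', L)
    · simp only [Prod.mk.injEq] at he
      exact Or.inr (Or.inl ⟨he.1, he.2.1⟩)
    · exact Or.inl ⟨L', Or.inl (Finset.mem_erase.2 ⟨he, h⟩)⟩
  · by_cases he : (v, u, L') = (a, a', L)
    · simp only [Prod.mk.injEq] at he
      exact Or.inr (Or.inr ⟨he.2.1, he.1⟩)
    · exact Or.inl ⟨L', Or.inr (Finset.mem_erase.2 ⟨he, h⟩)⟩

theorem shorten_link_or {F : Finset (ℕ × ℕ × ℝ)} {a a' : ℕ} {L : ℝ} {y : ℕ} (h : Link F a y) :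
    Link (F.erase (a, a', L)) a y ∨ Link (F.erase (a, a', L)) a' y := by
  unfold Link at h
  induction h with
  | refl => exact Or.inl Relation.ReflTransGen.refl
  | @tail y z _ h1 ih =>
    rcases shorten_adj_erase (a := a) (a' := a') (L := L) h1 with h2 | ⟨-, rfl⟩ | ⟨-, rfl⟩
    · exact ih.imp (fun h3 => h3.tail h2) (fun h3 => h3.tail h2)
    · exact Or.inr Relation.ReflTransGen.refl
    · exact Or.inl Relation.ReflTransGen.refl

theorem shorten_walk {w : ℕ → ℕ → ℝ} {V : Finset ℕ} {b : ℝ} (hG : Gr w V) (P : ℕ → Prop)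
    {L : ℝ} {u v : ℕ} (h : WP w (Edge w b) L u v) (hu : P u) (huV : u ∈ V) (hv : ¬ P v) :
    ∃ x x' L1, WP w (Edge w b) L1 u x' ∧ x ∈ V ∧ x' ∈ V ∧ Edge w b x x' ∧ P x ∧ ¬ P x' := by
  induction h with
  | nil u => exact absurd hu hv
  | @cons L u m z h1 h2 ih =>
    have hm := hG.supp _ _ h1.1
    by_cases hP : P m
    · obtain ⟨x, x', L1, h3, h4⟩ := ih hP hm.2 hv
      exact ⟨x, x', _, WP.cons h1 h3, h4⟩
    · exact ⟨u, m, _, WP.single h1, huV, hm.2, h1, hu, hP⟩

theorem shorten {w : ℕ → ℕ → ℝ} {V : Finset ℕ} {b t : ℝ} {T : Finset ℕ}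
    {F : Finset (ℕ × ℕ × ℝ)} (hG : Gr w V) (ht : 0 ≤ t) (hb : 0 ≤ b) (hS : Skel w V b t T F) :
    ∃ F', Skel w V b t T F' ∧ wt F' ≤ wt F ∧ ∀ e ∈ F', e.2.2 ≤ 2 * t + b := by
  classical
  induction hn : (F.filter (fun e => 2 * t + b < e.2.2)).card using Nat.strong_induction_on
    generalizing F with
  | _ n ih =>
    by_cases hlong : ∃ e ∈ F, 2 * t + b < e.2.2
    · obtain ⟨⟨a, a', L⟩, heF, heL⟩ := hlong
      simp only at heL
      set F0 := F.erase (a, a', L) with hF0
      have hF0F : F0 ⊆ F := Finset.erase_subset _ _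
      have hL0 : 0 < L := by linarith
      have hwt0 : wt F0 + L = wt F := by
        have := Finset.sum_erase_add F (fun e : ℕ × ℕ × ℝ => e.2.2) heF
        simpa [wt] using this
      have hcard0 : (F0.filter (fun e => 2 * t + b < e.2.2)).card <
          (F.filter (fun e => 2 * t + b < e.2.2)).card := by
        refine Finset.card_lt_card ⟨Finset.filter_subset_filter _ hF0F, fun h => ?_⟩
        have h1 : (a, a', L) ∈ F.filter (fun e => 2 * t + b < e.2.2) :=
          Finset.mem_filter.2 ⟨heF, heL⟩
        exact Finset.notMem_erase _ _ (Finset.mem_filter.1 (h h1)).1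
      have haT := hS.endp _ heF
      simp only at haT
      have key : ∀ F1 : Finset (ℕ × ℕ × ℝ), F0 ⊆ F1 → Link F1 a a' →
          ∀ u v, Link F u v → Link F1 u v := by
        intro F1 h01 haa u v huv
        refine shorten_link_mono (fun x y hxy => ?_) huv
        rcases shorten_adj_erase (a := a) (a' := a') (L := L) hxy with h2 | ⟨rfl, rfl⟩ | ⟨rfl, rfl⟩
        · exact Relation.ReflTransGen.single (shorten_adj_sub h01 h2)
        · exact haa
        · exact shorten_link_symm haa
      by_cases hl : Link F0 a a'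
      · have hS0 : Skel w V b t T F0 := by
          refine ⟨hS.sub, fun e he => hS.endp e (hF0F he), fun e he => hS.val e (hF0F he), ?_,
            hS.dense⟩
          intro u hu v hv L' hL'
          exact key F0 (Finset.Subset.refl _) hl u v (hS.conn u hu v hv L' hL')
        obtain ⟨F', h1, h2, h3⟩ := ih _ (hn ▸ hcard0) hS0 rfl
        exact ⟨F', h1, by linarith, h3⟩
      · have hx : ∀ v, ∃ x, v ∈ V → x ∈ T ∧ Con w b t v x ∧ (v ∈ T → x = v) := by
          intro v
          by_cases hv : v ∈ V
          · by_cases hvT : v ∈ T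
            · exact ⟨v, fun _ => ⟨hvT, Con.refl ht v, fun _ => rfl⟩⟩
            · obtain ⟨x, hx1, hx2⟩ := hS.dense v hv
              exact ⟨x, fun _ => ⟨hx1, hx2, fun h => absurd h hvT⟩⟩
          · exact ⟨v, fun h => absurd h hv⟩
        choose x hx using hx
        have haV := hS.sub haT.1
        have haV' := hS.sub haT.2
        obtain ⟨L', hL', hW⟩ := (hS.val _ heF).2
        simp only at hW
        have hPa : Link F0 a (x a) := by
          rw [(hx a haV).2.2 haT.1]
          exact Relation.ReflTransGen.refl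
        have hPa' : ¬ Link F0 a (x a') := by
          rw [(hx a' haV').2.2 haT.2]
          exact hl
        obtain ⟨v, v', L1, hW1, hv, hv', hE, hP, hP'⟩ :=
          shorten_walk hG (fun v => Link F0 a (x v)) hW hPa haV hPa'
        have hsymm := hG.symm
        have hcon : Con w b (2 * t + b) (x v) (x v') := by
          have h1 : Con w b t (x v) v := Con.symm hsymm (hx v hv).2.1
          have h2 : Con w b b v v' := (Con.single hE).mono hE.2
          have h3 : Con w b t v' (x v') := (hx v' hv').2.1
          exact ((h1.trans h2).trans h3).mono (by linarith)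
        have hFx : Link F a (x v') := by
          have h1 : Con w b L1 a v' := ⟨L1, le_rfl, hW1⟩
          exact hS.conn a haT.1 _ (hx v' hv').1 _ (h1.trans (hx v' hv').2.1)
        have hF0x : Link F0 a' (x v') := by
          rcases shorten_link_or (a' := a') (L := L) hFx with h | h
          · exact absurd h hP'
          · exact h
        set F1 := insert (x v, x v', 2 * t + b) F0 with hF1
        have h01 : F0 ⊆ F1 := Finset.subset_insert _ _
        have haa : Link F1 a a' := by
          have h1 : Link F1 a (x v) :=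
            shorten_link_mono (fun p q h => Relation.ReflTransGen.single (shorten_adj_sub h01 h)) hP
          have h2 : Link F1 (x v) (x v') :=
            Relation.ReflTransGen.single ⟨2 * t + b, Or.inl (Finset.mem_insert_self _ _)⟩
          have h3 : Link F1 a' (x v') :=
            shorten_link_mono (fun p q h => Relation.ReflTransGen.single (shorten_adj_sub h01 h))
              hF0x
          exact (h1.trans h2).trans (shorten_link_symm h3)
        have hS1 : Skel w V b t T F1 := by
          refine ⟨hS.sub, ?_, ?_, ?_, hS.dense⟩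
          · intro e he
            rcases Finset.mem_insert.1 he with rfl | he
            · exact ⟨(hx v hv).1, (hx v' hv').1⟩
            · exact hS.endp e (hF0F he)
          · intro e he
            rcases Finset.mem_insert.1 he with rfl | he
            · exact ⟨by simp only; linarith, hcon⟩
            · exact hS.val e (hF0F he)
          · intro p hp q hq L' hL'
            exact key F1 h01 haa p q (hS.conn p hp q hq L' hL')
        have hwt1 : wt F1 ≤ wt F := by
          have h1 : wt F1 ≤ wt F0 + (2 * t + b) := by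
            by_cases hmem : (x v, x v', 2 * t + b) ∈ F0
            · rw [hF1, Finset.insert_eq_of_mem hmem]
              linarith
            · rw [hF1, wt, Finset.sum_insert hmem, wt]
              simp only
              linarith
          linarith
        have hfil : F1.filter (fun e => 2 * t + b < e.2.2) =
            F0.filter (fun e => 2 * t + b < e.2.2) := by
          rw [hF1, Finset.filter_insert, if_neg (by simp)]
        have hcard1 : (F1.filter (fun e => 2 * t + b < e.2.2)).card < n := by
          rw [hfil, ← hn]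
          exact hcard0
        obtain ⟨F', h1, h2, h3⟩ := ih _ hcard1 hS1 rfl
        exact ⟨F', h1, by linarith, h3⟩
    · push Not at hlong
      exact ⟨F, hS, le_rfl, hlong⟩

end Pool.Agent.Lib.MP_ed4bd1_lc
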