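import Pool.Agent.Lib.MP_ed4bd1_lc.Defs

set_option autoImplicit false

/-!
# MP_ed4bd1_lc: scales, eligible edges, traces of the algorithm
-/

namespace Pool.Agent.Lib.MP_ed4bd1_lc

/-! ## Scales: `r_i = (10^7)^i`, `b_i = r_i / 10^4` -/

noncomputable def rr (i : ℤ) : ℝ := (10000000 : ℝ) ^ i

noncomputable def bb (i : ℤ) : ℝ := rr i / 10000

/-- the class of a weight: for `0 < x`, `x ≤ bb i ↔ cls x ≤ i` -/
noncomputable def cls (x : ℝ) : ℤ := Int.clog 10000000 (10000 * x)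

theorem rr_pos (i : ℤ) : 0 < rr i := by unfold rr; positivity

theorem bb_pos (i : ℤ) : 0 < bb i := by unfold bb; have := rr_pos i; positivity

theorem rr_succ (i : ℤ) : rr (i + 1) = 10000000 * rr i := by
  unfold rr; rw [zpow_add_one₀ (by norm_num)]; ring

theorem rr_pred (i : ℤ) : rr (i - 1) = rr i / 10000000 := by
  have := rr_succ (i - 1)
  rw [sub_add_cancel] at this
  rw [this]; ring

theorem bb_succ (i : ℤ) : bb (i + 1) = 10000000 * bb i := by
  unfold bb; rw [rr_succ]; ring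

theorem bb_pred (i : ℤ) : bb (i - 1) = bb i / 10000000 := by
  unfold bb; rw [rr_pred]; ring

theorem rr_mono {i j : ℤ} (h : i ≤ j) : rr i ≤ rr j := by
  unfold rr; exact zpow_le_zpow_right₀ (by norm_num) h

theorem bb_mono {i j : ℤ} (h : i ≤ j) : bb i ≤ bb j := by
  unfold bb; have := rr_mono h; linarith

theorem le_bb_iff {x : ℝ} (hx : 0 < x) (i : ℤ) : x ≤ bb i ↔ cls x ≤ i := by
  unfold cls bb rr
  have h1 : (0:ℝ) < 10000 * x := by positivity
  have h2 := Int.le_zpow_iff_clog_le (R := ℝ) (b := 10000000) (x := i) (by norm_num) h1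
  rw [← h2, le_div_iff₀ (by norm_num)]
  push_cast
  constructor <;> intro h <;> linarith

theorem le_bb_cls {x : ℝ} (hx : 0 < x) : x ≤ bb (cls x) := (le_bb_iff hx _).2 le_rfl

theorem bb_cls_pred_lt {x : ℝ} (hx : 0 < x) : bb (cls x - 1) < x := by
  by_contra h
  push Not at h
  have := (le_bb_iff hx _).1 h
  omega

/-! ## Traces -/

/-- explored set after step `t` -/
def ES (v : ℕ → ℕ) (t : ℕ) : Finset ℕ := (Finset.range (t + 1)).image v

/-- pending edge -/
def Pend (w : ℕ → ℕ → ℝ) (E : Finset ℕ) (y z : ℕ) : Prop := y ∈ E ∧ z ∉ E ∧ 0 < w y z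

/-- eligible pending edge: no pending edge of smaller class close to it -/
def Elig (w : ℕ → ℕ → ℝ) (E : Finset ℕ) (y z : ℕ) : Prop :=
  Pend w E y z ∧ ∀ y' z', Pend w E y' z' → cls (w y' z') < cls (w y z) →
    ¬ ConIn w E (bb (cls (w y z) - 1)) (rr (cls (w y z)) / 10) y y'

/-- `(y,z)` is an eligible edge of class `< i` in the `r_i`-ball around `x` -/
def PendAt (w : ℕ → ℕ → ℝ) (E : Finset ℕ) (i : ℤ) (x y z : ℕ) : Prop :=
  Elig w E y z ∧ cls (w y z) < i ∧ ConIn w E (bb (i - 1)) (rr i - w y z) x y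

/-- `n` steps of the algorithm: `v t` = vertex explored at step `t` (`v 0 = s`), entered from
`v (src t)`, level `m t`; `cen t i` = time of the centre of level `i` after step `t`. -/
structure Trace (w : ℕ → ℕ → ℝ) (n : ℕ) (v : ℕ → ℕ) (src : ℕ → ℕ) (m : ℕ → ℤ)
    (cen : ℕ → ℤ → ℕ) : Prop where
  cen0 : ∀ i, cen 0 i = 0
  src_le : ∀ t, t < n → src (t + 1) ≤ t
  step : ∀ t, t < n →
    PendAt w (ES v t) (m (t + 1)) (v (cen t (m (t + 1)))) (v (src (t + 1))) (v (t + 1))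
  min : ∀ t, t < n → ∀ i, i < m (t + 1) → ∀ y z, ¬ PendAt w (ES v t) i (v (cen t i)) y z
  cen_succ : ∀ t, t < n → ∀ i, cen (t + 1) i = if i < m (t + 1) then t + 1 else cen t i

/-- connected inside `E`, no bound on the edges -/
def ConE (w : ℕ → ℕ → ℝ) (E : Finset ℕ) (L : ℝ) (u v : ℕ) : Prop :=
  ConR w (fun a b => a ∈ E ∧ b ∈ E ∧ 0 < w a b) L u v

theorem ConIn.conE {w : ℕ → ℕ → ℝ} {E : Finset ℕ} {b L : ℝ} {u v : ℕ} (h : ConIn w E b L u v) :
    ConE w E L u v := ConR.monoR (fun _ _ h => ⟨h.1, h.2.1, h.2.2.1⟩) h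

/-- class of the edge by which `v t` is entered (`t ≥ 1`) -/
noncomputable def kap (w : ℕ → ℕ → ℝ) (v : ℕ → ℕ) (src : ℕ → ℕ) (t : ℕ) : ℤ :=
  cls (w (v (src t)) (v t))

/-- times `≤ n` of the level-`j` centres -/
def Cset (n : ℕ) (m : ℕ → ℤ) (j : ℤ) : Finset ℕ :=
  (Finset.range (n + 1)).filter (fun t => t = 0 ∨ j < m t)

/-- bad centres of level `j` -/
def BadZ (w : ℕ → ℕ → ℝ) (j : ℤ) (z : ℕ) : Prop :=
  ¬ GZ w (bb (j - 1)) (bb j) (rr j) (5 * 10000000 * rr j) z

/-! ## Masks: what the algorithm knows -/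

/-- the weights known after visiting the vertices in `X` -/
noncomputable def mask (w : ℕ → ℕ → ℝ) (X : List ℕ) : ℕ → ℕ → ℝ :=
  fun a b => if a ∈ X then w a b else 0

/-- length of a walk given as a list -/
noncomputable def plen (w : ℕ → ℕ → ℝ) (p : List ℕ) : ℝ :=
  ((p.zip p.tail).map (fun e => w e.1 e.2)).sum

/-- `ρ` is a valid route in the state `X` (list of explored vertices): it continues the walk from
the last explored vertex, runs through explored vertices, and ends in a new vertex. -/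
structure Route (w : ℕ → ℕ → ℝ) (X ρ : List ℕ) : Prop where
  ne : ρ ≠ []
  chain : (X.getLastD 0 :: ρ).IsChain (fun a b => 0 < w a b)
  inner : ∀ a ∈ ρ.dropLast, a ∈ X
  new : ρ.getLastD 0 ∉ X

/-- explored list after `t` rounds of the route rule `rt` -/
noncomputable def XS (rt : (ℕ → ℕ → ℝ) → List ℕ → List ℕ) (w : ℕ → ℕ → ℝ) (s : ℕ) :
    ℕ → List ℕ
  | 0 => [s]
  | t + 1 => XS rt w s t ++ [(rt (mask w (XS rt w s t)) (XS rt w s t)).getLastD 0]

end Pool.Agent.Lib.MP_ed4bd1_lc
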